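import Pool.Agent.H4R2.LO.Defs

/-!
# Weak `L¹` bound for an entry of the resolvent as a function of two diagonal entries (task WK)
-/

set_option autoImplicit false

open scoped BigOperators ENNReal
open MeasureTheory

namespace Pool.Agent.H4R2.LO

namespace Wk

variable {ι : Type*} [Fintype ι] [DecidableEq ι]

/-- the matrix -/
noncomputable def WM (A : Matrix ι ι ℝ) (w : ι → ℝ) (x y : ι) (t : ℝ) : Matrix ι ι ℝ :=
  A + Matrix.diagonal fun i => w i + if i = x ∨ i = y then t else 0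

/-- indicator of the two sites -/
noncomputable def wp (x y : ι) (i : ι) : ℝ := if i = x ∨ i = y then 1 else 0

theorem WM_eq (A : Matrix ι ι ℝ) (w : ι → ℝ) (x y : ι) (t0 t : ℝ) :
    WM A w x y t = WM A w x y t0 + Matrix.diagonal fun i => (t - t0) * wp x y i := by
  unfold WM wp
  rw [add_assoc, Matrix.diagonal_add]
  congr 2
  funext i
  split_ifs
  · ring
  · ring

theorem WM_symm {A : Matrix ι ι ℝ} (hA : A.IsSymm) (w : ι → ℝ) (x y : ι) (t : ℝ) :
    (WM A w x y t).IsSymm := by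
  unfold WM
  exact hA.add (Matrix.isSymm_diagonal _)

/-- the resolvent identity, entrywise -/
theorem res_id (A : Matrix ι ι ℝ) (w : ι → ℝ) (x y : ι) (t0 t : ℝ)
    (h0 : IsUnit (WM A w x y t0).det) (h1 : IsUnit (WM A w x y t).det) (i j : ι) :
    (WM A w x y t)⁻¹ i j + (t - t0) * ∑ k, (WM A w x y t0)⁻¹ i k * wp x y k *
      (WM A w x y t)⁻¹ k j = (WM A w x y t0)⁻¹ i j := by
  have e1 : (WM A w x y t)⁻¹ + (WM A w x y t0)⁻¹ *
      (Matrix.diagonal fun i => (t - t0) * wp x y i) * (WM A w x y t)⁻¹ = (WM A w x y t0)⁻¹ := by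
    have e2 : (WM A w x y t0)⁻¹ * WM A w x y t * (WM A w x y t)⁻¹ = (WM A w x y t0)⁻¹ := by
      rw [mul_assoc, Matrix.mul_nonsing_inv _ h1, mul_one]
    rw [WM_eq A w x y t0 t, mul_add, add_mul, Matrix.nonsing_inv_mul _ h0, one_mul,
      ← WM_eq A w x y t0 t] at e2
    exact e2
  have e3 := congrFun (congrFun e1 i) j
  rw [Matrix.add_apply, Matrix.mul_apply] at e3
  rw [← e3]
  congr 1
  rw [Finset.mul_sum]
  refine Finset.sum_congr rfl fun k _ => ?_
  rw [Matrix.mul_diagonal]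
  ring

theorem sum_wp_ne {x y : ι} (hxy : x ≠ y) (f : ι → ℝ) (g : ι → ℝ) :
    ∑ k, f k * wp x y k * g k = f x * g x + f y * g y := by
  have : ∀ k, f k * wp x y k * g k = (if k = x then f x * g x else 0) +
      (if k = y then f y * g y else 0) := by
    intro k
    unfold wp
    by_cases h1 : k = x
    · subst h1
      simp [hxy]
    · by_cases h2 : k = y
      · subst h2
        simp [h1]
      · simp [h1, h2]
  rw [Finset.sum_congr rfl fun k _ => this k, Finset.sum_add_distrib]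
  simp

theorem sum_wp_eq (x : ι) (f : ι → ℝ) (g : ι → ℝ) :
    ∑ k, f k * wp x x k * g k = f x * g x := by
  have : ∀ k, f k * wp x x k * g k = (if k = x then f x * g x else 0) := by
    intro k
    unfold wp
    by_cases h1 : k = x
    · subst h1
      simp
    · simp [h1]
  rw [Finset.sum_congr rfl fun k _ => this k]
  simp

/-- from the factor to the interval -/
theorem ball_of {s τ β : ℝ} (hs : 0 < s) (h : s * |1 + τ * β| < |β|) : |τ + 1 / β| < 1 / s := by
  have hβ : β ≠ 0 := by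
    rintro rfl
    rw [abs_zero] at h
    have := mul_nonneg hs.le (abs_nonneg (1 + τ * 0))
    linarith
  have hβ' : 0 < |β| := abs_pos.2 hβ
  have e : τ + 1 / β = (1 + τ * β) / β := by
    field_simp
    ring
  rw [e, abs_div, div_lt_div_iff₀ hβ' hs]
  linarith

/-- the elementary estimate -/
theorem elem {a b c τ u s : ℝ} (hs : 0 < s) (hu : s < |u|)
    (h : u * ((1 + τ * a) * (1 + τ * b) - τ ^ 2 * c ^ 2) = c) :
    |τ + 1 / (((a + b) + Real.sqrt ((a - b) ^ 2 + 4 * c ^ 2)) / 2)| < 1 / s ∨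
    |τ + 1 / (((a + b) - Real.sqrt ((a - b) ^ 2 + 4 * c ^ 2)) / 2)| < 1 / s := by
  obtain ⟨D, hD⟩ : ∃ D, D = Real.sqrt ((a - b) ^ 2 + 4 * c ^ 2) := ⟨_, rfl⟩
  rw [← hD]
  have hD2 : D ^ 2 = (a - b) ^ 2 + 4 * c ^ 2 := by
    rw [hD, Real.sq_sqrt (by positivity)]
  have hD0 : 0 ≤ D := by rw [hD]; exact Real.sqrt_nonneg _
  have hDc : 2 * |c| ≤ D := by
    apply abs_le_of_sq_le_sq' _ hD0 |>.2
    rw [mul_pow, sq_abs, hD2]
    nlinarith [sq_nonneg (a - b)]
  obtain ⟨b1, hb1⟩ : ∃ b1, b1 = ((a + b) + D) / 2 := ⟨_, rfl⟩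
  obtain ⟨b2, hb2⟩ : ∃ b2, b2 = ((a + b) - D) / 2 := ⟨_, rfl⟩
  rw [← hb1, ← hb2]
  have hfac : (1 + τ * a) * (1 + τ * b) - τ ^ 2 * c ^ 2 = (1 + τ * b1) * (1 + τ * b2) := by
    rw [hb1, hb2]
    linear_combination (τ ^ 2 / 4) * hD2
  rw [hfac] at h
  have hdiff : b1 - b2 = D := by rw [hb1, hb2]; ring
  by_contra hcon
  push Not at hcon
  obtain ⟨hc1, hc2⟩ := hcon
  have k1 : |b1| ≤ s * |1 + τ * b1| := by
    by_contra hk
    exact absurd (ball_of hs (not_le.1 hk)) (not_lt.2 hc1)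
  have k2 : |b2| ≤ s * |1 + τ * b2| := by
    by_contra hk
    exact absurd (ball_of hs (not_le.1 hk)) (not_lt.2 hc2)
  have p1 : 0 < |1 + τ * b1| := by
    rw [abs_pos]
    intro h0
    rw [h0, abs_zero, mul_zero] at k1
    have : b1 = 0 := abs_nonpos_iff.1 k1
    rw [this] at h0
    norm_num at h0
  have p2 : 0 < |1 + τ * b2| := by
    rw [abs_pos]
    intro h0
    rw [h0, abs_zero, mul_zero] at k2
    have : b2 = 0 := abs_nonpos_iff.1 k2
    rw [this] at h0
    norm_num at h0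
  have habs : |u| * (|1 + τ * b1| * |1 + τ * b2|) = |c| := by
    rw [← abs_mul, ← abs_mul, h]
  have hcD : 2 * |c| ≤ |b1| * |1 + τ * b2| + |b2| * |1 + τ * b1| := by
    have e : D = b1 * (1 + τ * b2) - b2 * (1 + τ * b1) := by rw [← hdiff]; ring
    calc 2 * |c| ≤ D := hDc
      _ ≤ |D| := le_abs_self _
      _ = |b1 * (1 + τ * b2) - b2 * (1 + τ * b1)| := by rw [← e]
      _ ≤ |b1 * (1 + τ * b2)| + |b2 * (1 + τ * b1)| := abs_sub _ _
      _ = _ := by rw [abs_mul, abs_mul]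
  have q1 : |b1| * |1 + τ * b2| ≤ s * |1 + τ * b1| * |1 + τ * b2| := by gcongr
  have q2 : |b2| * |1 + τ * b1| ≤ s * |1 + τ * b2| * |1 + τ * b1| := by gcongr
  have q3 : s * (|1 + τ * b1| * |1 + τ * b2|) < |u| * (|1 + τ * b1| * |1 + τ * b2|) :=
    mul_lt_mul_of_pos_right hu (mul_pos p1 p2)
  nlinarith

theorem elem1 {a τ u s : ℝ} (hs : 0 < s) (hu : s < |u|) (h : u * (1 + τ * a) = a) :
    |τ + 1 / a| < 1 / s := by
  apply ball_of hs
  have habs : |u| * |1 + τ * a| = |a| := by rw [← abs_mul, h]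
  rw [← habs]
  apply mul_lt_mul_of_pos_right hu
  rw [abs_pos]
  intro h0
  rw [h0, mul_zero] at h
  rw [← h] at h0
  norm_num at h0

theorem vol_ball (t0 p s : ℝ) (hs : 0 < s) :
    volume {t : ℝ | |t - t0 + p| < 1 / s} = ENNReal.ofReal (2 / s) := by
  have : {t : ℝ | |t - t0 + p| < 1 / s} = Metric.ball (t0 - p) (1 / s) := by
    ext t
    rw [Set.mem_ofPred_eq, Metric.mem_ball, Real.dist_eq]
    rw [show t - (t0 - p) = t - t0 + p by ring]
  rw [this, Real.volume_ball]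
  congr 1
  ring

theorem wk (A : Matrix ι ι ℝ) (hA : A.IsSymm) (w : ι → ℝ) (x y : ι) (s : ℝ) (hs : 0 < s) :
    volume {t : ℝ | s < |(A + Matrix.diagonal fun i => w i + if i = x ∨ i = y then t else 0)⁻¹ x y|} ≤
      ENNReal.ofReal (4 / s) := by
  change volume {t : ℝ | s < |(WM A w x y t)⁻¹ x y|} ≤ ENNReal.ofReal (4 / s)
  by_cases hex : ∃ t0, IsUnit (WM A w x y t0).det
  swap
  · have : {t : ℝ | s < |(WM A w x y t)⁻¹ x y|} = ∅ := by
      ext t
      simp only [Set.mem_ofPred_eq, Set.mem_empty_iff_false, iff_false, not_lt]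
      rw [Matrix.nonsing_inv_apply_not_isUnit _ (fun h => hex ⟨t, h⟩)]
      simpa using hs.le
    rw [this]
    simp
  obtain ⟨t0, h0⟩ := hex
  obtain ⟨G, hG⟩ : ∃ G, G = (WM A w x y t0)⁻¹ := ⟨_, rfl⟩
  have hGs : ∀ i j, G i j = G j i := by
    intro i j
    have h1 : G.IsSymm := by
      rw [hG]
      unfold Matrix.IsSymm
      rw [Matrix.transpose_nonsing_inv, WM_symm hA]
    have := h1.apply i j
    exact this.symm
  have hinv : ∀ t, s < |(WM A w x y t)⁻¹ x y| → IsUnit (WM A w x y t).det := by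
    intro t ht
    by_contra hcon
    rw [Matrix.nonsing_inv_apply_not_isUnit _ hcon] at ht
    simp at ht
    linarith
  by_cases hxy : x = y
  · subst hxy
    have hsub : {t : ℝ | s < |(WM A w x x t)⁻¹ x x|} ⊆ {t : ℝ | |t - t0 + 1 / G x x| < 1 / s} := by
      intro t ht
      rw [Set.mem_ofPred_eq] at ht ⊢
      have h1 := hinv t ht
      have e := res_id A w x x t0 t h0 h1 x x
      rw [sum_wp_eq, ← hG] at e
      exact elem1 hs ht (by linarith)
    refine (measure_mono hsub).trans ?_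
    rw [vol_ball _ _ _ hs]
    apply ENNReal.ofReal_le_ofReal
    gcongr
    norm_num
  · obtain ⟨b1, hb1⟩ : ∃ b1, b1 = ((G x x + G y y) +
      Real.sqrt ((G x x - G y y) ^ 2 + 4 * G x y ^ 2)) / 2 := ⟨_, rfl⟩
    obtain ⟨b2, hb2⟩ : ∃ b2, b2 = ((G x x + G y y) -
      Real.sqrt ((G x x - G y y) ^ 2 + 4 * G x y ^ 2)) / 2 := ⟨_, rfl⟩
    have hsub : {t : ℝ | s < |(WM A w x y t)⁻¹ x y|} ⊆
        {t : ℝ | |t - t0 + 1 / b1| < 1 / s} ∪ {t : ℝ | |t - t0 + 1 / b2| < 1 / s} := by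
      intro t ht
      rw [Set.mem_ofPred_eq] at ht
      have h1 := hinv t ht
      have e := res_id A w x y t0 t h0 h1 x y
      have e' := res_id A w x y t0 t h0 h1 y y
      rw [sum_wp_ne hxy, ← hG] at e e'
      rw [hGs y x] at e'
      have key : (WM A w x y t)⁻¹ x y * ((1 + (t - t0) * G x x) * (1 + (t - t0) * G y y) -
          (t - t0) ^ 2 * G x y ^ 2) = G x y := by
        linear_combination (1 + (t - t0) * G y y) * e - ((t - t0) * G x y) * e'
      have := elem hs ht key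
      rw [← hb1, ← hb2] at this
      exact this
    refine (measure_mono hsub).trans ((measure_union_le _ _).trans ?_)
    rw [vol_ball _ _ _ hs, vol_ball _ _ _ hs, ← ENNReal.ofReal_add (by positivity) (by positivity)]
    apply ENNReal.ofReal_le_ofReal
    apply le_of_eq
    ring

end Wk

end Pool.Agent.H4R2.LO
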