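import Pool.Agent.H4R2.LO.Defs
import Pool.Agent.H4R2.LO.Wk

/-!
A priori fractional moment bounds (task AP of team LO).
-/

set_option autoImplicit false

open scoped BigOperators ENNReal
open MeasureTheory

namespace Pool.Agent.H4R2.LO

namespace Ap

variable {ι : Type*} [Fintype ι] [DecidableEq ι]

omit [Fintype ι] in
theorem cont_Hm (A : Matrix ι ι ℝ) (lam : ℝ) :
    Continuous fun p : (ι → ℝ) × ℝ => Hm A lam p.1 p.2 := by
  unfold Hm
  apply Continuous.add continuous_const
  apply Continuous.matrix_diagonal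
  fun_prop

theorem meas_Gr (A : Matrix ι ι ℝ) (lam : ℝ) (x y : ι) :
    Measurable fun p : (ι → ℝ) × ℝ => Gr A lam p.1 p.2 x y := by
  have h : (fun p : (ι → ℝ) × ℝ => Gr A lam p.1 p.2 x y) =
      fun p : (ι → ℝ) × ℝ => (Hm A lam p.1 p.2).det⁻¹ * (Hm A lam p.1 p.2).adjugate x y := by
    funext p
    unfold Gr
    rw [Matrix.inv_def, Matrix.smul_apply, Ring.inverse_eq_inv', smul_eq_mul]
  rw [h]
  have h1 : Continuous fun p : (ι → ℝ) × ℝ => (Hm A lam p.1 p.2).det :=
    (cont_Hm A lam).matrix_det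
  have h2 : Continuous fun p : (ι → ℝ) × ℝ => (Hm A lam p.1 p.2).adjugate x y :=
    (cont_Hm A lam).matrix_adjugate.matrix_elem x y
  exact h1.measurable.inv.mul h2.measurable

/-- measurability in two coordinates -/
theorem meas_two (A : Matrix ι ι ℝ) (lam E : ℝ) (x y : ι) (V : ι → ℝ) :
    Measurable fun p : ℝ × ℝ =>
      Gr A lam (Function.update (Function.update V x p.1) y p.2) E x y := by
  have h1 : Continuous fun p : ℝ × ℝ => Function.update (Function.update V x p.1) y p.2 := by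
    apply continuous_pi
    intro i
    by_cases hy : i = y
    · subst hy
      simpa using continuous_snd
    · by_cases hx : i = x
      · subst hx
        simpa [Function.update_of_ne hy] using continuous_fst
      · simpa [Function.update_of_ne hy, Function.update_of_ne hx] using continuous_const
  have h : Measurable fun p : ℝ × ℝ =>
      ((Function.update (Function.update V x p.1) y p.2, E) : (ι → ℝ) × ℝ) :=
    h1.measurable.prodMk measurable_const
  exact Measurable.comp (g := fun q : (ι → ℝ) × ℝ => Gr A lam q.1 q.2 x y)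
    (f := fun p : ℝ × ℝ =>
      ((Function.update (Function.update V x p.1) y p.2, E) : (ι → ℝ) × ℝ))
    (meas_Gr A lam x y) h

omit [Fintype ι] in
theorem update_add (V : ι → ℝ) (x y : ι) (a b t : ℝ) (i : ι) :
    Function.update (Function.update V x (a + t)) y (b + t) i =
      Function.update (Function.update V x a) y b i + if i = x ∨ i = y then t else 0 := by
  by_cases hy : i = y
  · subst hy
    simp
  · by_cases hx : i = x
    · subst hx
      simp [Function.update_of_ne hy]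
    · simp [hx, hy]

/-- weak type bound -/
theorem weak (μ : Measure ℝ) [IsProbabilityMeasure μ] (B : ℝ) (hμ : Reg B μ) (A : Matrix ι ι ℝ)
    (hA : A.IsSymm) (lam : ℝ) (hlam : 0 < lam) (E : ℝ) (x y : ι) (V : ι → ℝ) (s : ℝ)
    (hs : 0 < s) :
    (μ.prod μ) {p : ℝ × ℝ |
      s < |Gr A lam (Function.update (Function.update V x p.1) y p.2) E x y|} ≤
      ENNReal.ofReal (B * (4 / (lam * s))) := by
  obtain ⟨hB, _, hreg⟩ := hμ
  refine hreg _ ?_ _ (by positivity) ?_
  · exact measurableSet_lt measurable_const (meas_two A lam E x y V).abs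
  · intro a b
    have h1 : {t : ℝ | ((a + t, b + t) : ℝ × ℝ) ∈ {p : ℝ × ℝ |
        s < |Gr A lam (Function.update (Function.update V x p.1) y p.2) E x y|}} =
        (fun t => lam * t) ⁻¹' {t : ℝ | s < |(A + Matrix.diagonal fun i =>
          (lam * Function.update (Function.update V x a) y b i - E) +
            if i = x ∨ i = y then t else 0)⁻¹ x y|} := by
      ext t
      simp only [Set.mem_ofPred_eq, Set.mem_preimage]
      unfold Gr Hm
      have h2 : (fun i => lam * Function.update (Function.update V x (a + t)) y (b + t) i - E) =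
          fun i => (lam * Function.update (Function.update V x a) y b i - E) +
            if i = x ∨ i = y then lam * t else 0 := by
        funext i
        rw [update_add]
        split_ifs <;> ring
      rw [h2]
    rw [h1, Real.volume_preimage_mul_left hlam.ne']
    have h3 := Wk.wk A hA (fun i => lam * Function.update (Function.update V x a) y b i - E)
      x y s hs
    calc ENNReal.ofReal |lam⁻¹| * volume {t : ℝ | s < |(A + Matrix.diagonal fun i =>
          (lam * Function.update (Function.update V x a) y b i - E) +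
            if i = x ∨ i = y then t else 0)⁻¹ x y|}
        ≤ ENNReal.ofReal |lam⁻¹| * ENNReal.ofReal (4 / s) := by gcongr
      _ = ENNReal.ofReal (4 / (lam * s)) := by
          rw [← ENNReal.ofReal_mul (abs_nonneg _), abs_of_pos (inv_pos.mpr hlam)]
          congr 1
          field_simp

/-- layer cake for a weak `L¹` function -/
theorem layer {Ω : Type*} [MeasurableSpace Ω] (P : Measure Ω) [IsProbabilityMeasure P]
    (f : Ω → ℝ) (hf : Measurable f) (K : ℝ) (hK : 0 < K)
    (h : ∀ s : ℝ, 0 < s → P {ω | s < |f ω|} ≤ ENNReal.ofReal (K / s)) :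
    ∫⁻ ω, ‖f ω‖ₑ ^ (1 / 2 : ℝ) ∂P ≤ ENNReal.ofReal (2 * Real.sqrt K) := by
  have hg : ∀ ω, ‖f ω‖ₑ ^ (1 / 2 : ℝ) = ENNReal.ofReal (Real.sqrt |f ω|) := by
    intro ω
    rw [Real.enorm_eq_ofReal_abs, ENNReal.ofReal_rpow_of_nonneg (abs_nonneg _) (by norm_num),
      Real.sqrt_eq_rpow]
  simp only [hg]
  rw [lintegral_eq_lintegral_meas_lt P (ae_of_all _ fun ω => Real.sqrt_nonneg _)
    (hf.abs.sqrt.aemeasurable)]
  have hsK : 0 < Real.sqrt K := Real.sqrt_pos.mpr hK
  have hsplit : Set.Ioi (0 : ℝ) = Set.Ioc 0 (Real.sqrt K) ∪ Set.Ioi (Real.sqrt K) := by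
    rw [Set.Ioc_union_Ioi_eq_Ioi hsK.le]
  rw [hsplit]
  refine (lintegral_union_le _ _ _).trans ?_
  have h1 : ∫⁻ t in Set.Ioc 0 (Real.sqrt K), P {ω | t < Real.sqrt |f ω|} ≤
      ENNReal.ofReal (Real.sqrt K) := by
    calc ∫⁻ t in Set.Ioc 0 (Real.sqrt K), P {ω | t < Real.sqrt |f ω|}
        ≤ ∫⁻ _t in Set.Ioc 0 (Real.sqrt K), 1 := lintegral_mono fun t => prob_le_one
      _ = ENNReal.ofReal (Real.sqrt K) := by
          rw [setLIntegral_one, Real.volume_Ioc, sub_zero]
  have h2 : ∫⁻ t in Set.Ioi (Real.sqrt K), P {ω | t < Real.sqrt |f ω|} ≤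
      ENNReal.ofReal (Real.sqrt K) := by
    have h3 : ∀ t ∈ Set.Ioi (Real.sqrt K), P {ω | t < Real.sqrt |f ω|} ≤
        ENNReal.ofReal (K * t ^ (-2 : ℝ)) := by
      intro t ht
      have ht0 : 0 < t := lt_trans hsK ht
      have h4 : {ω | t < Real.sqrt |f ω|} = {ω | t ^ 2 < |f ω|} := by
        ext ω
        exact Real.lt_sqrt ht0.le
      rw [h4]
      refine (h (t ^ 2) (by positivity)).trans (le_of_eq ?_)
      congr 1
      rw [Real.rpow_neg ht0.le, div_eq_mul_inv]
      norm_cast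
    have hint : IntegrableOn (fun t : ℝ => K * t ^ (-2 : ℝ)) (Set.Ioi (Real.sqrt K)) :=
      (integrableOn_Ioi_rpow_of_lt (by norm_num) hsK).const_mul K
    calc ∫⁻ t in Set.Ioi (Real.sqrt K), P {ω | t < Real.sqrt |f ω|}
        ≤ ∫⁻ t in Set.Ioi (Real.sqrt K), ENNReal.ofReal (K * t ^ (-2 : ℝ)) :=
          setLIntegral_mono' measurableSet_Ioi h3
      _ = ENNReal.ofReal (∫ t in Set.Ioi (Real.sqrt K), K * t ^ (-2 : ℝ)) := by
          rw [← ofReal_integral_eq_lintegral_ofReal hint]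
          filter_upwards [ae_restrict_mem measurableSet_Ioi] with t ht
          have ht0 : 0 < t := lt_trans hsK ht
          positivity
      _ = ENNReal.ofReal (Real.sqrt K) := by
          congr 1
          rw [integral_const_mul, integral_Ioi_rpow_of_lt (by norm_num) hsK]
          have h5 : (-2 : ℝ) + 1 = -1 := by norm_num
          rw [h5, Real.rpow_neg_one]
          have h6 : K = Real.sqrt K * Real.sqrt K := (Real.mul_self_sqrt hK.le).symm
          have h7 : Real.sqrt K ≠ 0 := hsK.ne'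
          rw [neg_div_neg_eq, div_one]
          nth_rewrite 1 [h6]
          rw [mul_assoc, mul_inv_cancel₀ h7, mul_one]
  calc (∫⁻ t in Set.Ioc 0 (Real.sqrt K), P {ω | t < Real.sqrt |f ω|}) +
      ∫⁻ t in Set.Ioi (Real.sqrt K), P {ω | t < Real.sqrt |f ω|}
      ≤ ENNReal.ofReal (Real.sqrt K) + ENNReal.ofReal (Real.sqrt K) := add_le_add h1 h2
    _ = ENNReal.ofReal (2 * Real.sqrt K) := by
        rw [← ENNReal.ofReal_add hsK.le hsK.le]
        congr 1
        ring

theorem ap (μ : Measure ℝ) [IsProbabilityMeasure μ] (B : ℝ) (hμ : Reg B μ) (A : Matrix ι ι ℝ)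
    (hA : A.IsSymm) (lam : ℝ) (hlam : 0 < lam) (E : ℝ) (x y : ι) (V : ι → ℝ) :
    ∫⁻ a, ∫⁻ b, ‖Gr A lam (Function.update (Function.update V x a) y b) E x y‖ₑ ^ (1 / 2 : ℝ) ∂μ ∂μ ≤
      ENNReal.ofReal (4 * Real.sqrt (B / lam)) := by
  have hm := meas_two A lam E x y V
  have hm2 : Measurable fun p : ℝ × ℝ =>
      ‖Gr A lam (Function.update (Function.update V x p.1) y p.2) E x y‖ₑ ^ (1 / 2 : ℝ) :=
    hm.enorm.pow_const _
  have h1 := lintegral_prod (μ := μ) (ν := μ) _ hm2.aemeasurable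
  rw [← h1]
  have hB := hμ.1
  have h2 := layer (μ.prod μ) _ hm (4 * (B / lam)) (by positivity) (by
    intro s hs
    refine (weak μ B hμ A hA lam hlam E x y V s hs).trans (le_of_eq ?_)
    congr 1
    field_simp)
  refine h2.trans (le_of_eq ?_)
  congr 1
  rw [Real.sqrt_mul (by norm_num), show (4 : ℝ) = 2 ^ 2 by norm_num,
    Real.sqrt_sq (by norm_num)]
  ring

/-- passing from the exponent `1/2` to the exponent `1/4` -/
theorem pow_quarter (r : ℝ) (c : ℝ) (hc : 0 < c) :
    ‖r‖ₑ ^ (1 / 4 : ℝ) ≤ ENNReal.ofReal (c / 2) + ENNReal.ofReal (1 / (2 * c)) *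
      ‖r‖ₑ ^ (1 / 2 : ℝ) := by
  rw [Real.enorm_eq_ofReal_abs, ENNReal.ofReal_rpow_of_nonneg (abs_nonneg _) (by norm_num),
    ENNReal.ofReal_rpow_of_nonneg (abs_nonneg _) (by norm_num),
    ← ENNReal.ofReal_mul (by positivity), ← ENNReal.ofReal_add (by positivity) (by positivity)]
  apply ENNReal.ofReal_le_ofReal
  have h1 : |r| ^ (1 / 2 : ℝ) = (|r| ^ (1 / 4 : ℝ)) ^ 2 := by
    rw [← Real.rpow_natCast, ← Real.rpow_mul (abs_nonneg _)]
    norm_num
  rw [h1]
  set z : ℝ := |r| ^ (1 / 4 : ℝ) with hz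
  have h2 : 0 ≤ (z - c) ^ 2 := sq_nonneg _
  have h3 : c / 2 + 1 / (2 * c) * z ^ 2 - z = (z - c) ^ 2 / (2 * c) := by
    field_simp
    ring
  have h4 : 0 ≤ (z - c) ^ 2 / (2 * c) := by positivity
  linarith

theorem ap4 (μ : Measure ℝ) [IsProbabilityMeasure μ] (B : ℝ) (hμ : Reg B μ) (A : Matrix ι ι ℝ)
    (hA : A.IsSymm) (lam : ℝ) (hlam : 0 < lam) (E : ℝ) (x y : ι) (V : ι → ℝ) :
    ∫⁻ a, ∫⁻ b, ‖Gr A lam (Function.update (Function.update V x a) y b) E x y‖ₑ ^ (1 / 4 : ℝ) ∂μ ∂μ ≤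
      ENNReal.ofReal (2 * Real.sqrt (Real.sqrt (B / lam))) := by
  have hm := meas_two A lam E x y V
  have hm2 : Measurable fun p : ℝ × ℝ =>
      ‖Gr A lam (Function.update (Function.update V x p.1) y p.2) E x y‖ₑ ^ (1 / 2 : ℝ) :=
    hm.enorm.pow_const _
  have hm4 : Measurable fun p : ℝ × ℝ =>
      ‖Gr A lam (Function.update (Function.update V x p.1) y p.2) E x y‖ₑ ^ (1 / 4 : ℝ) :=
    hm.enorm.pow_const _
  have h1 := ap μ B hμ A hA lam hlam E x y V
  have h2 := lintegral_prod (μ := μ) (ν := μ) _ hm2.aemeasurable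
  have h4 := lintegral_prod (μ := μ) (ν := μ) _ hm4.aemeasurable
  rw [← h2] at h1
  rw [← h4]
  have hB := hμ.1
  have hq : 0 < Real.sqrt (B / lam) := Real.sqrt_pos.mpr (by positivity)
  have hc : 0 < 2 * Real.sqrt (Real.sqrt (B / lam)) := by
    have := Real.sqrt_pos.mpr hq
    positivity
  set c : ℝ := 2 * Real.sqrt (Real.sqrt (B / lam)) with hcdef
  have hcc : 4 * Real.sqrt (B / lam) = c ^ 2 := by
    rw [hcdef, mul_pow, Real.sq_sqrt hq.le]
    norm_num
  calc ∫⁻ p : ℝ × ℝ, ‖Gr A lam (Function.update (Function.update V x p.1) y p.2) E x y‖ₑ ^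
        (1 / 4 : ℝ) ∂(μ.prod μ)
      ≤ ∫⁻ p : ℝ × ℝ, (ENNReal.ofReal (c / 2) + ENNReal.ofReal (1 / (2 * c)) *
        ‖Gr A lam (Function.update (Function.update V x p.1) y p.2) E x y‖ₑ ^ (1 / 2 : ℝ))
          ∂(μ.prod μ) := lintegral_mono fun p => pow_quarter _ c hc
    _ = ENNReal.ofReal (c / 2) + ENNReal.ofReal (1 / (2 * c)) * ∫⁻ p : ℝ × ℝ,
        ‖Gr A lam (Function.update (Function.update V x p.1) y p.2) E x y‖ₑ ^ (1 / 2 : ℝ)
          ∂(μ.prod μ) := by
        rw [lintegral_add_left measurable_const, lintegral_const, measure_univ, mul_one,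
          lintegral_const_mul _ hm2]
    _ ≤ ENNReal.ofReal (c / 2) + ENNReal.ofReal (1 / (2 * c)) * ENNReal.ofReal (c ^ 2) := by
        rw [← hcc]
        gcongr
    _ = ENNReal.ofReal c := by
        rw [← ENNReal.ofReal_mul (by positivity), ← ENNReal.ofReal_add (by positivity)
          (by positivity)]
        congr 1
        field_simp
        ring

/-- resampling one coordinate of a product measure -/
theorem resample (μ : Measure ℝ) [IsProbabilityMeasure μ] (y : ι) (F : (ι → ℝ) → ENNReal)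
    (hF : Measurable F) :
    ∫⁻ V, F V ∂(Measure.pi fun _ : ι => μ) =
      ∫⁻ V, (∫⁻ t, F (Function.update V y t) ∂μ) ∂(Measure.pi fun _ : ι => μ) := by
  have hG : Measurable fun V : ι → ℝ => ∫⁻ t, F (Function.update V y t) ∂μ := by
    have h1 : Measurable fun p : (ι → ℝ) × ℝ => F (Function.update p.1 y p.2) :=
      hF.comp measurable_update'
    exact h1.lintegral_prod_right'
  refine lintegral_eq_of_lmarginal_eq {y} hF hG ?_
  rw [lmarginal_singleton, lmarginal_singleton]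
  funext V
  simp

/-- resampling two coordinates -/
theorem resample2 (μ : Measure ℝ) [IsProbabilityMeasure μ] (x y : ι) (F : (ι → ℝ) → ENNReal)
    (hF : Measurable F) :
    ∫⁻ V, F V ∂(Measure.pi fun _ : ι => μ) =
      ∫⁻ V, (∫⁻ a, ∫⁻ b, F (Function.update (Function.update V x a) y b) ∂μ ∂μ)
        ∂(Measure.pi fun _ : ι => μ) := by
  have hG : Measurable fun V : ι → ℝ => ∫⁻ t, F (Function.update V y t) ∂μ := by
    have h1 : Measurable fun p : (ι → ℝ) × ℝ => F (Function.update p.1 y p.2) :=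
      hF.comp measurable_update'
    exact h1.lintegral_prod_right'
  rw [resample μ y F hF, resample μ x _ hG]

theorem meas_V (A : Matrix ι ι ℝ) (lam E : ℝ) (x y : ι) :
    Measurable fun V : ι → ℝ => Gr A lam V E x y :=
  Measurable.comp (g := fun q : (ι → ℝ) × ℝ => Gr A lam q.1 q.2 x y)
    (f := fun V : ι → ℝ => ((V, E) : (ι → ℝ) × ℝ)) (meas_Gr A lam x y)
    (measurable_id.prodMk measurable_const)

theorem ap_pi (μ : Measure ℝ) [IsProbabilityMeasure μ] (B : ℝ) (hμ : Reg B μ) (A : Matrix ι ι ℝ)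
    (hA : A.IsSymm) (lam : ℝ) (hlam : 0 < lam) (E : ℝ) (x y : ι) :
    ∫⁻ V, ‖Gr A lam V E x y‖ₑ ^ (1 / 2 : ℝ) ∂(Measure.pi fun _ : ι => μ) ≤
      ENNReal.ofReal (4 * Real.sqrt (B / lam)) := by
  have hG : Measurable fun V : ι → ℝ => ‖Gr A lam V E x y‖ₑ ^ (1 / 2 : ℝ) :=
    (meas_V A lam E x y).enorm.pow_const _
  rw [resample2 μ x y _ hG]
  calc _ ≤ ∫⁻ _V, ENNReal.ofReal (4 * Real.sqrt (B / lam)) ∂(Measure.pi fun _ : ι => μ) :=
        lintegral_mono fun V => ap μ B hμ A hA lam hlam E x y V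
    _ = _ := by rw [lintegral_const, measure_univ, mul_one]

/-- a constant factor in front of an iterated integral -/
theorem const_out (μ : Measure ℝ) [SFinite μ] (c : ℝ≥0∞) (g : ℝ × ℝ → ℝ≥0∞) (hg : Measurable g) :
    ∫⁻ a, ∫⁻ b, c * g (a, b) ∂μ ∂μ = c * ∫⁻ a, ∫⁻ b, g (a, b) ∂μ ∂μ := by
  have h1 : ∀ a : ℝ, ∫⁻ b, c * g (a, b) ∂μ = c * ∫⁻ b, g (a, b) ∂μ := by
    intro a
    exact lintegral_const_mul _ (hg.comp measurable_prodMk_left)
  simp only [h1]
  exact lintegral_const_mul _ hg.lintegral_prod_right'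

/-- weighted version: `F` does not depend on the coordinates `x` and `y` -/
theorem ap4_weight (μ : Measure ℝ) [IsProbabilityMeasure μ] (B : ℝ) (hμ : Reg B μ)
    (A : Matrix ι ι ℝ) (hA : A.IsSymm) (lam : ℝ) (hlam : 0 < lam) (E : ℝ) (x y : ι)
    (F : (ι → ℝ) → ℝ≥0∞) (hF : Measurable F)
    (hFi : ∀ V a b, F (Function.update (Function.update V x a) y b) = F V) :
    ∫⁻ V, F V * ‖Gr A lam V E x y‖ₑ ^ (1 / 4 : ℝ) ∂(Measure.pi fun _ : ι => μ) ≤
      ENNReal.ofReal (2 * Real.sqrt (Real.sqrt (B / lam))) *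
        ∫⁻ V, F V ∂(Measure.pi fun _ : ι => μ) := by
  have hFG : Measurable fun V : ι → ℝ => F V * ‖Gr A lam V E x y‖ₑ ^ (1 / 4 : ℝ) :=
    hF.mul ((meas_V A lam E x y).enorm.pow_const _)
  refine (resample2 μ x y (fun V : ι → ℝ => F V * ‖Gr A lam V E x y‖ₑ ^ (1 / 4 : ℝ)) hFG).le.trans
    ?_
  refine le_trans (lintegral_mono (g := fun V : ι → ℝ =>
    ENNReal.ofReal (2 * Real.sqrt (Real.sqrt (B / lam))) * F V) fun V => ?_)
    (lintegral_const_mul _ hF).le
  have hm4 : Measurable fun p : ℝ × ℝ =>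
      ‖Gr A lam (Function.update (Function.update V x p.1) y p.2) E x y‖ₑ ^ (1 / 4 : ℝ) :=
    (meas_two A lam E x y V).enorm.pow_const _
  have h1 := const_out μ (F V) (fun p : ℝ × ℝ =>
      ‖Gr A lam (Function.update (Function.update V x p.1) y p.2) E x y‖ₑ ^ (1 / 4 : ℝ)) hm4
  simp only [hFi]
  refine h1.le.trans ?_
  rw [mul_comm]
  exact mul_le_mul_left (ap4 μ B hμ A hA lam hlam E x y V) _

end Ap

end Pool.Agent.H4R2.LO
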