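import Pool.Agent.H4R2.LO.Defs

/-!
# Uniqueness of the Borel transform
-/

set_option autoImplicit false

open scoped BigOperators ENNReal
open MeasureTheory

namespace Pool.Agent.H4R2.LO

namespace Bden

open Filter Topology Complex

/-- the Poisson type kernel -/
noncomputable def ker (η x E : ℝ) : ℝ := η / ((E - x) ^ 2 + η ^ 2)

theorem ker_nonneg {η : ℝ} (hη : 0 < η) (x E : ℝ) : 0 ≤ ker η x E := by
  unfold ker
  positivity

theorem ker_le {η : ℝ} (hη : 0 < η) (x E : ℝ) : ker η x E ≤ 1 / η := by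
  unfold ker
  rw [div_le_div_iff₀ (by positivity) hη]
  nlinarith [sq_nonneg (E - x)]

theorem ker_cont {η : ℝ} (hη : 0 < η) : Continuous fun p : ℝ × ℝ => ker η p.1 p.2 := by
  unfold ker
  refine Continuous.div (by fun_prop) (by fun_prop) ?_
  intro p
  have : 0 < (p.2 - p.1) ^ 2 + η ^ 2 := by positivity
  exact this.ne'

theorem ker_eq {η : ℝ} (hη : 0 < η) (x E : ℝ) :
    ((E : ℂ) - (x + η * I))⁻¹ - ((E : ℂ) - (x - η * I))⁻¹ = 2 * I * (ker η x E : ℂ) := by
  have h1 : ((E : ℂ) - (x + η * I)) ≠ 0 := by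
    intro h
    have := congrArg Complex.im h
    simp at this
    exact hη.ne' this
  have h2 : ((E : ℂ) - (x - η * I)) ≠ 0 := by
    intro h
    have := congrArg Complex.im h
    simp at this
    exact hη.ne' this
  have h3 : (((E - x) ^ 2 + η ^ 2 : ℝ) : ℂ) = ((E : ℂ) - (x + η * I)) * ((E : ℂ) - (x - η * I)) := by
    push_cast
    ring_nf
    rw [I_sq]
    ring
  unfold ker
  rw [Complex.ofReal_div, h3]
  field_simp
  ring

theorem inv_bdd {z : ℂ} (hz : z.im ≠ 0) (E : ℝ) : ‖((E : ℂ) - z)⁻¹‖ ≤ 1 / |z.im| := by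
  rw [norm_inv, one_div]
  refine inv_anti₀ (abs_pos.2 hz) ?_
  have : |((E : ℂ) - z).im| ≤ ‖(E : ℂ) - z‖ := Complex.abs_im_le_norm _
  simpa using this

theorem int_inv (μ : Measure ℝ) [IsFiniteMeasure μ] (f : ℝ → ℂ) (hf : Integrable f μ) {z : ℂ}
    (hz : z.im ≠ 0) : Integrable (fun E : ℝ => f E * ((E : ℂ) - z)⁻¹) μ := by
  refine hf.mul_bdd (c := 1 / |z.im|) ?_ ?_
  · refine Continuous.aestronglyMeasurable ?_
    refine Continuous.inv₀ (by fun_prop) ?_
    intro E h
    apply hz
    have := congrArg Complex.im h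
    simpa using this
  · exact Filter.Eventually.of_forall fun E => inv_bdd hz E

theorem ker_int (μ : Measure ℝ) [IsFiniteMeasure μ] (f : ℝ → ℂ) (hf : Integrable f μ)
    (h : ∀ z : ℂ, z.im ≠ 0 → |z.im| < 1 → ∫ E : ℝ, f E * ((E : ℂ) - z)⁻¹ ∂μ = 0)
    {η : ℝ} (hη : 0 < η) (hη1 : η < 1) (x : ℝ) : ∫ E : ℝ, f E * (ker η x E : ℂ) ∂μ = 0 := by
  have hz1 : ((x : ℂ) + η * I).im = η := by simp
  have hz2 : ((x : ℂ) - η * I).im = -η := by simp
  have e1 := h (x + η * I) (by rw [hz1]; exact hη.ne') (by rw [hz1, abs_of_pos hη]; exact hη1)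
  have e2 := h (x - η * I) (by rw [hz2]; exact neg_ne_zero.2 hη.ne')
    (by rw [hz2, abs_neg, abs_of_pos hη]; exact hη1)
  have i1 := int_inv μ f hf (z := x + η * I) (by rw [hz1]; exact hη.ne')
  have i2 := int_inv μ f hf (z := x - η * I) (by rw [hz2]; exact neg_ne_zero.2 hη.ne')
  have e3 := integral_sub i1 i2
  rw [e1, e2, sub_zero] at e3
  have e4 : (fun E : ℝ => f E * ((E : ℂ) - (x + η * I))⁻¹ - f E * ((E : ℂ) - (x - η * I))⁻¹) =
      fun E : ℝ => (2 * I) * (f E * (ker η x E : ℂ)) := by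
    funext E
    rw [← mul_sub, ker_eq hη]
    ring
  rw [e4, integral_const_mul] at e3
  have : (2 * I : ℂ) ≠ 0 := by simp
  exact (mul_eq_zero.1 e3).resolve_left this

/-- the smeared test function -/
noncomputable def smear (φ : ℝ → ℝ) (η E : ℝ) : ℝ := ∫ s : ℝ, φ (E + η * s) * (1 + s ^ 2)⁻¹

theorem smear_eq (φ : ℝ → ℝ) {η : ℝ} (hη : 0 < η) (E : ℝ) :
    ∫ x : ℝ, φ x * ker η x E = smear φ η E := by
  have h1 := integral_add_left_eq_self (μ := (volume : Measure ℝ)) (fun x => φ x * ker η x E) E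
  rw [← h1]
  have h2 := Measure.integral_comp_mul_left (fun x => φ (E + x) * ker η (E + x) E) η
  rw [smul_eq_mul, abs_of_pos (inv_pos.2 hη)] at h2
  have h3 : ∫ x : ℝ, φ (E + x) * ker η (E + x) E =
      η * ∫ x : ℝ, φ (E + η * x) * ker η (E + η * x) E := by
    rw [h2]
    field_simp
  rw [h3, ← integral_const_mul]
  unfold smear
  refine integral_congr_ae (Filter.Eventually.of_forall fun s => ?_)
  simp only
  unfold ker
  have : (1 + s ^ 2 : ℝ) ≠ 0 := by positivity
  have h5 : (E - (E + η * s)) ^ 2 + η ^ 2 = η ^ 2 * (1 + s ^ 2) := by ring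
  rw [h5]
  field_simp

theorem smear_bdd (φ : ℝ → ℝ) (_hφ : Continuous φ) {M : ℝ} (hM : ∀ x, |φ x| ≤ M) (η E : ℝ) :
    |smear φ η E| ≤ M * Real.pi := by
  unfold smear
  have h1 : ‖∫ s : ℝ, φ (E + η * s) * (1 + s ^ 2)⁻¹‖ ≤ ∫ s : ℝ, M * (1 + s ^ 2)⁻¹ := by
    refine norm_integral_le_of_norm_le (integrable_inv_one_add_sq.const_mul M) ?_
    refine Filter.Eventually.of_forall fun s => ?_
    rw [norm_mul, Real.norm_eq_abs, Real.norm_eq_abs, abs_of_pos (by positivity : 0 < (1 + s ^ 2)⁻¹)]
    exact mul_le_mul_of_nonneg_right (hM _) (by positivity)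
  rw [integral_const_mul, integral_univ_inv_one_add_sq] at h1
  exact h1

theorem smear_tendsto (φ : ℝ → ℝ) (hφ : Continuous φ) {M : ℝ} (hM : ∀ x, |φ x| ≤ M) (η : ℕ → ℝ)
    (hη : Tendsto η atTop (𝓝 0)) (E : ℝ) :
    Tendsto (fun n => smear φ (η n) E) atTop (𝓝 (φ E * Real.pi)) := by
  have h1 : φ E * Real.pi = ∫ s : ℝ, φ E * (1 + s ^ 2)⁻¹ := by
    rw [integral_const_mul, integral_univ_inv_one_add_sq]
  rw [h1]
  unfold smear
  refine tendsto_integral_of_dominated_convergence (fun s => M * (1 + s ^ 2)⁻¹) ?_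
    (integrable_inv_one_add_sq.const_mul M) ?_ ?_
  · intro n
    refine Continuous.aestronglyMeasurable ?_
    refine Continuous.mul (by fun_prop) ?_
    refine Continuous.inv₀ (by fun_prop) ?_
    intro s
    positivity
  · intro n
    refine Filter.Eventually.of_forall fun s => ?_
    rw [norm_mul, Real.norm_eq_abs, Real.norm_eq_abs, abs_of_pos (by positivity : 0 < (1 + s ^ 2)⁻¹)]
    exact mul_le_mul_of_nonneg_right (hM _) (by positivity)
  · refine Filter.Eventually.of_forall fun s => ?_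
    refine Tendsto.mul_const _ ?_
    have h2 : Tendsto (fun n => E + η n * s) atTop (𝓝 (E + 0 * s)) :=
      tendsto_const_nhds.add (hη.mul_const s)
    rw [zero_mul, add_zero] at h2
    exact (hφ.tendsto E).comp h2

/-- uniqueness of the Borel transform -/
theorem dens (μ : Measure ℝ) [IsFiniteMeasure μ] (f : ℝ → ℂ) (hf : Integrable f μ)
    (h : ∀ z : ℂ, z.im ≠ 0 → |z.im| < 1 → ∫ E : ℝ, f E * ((E : ℂ) - z)⁻¹ ∂μ = 0) :
    ∀ᵐ E ∂μ, f E = 0 := by
  refine ae_eq_zero_of_integral_contDiff_smul_eq_zero hf.locallyIntegrable ?_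
  intro φ hφ hφc
  have hcont : Continuous φ := hφ.continuous
  obtain ⟨M, hM⟩ := hφc.exists_bound_of_continuous hcont
  have hM' : ∀ x, |φ x| ≤ M := hM
  -- the double integral
  have key : ∀ η : ℝ, 0 < η → η < 1 → ∫ E : ℝ, f E * (smear φ η E : ℂ) ∂μ = 0 := by
    intro η hη hη1
    have hint : Integrable (fun p : ℝ × ℝ => ((φ p.1 : ℂ) * f p.2) * (ker η p.1 p.2 : ℂ))
        ((volume : Measure ℝ).prod μ) := by
      have h1 : Integrable (fun p : ℝ × ℝ => (φ p.1 : ℂ) * f p.2) ((volume : Measure ℝ).prod μ) :=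
        Integrable.mul_prod (f := fun x => (φ x : ℂ)) (g := f)
          ((hcont.integrable_of_hasCompactSupport hφc).ofReal) hf
      refine h1.mul_bdd (c := 1 / η) ?_ ?_
      · exact (Complex.continuous_ofReal.comp (ker_cont hη)).aestronglyMeasurable
      · refine Filter.Eventually.of_forall fun p => ?_
        rw [Complex.norm_real, Real.norm_eq_abs, abs_of_nonneg (ker_nonneg hη _ _)]
        exact ker_le hη _ _
    have h1 := integral_integral_swap (f := fun x E => ((φ x : ℂ) * f E) * (ker η x E : ℂ)) hint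
    have h2 : ∫ x : ℝ, ∫ E : ℝ, ((φ x : ℂ) * f E) * (ker η x E : ℂ) ∂μ = 0 := by
      have : ∀ x : ℝ, ∫ E : ℝ, ((φ x : ℂ) * f E) * (ker η x E : ℂ) ∂μ = 0 := by
        intro x
        simp_rw [mul_assoc]
        rw [integral_const_mul, ker_int μ f hf h hη hη1 x, mul_zero]
      simp [this]
    rw [h2] at h1
    rw [h1]
    refine integral_congr_ae (Filter.Eventually.of_forall fun E => ?_)
    simp only
    rw [← smear_eq φ hη E]
    have h3 : ∀ x : ℝ, (φ x : ℂ) * f E * (ker η x E : ℂ) = f E * ((φ x * ker η x E : ℝ) : ℂ) := by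
      intro x
      push_cast
      ring
    simp_rw [h3]
    rw [integral_const_mul, integral_complex_ofReal]
  -- the limit
  set η : ℕ → ℝ := fun n => 1 / ((n : ℝ) + 2) with hηdef
  have hη : Tendsto η atTop (𝓝 0) := by
    have h1 : Tendsto (fun n : ℕ => 1 / (((n + 1 : ℕ) : ℝ) + 1)) atTop (𝓝 0) :=
      (tendsto_add_atTop_iff_nat 1).2 tendsto_one_div_add_atTop_nhds_zero_nat
    refine h1.congr fun n => ?_
    rw [hηdef]
    push_cast
    ring_nf
  have hlim : Tendsto (fun n => ∫ E : ℝ, f E * (smear φ (η n) E : ℂ) ∂μ) atTop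
      (𝓝 (∫ E : ℝ, f E * ((φ E * Real.pi : ℝ) : ℂ) ∂μ)) := by
    refine tendsto_integral_of_dominated_convergence (fun E => ‖f E‖ * (M * Real.pi)) ?_
      (hf.norm.mul_const _) ?_ ?_
    · intro n
      refine hf.aestronglyMeasurable.mul ?_
      have hm : Tendsto (fun k : ℕ => fun E : ℝ => (0 : ℝ)) atTop (𝓝 0) := tendsto_const_nhds
      have : AEStronglyMeasurable (fun E : ℝ => smear φ (η n) E) μ := by
        have hc : Continuous (fun E : ℝ => smear φ (η n) E) := by
          unfold smear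
          refine continuous_of_dominated (bound := fun s => M * (1 + s ^ 2)⁻¹) ?_ ?_
            (integrable_inv_one_add_sq.const_mul M) ?_
          · intro E
            refine Continuous.aestronglyMeasurable ?_
            refine Continuous.mul (by fun_prop) ?_
            refine Continuous.inv₀ (by fun_prop) ?_
            intro s
            positivity
          · intro E
            refine Filter.Eventually.of_forall fun s => ?_
            rw [norm_mul, Real.norm_eq_abs, Real.norm_eq_abs,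
              abs_of_pos (by positivity : 0 < (1 + s ^ 2)⁻¹)]
            exact mul_le_mul_of_nonneg_right (hM' _) (by positivity)
          · refine Filter.Eventually.of_forall fun s => ?_
            exact (hcont.comp (by fun_prop)).mul continuous_const
        exact hc.aestronglyMeasurable
      exact Complex.continuous_ofReal.comp_aestronglyMeasurable this
    · intro n
      refine Filter.Eventually.of_forall fun E => ?_
      rw [norm_mul, Complex.norm_real, Real.norm_eq_abs]
      exact mul_le_mul_of_nonneg_left (smear_bdd φ hcont hM' _ _) (norm_nonneg _)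
    · refine Filter.Eventually.of_forall fun E => ?_
      refine Tendsto.const_mul _ ?_
      exact (Complex.continuous_ofReal.tendsto _).comp (smear_tendsto φ hcont hM' η hη E)
  have hzero : ∀ n, ∫ E : ℝ, f E * (smear φ (η n) E : ℂ) ∂μ = 0 := by
    intro n
    have hn : (0 : ℝ) ≤ n := Nat.cast_nonneg n
    refine key (η n) (by rw [hηdef]; positivity) ?_
    rw [hηdef]
    simp only
    rw [div_lt_one (by linarith)]
    linarith
  simp only [hzero] at hlim
  have h5 := tendsto_nhds_unique hlim tendsto_const_nhds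
  have h6 : (fun E : ℝ => f E * ((φ E * Real.pi : ℝ) : ℂ)) =
      fun E : ℝ => (Real.pi : ℂ) * (φ E • f E) := by
    funext E
    rw [Complex.real_smul]
    push_cast
    ring
  rw [h6, integral_const_mul] at h5
  exact (mul_eq_zero.1 h5).resolve_left (by exact_mod_cast Real.pi_ne_zero)

end Bden

end Pool.Agent.H4R2.LO
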