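import Pool.Agent.H4R2.LO.Bsym
import Pool.Agent.H4R2.LO.Bden

set_option autoImplicit false

open scoped BigOperators ENNReal InnerProductSpace
open MeasureTheory Filter Topology

namespace Pool.Agent.H4R2.LO
namespace BrepX

/-- the resolvent function -/
noncomputable def rf (z : ℂ) (E : ℝ) : ℂ := ((E : ℂ) - z)⁻¹

theorem rf_ne {z : ℂ} (hz : z.im ≠ 0) (E : ℝ) : (E : ℂ) - z ≠ 0 := by
  intro h
  have := congrArg Complex.im h
  simp at this
  exact hz this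

theorem rf_cont {z : ℂ} (hz : z.im ≠ 0) : Continuous (rf z) := by
  unfold rf
  exact Continuous.inv₀ (by fun_prop) fun E => rf_ne hz E

theorem rf_bound {z : ℂ} (hz : z.im ≠ 0) (E : ℝ) : ‖rf z E‖ ≤ |z.im|⁻¹ := by
  unfold rf
  rw [norm_inv]
  apply inv_anti₀ (abs_pos.mpr hz)
  have := Complex.abs_im_le_norm ((E : ℂ) - z)
  simpa using this

theorem rf_mem (μ : Measure ℝ) [IsFiniteMeasure μ] {z : ℂ} (hz : z.im ≠ 0) :
    MemLp (rf z) 2 μ :=
  MemLp.of_bound (rf_cont hz).aestronglyMeasurable _ (Eventually.of_forall (rf_bound hz))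

/-- existence of an isometry with given values on a total family -/
theorem ext_iso {ι E F : Type*} [NormedAddCommGroup E] [InnerProductSpace ℂ E] [CompleteSpace E]
    [NormedAddCommGroup F] [InnerProductSpace ℂ F] [CompleteSpace F] (f : ι → E) (g : ι → F)
    (h : ∀ i j, ⟪f i, f j⟫_ℂ = ⟪g i, g j⟫_ℂ)
    (hd : ∀ v : E, (∀ i, ⟪f i, v⟫_ℂ = 0) → v = 0) :
    ∃ U : E →L[ℂ] F, (∀ v, ‖U v‖ = ‖v‖) ∧ ∀ i, U (f i) = g i := by
  set a := Finsupp.linearCombination ℂ f with ha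
  set b := Finsupp.linearCombination ℂ g with hb
  have hab : ∀ c, ‖b c‖ = ‖a c‖ := by
    intro c
    have h1 : ⟪a c, a c⟫_ℂ = ⟪b c, b c⟫_ℂ := by
      rw [ha, hb, Finsupp.linearCombination_apply, Finsupp.linearCombination_apply]
      simp only [Finsupp.sum, sum_inner, inner_sum, inner_smul_left, inner_smul_right, h]
    have h2 : ‖a c‖ ^ 2 = ‖b c‖ ^ 2 := by
      have e1 := inner_self_eq_norm_sq (𝕜 := ℂ) (a c)
      have e2 := inner_self_eq_norm_sq (𝕜 := ℂ) (b c)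
      rw [← e1, ← e2, h1]
    have := (sq_eq_sq₀ (norm_nonneg _) (norm_nonneg _)).1 h2
    exact this.symm
  have hdr : DenseRange a := by
    have h1 : (LinearMap.range a).topologicalClosure = ⊤ := by
      rw [Submodule.topologicalClosure_eq_top_iff, Submodule.eq_bot_iff]
      intro v hv
      apply hd
      intro i
      rw [Submodule.mem_orthogonal] at hv
      apply hv
      exact ⟨Finsupp.single i 1, by simp [ha]⟩
    have h2 : Dense ((LinearMap.range a : Submodule ℂ E) : Set E) := by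
      rw [← Submodule.dense_iff_topologicalClosure_eq_top] at h1
      exact h1
    simpa [DenseRange, LinearMap.coe_range] using h2
  refine ⟨b.extendOfNorm a, ?_, ?_⟩
  · intro v
    refine isClosed_property hdr (p := fun v => ‖b.extendOfNorm a v‖ = ‖v‖)
      (isClosed_eq (by fun_prop) (by fun_prop)) ?_ v
    intro c
    rw [LinearMap.extendOfNorm_eq hdr ⟨1, fun x => by rw [one_mul, hab]⟩]
    exact hab c
  · intro i
    have h1 : a (Finsupp.single i 1) = f i := by simp [ha]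
    have h2 : b (Finsupp.single i 1) = g i := by simp [hb]
    rw [← h1, LinearMap.extendOfNorm_eq hdr ⟨1, fun x => by rw [one_mul, hab]⟩, h2]

theorem L2f_mem {d : ℕ} {u : Zd d → ℂ} (hu : L2f u) : Memℓp u 2 := by
  rw [memℓp_gen_iff (by norm_num)]
  simpa [L2f] using hu

/-- evaluation at a point -/
noncomputable def ev {d : ℕ} (x : Zd d) : lp (fun _ : Zd d => ℂ) 2 →L[ℂ] ℂ :=
  LinearMap.mkContinuous
    { toFun := fun v => v x
      map_add' := fun _ _ => rfl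
      map_smul' := fun _ _ => rfl } 1
    (fun v => by
      rw [one_mul]
      exact lp.norm_apply_le_norm (by norm_num) v x)

theorem ev_apply {d : ℕ} (x : Zd d) (v : lp (fun _ : Zd d => ℂ) 2) : ev x v = v x := rfl

theorem ev_norm {d : ℕ} (x : Zd d) : ‖ev (d := d) x‖ ≤ 1 :=
  LinearMap.mkContinuous_norm_le _ zero_le_one _

/-- Riesz representative with a measurable version -/
theorem riesz (μ : Measure ℝ) [IsFiniteMeasure μ] (l : Lp ℂ 2 μ →L[ℂ] ℂ) (hl : ‖l‖ ≤ 1) :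
    ∃ φ : ℝ → ℂ, Measurable φ ∧ MemLp φ 2 μ ∧ ∫ E, ‖φ E‖ ^ 2 ∂μ ≤ 1 ∧
      ∀ (h : ℝ → ℂ) (hh : MemLp h 2 μ), l hh.toLp = ∫ E, φ E * h E ∂μ := by
  set ψ : Lp ℂ 2 μ := (InnerProductSpace.toDual ℂ (Lp ℂ 2 μ)).symm l with hψ
  have hψn : ‖ψ‖ ≤ 1 := by
    rw [hψ, LinearIsometryEquiv.norm_map]
    exact hl
  set ψ0 : ℝ → ℂ := (Lp.aestronglyMeasurable ψ).mk with hψ0
  have hm : StronglyMeasurable ψ0 := (Lp.aestronglyMeasurable ψ).stronglyMeasurable_mk
  have hae : (ψ : ℝ → ℂ) =ᵐ[μ] ψ0 := (Lp.aestronglyMeasurable ψ).ae_eq_mk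
  have hmem : MemLp ψ0 2 μ := (memLp_congr_ae hae).1 (Lp.memLp ψ)
  refine ⟨fun E => (starRingEnd ℂ) (ψ0 E), ?_, ?_, ?_, ?_⟩
  · exact (Complex.continuous_conj.measurable).comp hm.measurable
  · exact hmem.star
  · have h1 : ⟪ψ, ψ⟫_ℂ = ((∫ E, ‖ψ0 E‖ ^ 2 ∂μ : ℝ) : ℂ) := by
      rw [L2.inner_def, ← integral_complex_ofReal]
      refine integral_congr_ae (hae.mono fun E hE => ?_)
      simp only [hE]
      rw [inner_self_eq_norm_sq_to_K]
      norm_cast
    have h2 : ⟪ψ, ψ⟫_ℂ = ((‖ψ‖ ^ 2 : ℝ) : ℂ) := by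
      rw [inner_self_eq_norm_sq_to_K]
      norm_cast
    have h3 : ∫ E, ‖ψ0 E‖ ^ 2 ∂μ = ‖ψ‖ ^ 2 := by
      have := h1.symm.trans h2
      exact_mod_cast this
    have h4 : ∫ E, ‖(starRingEnd ℂ) (ψ0 E)‖ ^ 2 ∂μ = ∫ E, ‖ψ0 E‖ ^ 2 ∂μ := by
      simp
    rw [h4, h3]
    nlinarith [norm_nonneg ψ]
  · intro h hh
    have h1 : l hh.toLp = ⟪ψ, hh.toLp⟫_ℂ := by
      rw [hψ, InnerProductSpace.toDual_symm_apply]
    rw [h1, L2.inner_def]
    refine integral_congr_ae ?_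
    filter_upwards [hae, hh.coeFn_toLp] with E h2 h3
    rw [h2, h3, RCLike.inner_apply]
    simp [mul_comm]

theorem pt_le {d : ℕ} (τ : ℝ) (W : Zd d → ℝ) (u g : Zd d → ℂ) (z : ℂ) (hz : z.im ≠ 0)
    (hu : L2f u) (hg : L2f g) (e1 : ∀ x, Hg τ W u x - z * u x = g x) (y : Zd d) :
    ‖u y‖ ≤ Real.sqrt (∑' x, ‖g x‖ ^ 2) * |z.im|⁻¹ := by
  have h1 := Bsym.norm_le τ W u g z hz hu hg e1
  have h2 : ‖u y‖ ^ 2 ≤ ∑' x, ‖u x‖ ^ 2 := hu.le_tsum y fun _ _ => by positivity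
  have h3 : 0 < z.im ^ 2 := by positivity
  have h4 : (‖u y‖ * |z.im|) ^ 2 ≤ ∑' x, ‖g x‖ ^ 2 := by
    rw [mul_pow, sq_abs]
    calc ‖u y‖ ^ 2 * z.im ^ 2 ≤ (∑' x, ‖u x‖ ^ 2) * z.im ^ 2 :=
          mul_le_mul_of_nonneg_right h2 h3.le
      _ ≤ _ := by rw [mul_comm]; exact h1
  have h5 : ‖u y‖ * |z.im| ≤ Real.sqrt (∑' x, ‖g x‖ ^ 2) := Real.le_sqrt_of_sq_le h4
  have h6 : 0 < |z.im| := abs_pos.mpr hz
  rw [← div_eq_mul_inv, le_div_iff₀ h6]
  exact h5

theorem tendsto_zero_of_bound {c : ℕ → ℂ} (C : ℝ) (h : ∀ n : ℕ, ‖c n‖ ≤ C * ((n : ℝ) + 1)⁻¹) :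
    Tendsto c atTop (𝓝 0) := by
  rw [tendsto_zero_iff_norm_tendsto_zero]
  refine squeeze_zero (fun n => norm_nonneg _) h ?_
  have h1 : Tendsto (fun n : ℕ => 1 / ((n : ℝ) + 1)) atTop (𝓝 0) :=
    tendsto_one_div_add_atTop_nhds_zero_nat
  have h2 := h1.const_mul C
  simpa using h2

theorem lim_one (μ : Measure ℝ) (φ : ℝ → ℂ) (hφ : Integrable φ μ)
    (z : ℕ → ℂ) (hz : ∀ n : ℕ, z n = ((n : ℂ) + 1) * Complex.I) :
    Tendsto (fun n => ∫ E, φ E * (-(z n) * rf (z n) E) ∂μ) atTop (𝓝 (∫ E, φ E ∂μ)) := by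
  have him : ∀ n : ℕ, (z n).im = n + 1 := by
    intro n
    rw [hz]
    simp
  have him0 : ∀ n : ℕ, (z n).im ≠ 0 := by
    intro n
    rw [him]
    positivity
  have hnorm : ∀ n : ℕ, ‖z n‖ = n + 1 := by
    intro n
    rw [hz, norm_mul, Complex.norm_I, mul_one]
    have : ((n : ℂ) + 1) = (((n : ℝ) + 1 : ℝ) : ℂ) := by push_cast; ring
    rw [this, Complex.norm_real, Real.norm_of_nonneg (by positivity)]
  have hb : ∀ (n : ℕ) (E : ℝ), ‖rf (z n) E‖ ≤ ((n : ℝ) + 1)⁻¹ := by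
    intro n E
    have h := rf_bound (him0 n) E
    rwa [him, abs_of_pos (by positivity : (0 : ℝ) < (n : ℝ) + 1)] at h
  refine tendsto_integral_of_dominated_convergence (fun E => ‖φ E‖) ?_ hφ.norm ?_ ?_
  · intro n
    exact hφ.aestronglyMeasurable.mul
      ((continuous_const.mul (rf_cont (him0 n))).aestronglyMeasurable)
  · intro n
    refine Eventually.of_forall fun E => ?_
    rw [norm_mul, norm_mul, norm_neg, hnorm]
    have h1 : ((n : ℝ) + 1) * ‖rf (z n) E‖ ≤ 1 := by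
      have := mul_le_mul_of_nonneg_left (hb n E) (by positivity : (0 : ℝ) ≤ (n : ℝ) + 1)
      rwa [mul_inv_cancel₀ (by positivity)] at this
    exact mul_le_of_le_one_right (norm_nonneg _) h1
  · refine Eventually.of_forall fun E => ?_
    have h1 : ∀ n, -(z n) * rf (z n) E = 1 - (E : ℂ) * rf (z n) E := by
      intro n
      have h2 : ((E : ℂ) - z n) * rf (z n) E = 1 := mul_inv_cancel₀ (rf_ne (him0 n) E)
      rw [sub_mul] at h2
      rw [← h2]
      ring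
    have h3 : Tendsto (fun n => (E : ℂ) * rf (z n) E) atTop (𝓝 0) := by
      refine tendsto_zero_of_bound ‖(E : ℂ)‖ fun n => ?_
      rw [norm_mul]
      exact mul_le_mul_of_nonneg_left (hb n E) (norm_nonneg _)
    have h4 : Tendsto (fun n => φ E * (-(z n) * rf (z n) E)) atTop (𝓝 (φ E * (1 - 0))) := by
      simp only [h1]
      exact (tendsto_const_nhds.sub h3).const_mul _
    simpa using h4

end BrepX

namespace Brep

open BrepX

/-- the spectral representation of the cyclic subspace of `g` -/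
theorem rep {d : ℕ} (τ : ℝ) (W : Zd d → ℝ) (g : Zd d → ℂ) (hg : L2f g) (μ : Measure ℝ)
    (hμ : IsSpec τ W g μ) : ∃ φ : Zd d → ℝ → ℂ,
      (∀ x, Measurable (φ x)) ∧ (∀ x, MemLp (φ x) 2 μ) ∧
      (∀ x, ∫ E, ‖φ x E‖ ^ 2 ∂μ ≤ 1) ∧
      (∀ z : ℂ, z.im ≠ 0 → ∀ u : Zd d → ℂ, L2f u → (∀ x, Hg τ W u x - z * u x = g x) →
        ∀ x, u x = ∫ E, φ x E * ((E : ℂ) - z)⁻¹ ∂μ) ∧
      (∀ x, g x = ∫ E, φ x E ∂μ) ∧
      (∀ A : Set ℝ, MeasurableSet A → (∀ x, ∀ E ∈ A, φ x E = 0) → μ A = 0) := by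
  have : IsFiniteMeasure μ := hμ.1
  choose u hu2 hue hub using fun z : {z : ℂ // z.im ≠ 0} => hμ.2 z.1 z.2
  let f : {z : ℂ // z.im ≠ 0} → Lp ℂ 2 μ := fun z => (rf_mem μ z.2).toLp
  let b : {z : ℂ // z.im ≠ 0} → lp (fun _ : Zd d => ℂ) 2 := fun z => ⟨u z, L2f_mem (hu2 z)⟩
  have hgram : ∀ z w, ⟪f z, f w⟫_ℂ = ⟪b z, b w⟫_ℂ := by
    intro z w
    rw [L2.inner_def, lp.inner_eq_tsum]
    have h1 := Bsym.inner τ W g hg μ hμ z w z.2 w.2 (u z) (u w) (hu2 z) (hu2 w) (hue z) (hue w)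
    have h2 : ∑' x, ⟪(b z : Zd d → ℂ) x, (b w : Zd d → ℂ) x⟫_ℂ =
        ∑' x, (starRingEnd ℂ) (u z x) * u w x := by
      refine tsum_congr fun x => ?_
      rw [RCLike.inner_apply, mul_comm]
    rw [h2, h1]
    refine integral_congr_ae ?_
    filter_upwards [(rf_mem μ z.2).coeFn_toLp, (rf_mem μ w.2).coeFn_toLp] with E h3 h4
    simp only [f]
    rw [h3, h4, RCLike.inner_apply, mul_comm]
    rfl
  have hdens : ∀ v : Lp ℂ 2 μ, (∀ z, ⟪f z, v⟫_ℂ = 0) → v = 0 := by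
    intro v hv
    rw [Lp.eq_zero_iff_ae_eq_zero]
    have hvi : Integrable (v : ℝ → ℂ) μ := (Lp.memLp v).integrable (by norm_num)
    refine Bden.dens μ v hvi fun z hz _ => ?_
    have hz' : ((starRingEnd ℂ) z).im ≠ 0 := by simpa using hz
    have h1 := hv ⟨(starRingEnd ℂ) z, hz'⟩
    rw [L2.inner_def] at h1
    rw [← h1]
    refine integral_congr_ae ?_
    filter_upwards [(rf_mem μ hz').coeFn_toLp] with E h3
    simp only [f]
    rw [h3, RCLike.inner_apply]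
    simp [rf]
  obtain ⟨U, hU, hUf⟩ := ext_iso f b hgram hdens
  have hUn : ‖U‖ ≤ 1 := by
    refine ContinuousLinearMap.opNorm_le_bound _ zero_le_one fun v => ?_
    rw [hU, one_mul]
  have hr := fun x : Zd d => riesz μ ((ev x).comp U) (by
    calc ‖(ev x).comp U‖ ≤ ‖ev x‖ * ‖U‖ := ContinuousLinearMap.opNorm_comp_le _ _
      _ ≤ 1 * 1 := mul_le_mul (ev_norm x) hUn (norm_nonneg _) zero_le_one
      _ = 1 := one_mul _)
  choose φ hφm hφ2 hφ1 hφr using hr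
  have h4 : ∀ z : ℂ, z.im ≠ 0 → ∀ w : Zd d → ℂ, L2f w → (∀ x, Hg τ W w x - z * w x = g x) →
        ∀ x, w x = ∫ E, φ x E * ((E : ℂ) - z)⁻¹ ∂μ := by
    intro z hz w hw he x
    have h1 : w = u ⟨z, hz⟩ := Bsym.uniq τ W w _ g z hz hw (hu2 ⟨z, hz⟩) he (hue ⟨z, hz⟩)
    have h2 := hφr x (rf z) (rf_mem μ hz)
    have h3 : ((ev x).comp U) ((rf_mem μ hz).toLp) = u ⟨z, hz⟩ x := by
      rw [ContinuousLinearMap.comp_apply]
      have : U ((rf_mem μ hz).toLp) = b ⟨z, hz⟩ := hUf ⟨z, hz⟩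
      rw [this, ev_apply]
    rw [h1, ← h3, h2]
    rfl
  refine ⟨φ, hφm, hφ2, hφ1, h4, ?_, ?_⟩
  · intro x
    have him : ∀ n : ℕ, (((n : ℂ) + 1) * Complex.I).im = n + 1 := by
      intro n
      simp
    let z : ℕ → {z : ℂ // z.im ≠ 0} := fun n => ⟨((n : ℂ) + 1) * Complex.I, by
      rw [him]
      positivity⟩
    have hzim : ∀ n : ℕ, (z n : ℂ).im = n + 1 := him
    have T1 := lim_one μ (φ x) ((hφ2 x).integrable (by norm_num)) (fun n => z n) (fun n => rfl)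
    set C := Real.sqrt (∑' x, ‖g x‖ ^ 2) with hC
    have hpt : ∀ (y : Zd d), Tendsto (fun n => u (z n) y) atTop (𝓝 0) := by
      intro y
      refine tendsto_zero_of_bound C fun n => ?_
      have := pt_le τ W (u (z n)) g (z n) (z n).2 (hu2 _) hg (hue _) y
      rwa [hzim, abs_of_pos (by positivity : (0 : ℝ) < (n : ℝ) + 1)] at this
    have T2 : Tendsto (fun n => Hg τ W (u (z n)) x) atTop (𝓝 0) := by
      unfold Hg
      have h1 : Tendsto (fun n => (τ : ℂ) * ∑ i : Fin d, (u (z n) (x + Pi.single i 1) +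
          u (z n) (x - Pi.single i 1)) + (W x : ℂ) * u (z n) x) atTop
          (𝓝 ((τ : ℂ) * ∑ i : Fin d, ((0 : ℂ) + 0) + (W x : ℂ) * 0)) := by
        refine Tendsto.add (Tendsto.const_mul _ (tendsto_finsetSum _ fun i _ => ?_))
          ((hpt x).const_mul _)
        exact (hpt _).add (hpt _)
      simpa using h1
    have T3 : ∀ n, ∫ E, φ x E * (-(z n : ℂ) * rf (z n) E) ∂μ = g x - Hg τ W (u (z n)) x := by
      intro n
      have h1 : ∫ E, φ x E * (-(z n : ℂ) * rf (z n) E) ∂μ =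
          -(z n : ℂ) * ∫ E, φ x E * rf (z n) E ∂μ := by
        rw [← integral_const_mul]
        refine integral_congr_ae (Eventually.of_forall fun E => ?_)
        simp only
        ring
      have h2 := h4 (z n) (z n).2 (u (z n)) (hu2 _) (hue _) x
      have h3 := hue (z n) x
      rw [h1]
      change -(z n : ℂ) * ∫ E, φ x E * ((E : ℂ) - (z n : ℂ))⁻¹ ∂μ = _
      rw [← h2, ← h3]
      ring
    have T4 : Tendsto (fun n => g x - Hg τ W (u (z n)) x) atTop (𝓝 (g x - 0)) :=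
      tendsto_const_nhds.sub T2
    simp only [T3] at T1
    rw [sub_zero] at T4
    exact tendsto_nhds_unique T4 T1
  · intro A hA hφA
    have hm : MemLp (A.indicator fun _ : ℝ => (1 : ℂ)) 2 μ :=
      (memLp_const (1 : ℂ)).indicator hA
    have h1 : U hm.toLp = 0 := by
      refine lp.ext (funext fun x => ?_)
      have h2 := hφr x _ hm
      have h3 : ∫ E, φ x E * A.indicator (fun _ : ℝ => (1 : ℂ)) E ∂μ = 0 := by
        have : ∀ E, φ x E * A.indicator (fun _ : ℝ => (1 : ℂ)) E = 0 := by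
          intro E
          by_cases hE : E ∈ A
          · rw [hφA x E hE, zero_mul]
          · rw [Set.indicator_of_notMem hE, mul_zero]
        simp [this]
      rw [h3] at h2
      exact h2
    have h2 : hm.toLp = 0 := by
      rw [← norm_eq_zero, ← hU, h1, norm_zero]
    have h3 : (A.indicator fun _ : ℝ => (1 : ℂ)) =ᵐ[μ] 0 := by
      have h5 := hm.coeFn_toLp
      rw [h2] at h5
      exact h5.symm.trans (Lp.coeFn_zero _ _ _)
    have h6 := ae_iff.1 (show ∀ᵐ E ∂μ, A.indicator (fun _ : ℝ => (1 : ℂ)) E = 0 from h3)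
    refine measure_mono_null (fun E hE => ?_) h6
    simp [hE]

end Brep
end Pool.Agent.H4R2.LO
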