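import Pool.Agent.H4R2.LO.Defs

/-!
# Box formula for generalised eigenfunctions (task BX, helper61)
-/

set_option autoImplicit false

open scoped BigOperators ENNReal
open MeasureTheory

namespace Pool.Agent.H4R2.LO.Gef

namespace BX

theorem mem_bx {d : ℕ} (x y : Zd d) (l : ℕ) : y ∈ bx x l ↔ dd x y ≤ l := by
  unfold bx dd
  rw [Fintype.mem_piFinset, Finset.sup_le_iff]
  constructor
  · intro h i _
    have := h i
    rw [Finset.mem_Icc] at this
    omega
  · intro h i
    have := h i (Finset.mem_univ i)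
    rw [Finset.mem_Icc]
    omega

theorem card_bx {d : ℕ} (x : Zd d) (l : ℕ) : (bx x l).card = (2 * l + 1) ^ d := by
  unfold bx
  rw [Fintype.card_piFinset]
  have : ∀ i, (Finset.Icc (x i - (l : ℤ)) (x i + l)).card = 2 * l + 1 := by
    intro i
    rw [Int.card_Icc]
    omega
  simp [this]

theorem single_ne {d : ℕ} {i j : Fin d} (h : (Pi.single i (1 : ℤ) : Zd d) = Pi.single j 1) :
    i = j := by
  by_contra hij
  have := congrFun h i
  rw [Pi.single_eq_same, Pi.single_eq_of_ne hij] at this
  norm_num at this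

theorem single_ne_neg {d : ℕ} {i j : Fin d} :
    (Pi.single i (1 : ℤ) : Zd d) ≠ -Pi.single j 1 := by
  intro h
  have h1 := congrFun h i
  rw [Pi.single_eq_same, Pi.neg_apply] at h1
  by_cases hij : i = j
  · subst hij
    rw [Pi.single_eq_same] at h1
    norm_num at h1
  · rw [Pi.single_eq_of_ne hij] at h1
    norm_num at h1

theorem adj_eq {d : ℕ} (x y : Zd d) :
    adj x y = -∑ j : Fin d, ((if y = x + Pi.single j 1 then (1 : ℝ) else 0) +
      (if y = x - Pi.single j 1 then 1 else 0)) := by
  classical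
  unfold adj
  split_ifs with h
  · obtain ⟨i, hi⟩ := h
    rw [Finset.sum_eq_single i]
    · rcases hi with rfl | rfl
      · rw [if_pos rfl, if_neg]
        · norm_num
        · intro h
          have : (Pi.single i (1 : ℤ) : Zd d) = -Pi.single i 1 := by
            have h2 : x + Pi.single i 1 = x + -Pi.single i 1 := by rw [h]; ring
            exact add_left_cancel h2
          exact single_ne_neg this
      · rw [if_neg, if_pos rfl]
        · norm_num
        · intro h
          have : (Pi.single i (1 : ℤ) : Zd d) = -Pi.single i 1 := by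
            have h2 : x + Pi.single i 1 = x + -Pi.single i 1 := by rw [← h]; ring
            exact add_left_cancel h2
          exact single_ne_neg this
    · intro j _ hji
      rcases hi with rfl | rfl
      · rw [if_neg, if_neg]
        · norm_num
        · intro h
          have : (Pi.single i (1 : ℤ) : Zd d) = -Pi.single j 1 := by
            have h2 : x + Pi.single i 1 = x + -Pi.single j 1 := by rw [h]; ring
            exact add_left_cancel h2
          exact single_ne_neg this
        · intro h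
          exact hji (single_ne (add_left_cancel h)).symm
      · rw [if_neg, if_neg]
        · norm_num
        · intro h
          have : (Pi.single i (1 : ℤ) : Zd d) = Pi.single j 1 := by
            have h2 : x + -Pi.single i 1 = x + -Pi.single j 1 := by
              rw [← sub_eq_add_neg, h]; ring
            exact neg_injective (add_left_cancel h2)
          exact hji (single_ne this).symm
        · intro h
          have : (Pi.single j (1 : ℤ) : Zd d) = -Pi.single i 1 := by
            have h2 : x + Pi.single j 1 = x + -Pi.single i 1 := by rw [← h]; ring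
            exact add_left_cancel h2
          exact single_ne_neg this
    · intro h
      exact absurd (Finset.mem_univ i) h
  · rw [eq_comm, neg_eq_zero]
    apply Finset.sum_eq_zero
    intro j _
    rw [if_neg, if_neg, add_zero]
    · intro h'
      exact h ⟨j, Or.inr h'⟩
    · intro h'
      exact h ⟨j, Or.inl h'⟩

/-- the boundary term -/
noncomputable def bt {d : ℕ} (Λ : Finset (Zd d)) (ψ : Zd d → ℂ) (i : Zd d) : ℂ :=
  ∑ j : Fin d, ((if i + Pi.single j 1 ∈ Λ then 0 else ψ (i + Pi.single j 1)) +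
    (if i - Pi.single j 1 ∈ Λ then 0 else ψ (i - Pi.single j 1)))

theorem sum_ite_mem' {d : ℕ} (Λ : Finset (Zd d)) (ψ : Zd d → ℂ) (z : Zd d) :
    ∑ k : Λ, (if k.1 = z then (1 : ℂ) else 0) * ψ k.1 = if z ∈ Λ then ψ z else 0 := by
  rw [Finset.sum_coe_sort Λ (fun k => (if k = z then (1 : ℂ) else 0) * ψ k)]
  simp only [ite_mul, one_mul, zero_mul, Finset.sum_ite_eq']

theorem row {d : ℕ} (lam : ℝ) (ω : Zd d → ℝ) (E : ℝ) (ψ : Zd d → ℂ)
    (hψ : IsGen (-1) (fun x => lam * ω x) E ψ) (Λ : Finset (Zd d)) (i : Λ) :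
    ∑ k : Λ, ((Hm (AL Λ) lam (rs Λ ω) E i k : ℝ) : ℂ) * ψ k.1 = bt Λ ψ i.1 := by
  have h1 := hψ i.1
  unfold Hg at h1
  have h2 : ∀ k : Λ, ((Hm (AL Λ) lam (rs Λ ω) E i k : ℝ) : ℂ) * ψ k.1 =
      -∑ j : Fin d, ((if k.1 = i.1 + Pi.single j 1 then (1 : ℂ) else 0) * ψ k.1 +
        (if k.1 = i.1 - Pi.single j 1 then (1 : ℂ) else 0) * ψ k.1) +
      (if k = i then ((lam * ω i.1 - E : ℝ) : ℂ) * ψ i.1 else 0) := by
    intro k
    have h0 : Hm (AL Λ) lam (rs Λ ω) E i k =
        adj i.1 k.1 + (if i = k then lam * ω i.1 - E else 0) := by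
      unfold Hm
      rw [Matrix.add_apply, Matrix.diagonal_apply]
      rfl
    rw [h0, adj_eq]
    push_cast
    rw [add_mul, neg_mul, Finset.sum_mul]
    congr 1
    · congr 1
      apply Finset.sum_congr rfl
      intro j _
      rw [add_mul]
      split_ifs <;> simp
    · by_cases hk : i = k
      · subst hk
        simp [rs]
      · rw [if_neg hk, if_neg (fun h => hk h.symm)]
        simp
  rw [Finset.sum_congr rfl fun k _ => h2 k, Finset.sum_add_distrib, Finset.sum_neg_distrib,
    Finset.sum_comm]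
  simp only [Finset.sum_add_distrib]
  have h3 : ∑ k : Λ, (if k = i then ((lam * ω i.1 - E : ℝ) : ℂ) * ψ i.1 else 0) =
      ((lam * ω i.1 - E : ℝ) : ℂ) * ψ i.1 := by
    rw [Finset.sum_ite_eq' Finset.univ i]
    simp
  rw [h3]
  simp only [sum_ite_mem']
  unfold bt
  rw [Finset.sum_add_distrib] at h1
  rw [Finset.sum_add_distrib]
  have h4 : ∀ z : Fin d → Zd d, ∑ j, (if z j ∈ Λ then 0 else ψ (z j)) =
      ∑ j, ψ (z j) - ∑ j, (if z j ∈ Λ then ψ (z j) else 0) := by
    intro z
    rw [← Finset.sum_sub_distrib]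
    apply Finset.sum_congr rfl
    intro j _
    split_ifs <;> simp
  have h5 := h4 fun j => i.1 + Pi.single j 1
  have h6 := h4 fun j => i.1 - Pi.single j 1
  erw [h5, h6]
  push_cast at h1 ⊢
  linear_combination h1

theorem dd_nb {d : ℕ} (x i : Zd d) (j : Fin d) :
    dd x (i + Pi.single j 1) ≤ dd x i + 1 ∧ dd x (i - Pi.single j 1) ≤ dd x i + 1 := by
  unfold dd
  constructor <;>
  · rw [Finset.sup_le_iff]
    intro k _
    have h1 : (x k - i k).natAbs ≤ Finset.univ.sup fun i_1 => (x i_1 - i i_1).natAbs :=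
      Finset.le_sup (f := fun i_1 => (x i_1 - i i_1).natAbs) (Finset.mem_univ k)
    have h2 : (Pi.single j (1 : ℤ) : Zd d) k = 1 ∨ (Pi.single j (1 : ℤ) : Zd d) k = 0 := by
      by_cases hk : k = j
      · left
        subst hk
        exact Pi.single_eq_same _ _
      · right
        exact Pi.single_eq_of_ne hk _
    simp only [Pi.add_apply, Pi.sub_apply]
    rcases h2 with h2 | h2 <;> rw [h2] <;> omega

end BX

open BX

/-- the restriction of a generalised eigenfunction to a box -/
theorem box_formula {d : ℕ} (lam : ℝ) (ω : Zd d → ℝ) (E : ℝ) (ψ : Zd d → ℂ)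
    (hψ : IsGen (-1) (fun x => lam * ω x) E ψ) (x : Zd d) (l : ℕ) (hx : x ∈ bx x l)
    (hdet : IsUnit (Hm (AL (bx x l)) lam (rs (bx x l) ω) E).det) (θ M : ℝ) (hM : 0 ≤ M)
    (hG : ∀ u : bx x l, dd x u.1 = l → |Gr (AL (bx x l)) lam (rs (bx x l) ω) E ⟨x, hx⟩ u| ≤
      Real.exp (-θ)) (hψM : ∀ y, dd x y ≤ l + 1 → ‖ψ y‖ ≤ M) :
    ‖ψ x‖ ≤ (2 * l + 1) ^ d * (2 * d) * Real.exp (-θ) * M := by
  have hrow := row lam ω E ψ hψ (bx x l)
  set H := Hm (AL (bx x l)) lam (rs (bx x l) ω) E with hH
  have hGH : Gr (AL (bx x l)) lam (rs (bx x l) ω) E * H = 1 := by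
    unfold Gr
    rw [← hH]
    exact Matrix.nonsing_inv_mul H hdet
  set G := Gr (AL (bx x l)) lam (rs (bx x l) ω) E with hGdef
  have hψx : ψ x = ∑ i : bx x l, ((G ⟨x, hx⟩ i : ℝ) : ℂ) * bt (bx x l) ψ i.1 := by
    have h1 : ∑ i : bx x l, ((G ⟨x, hx⟩ i : ℝ) : ℂ) * bt (bx x l) ψ i.1 =
        ∑ k : bx x l, (((G * H) ⟨x, hx⟩ k : ℝ) : ℂ) * ψ k.1 := by
      rw [Finset.sum_congr rfl fun i _ => by rw [← hrow i]]
      simp only [Finset.mul_sum]
      rw [Finset.sum_comm]
      apply Finset.sum_congr rfl
      intro k _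
      rw [Matrix.mul_apply]
      push_cast
      rw [Finset.sum_mul]
      apply Finset.sum_congr rfl
      intro i _
      ring
    rw [h1, hGH]
    rw [Finset.sum_eq_single ⟨x, hx⟩]
    · simp
    · intro k _ hk
      rw [Matrix.one_apply_ne (Ne.symm hk)]
      simp
    · intro h
      exact absurd (Finset.mem_univ _) h
  rw [hψx]
  have hbd : ∀ i : bx x l, ‖((G ⟨x, hx⟩ i : ℝ) : ℂ) * bt (bx x l) ψ i.1‖ ≤
      Real.exp (-θ) * (2 * d * M) := by
    intro i
    have hi : dd x i.1 ≤ l := (mem_bx x i.1 l).1 i.2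
    rcases Nat.lt_or_ge (dd x i.1) l with hlt | hge
    · have h0 : bt (bx x l) ψ i.1 = 0 := by
        unfold bt
        apply Finset.sum_eq_zero
        intro j _
        have h1 := dd_nb x i.1 j
        rw [if_pos ((mem_bx x _ l).2 (by omega)), if_pos ((mem_bx x _ l).2 (by omega)), add_zero]
      rw [h0, mul_zero, norm_zero]
      positivity
    · have heq : dd x i.1 = l := le_antisymm hi hge
      rw [norm_mul]
      have h1 : ‖((G ⟨x, hx⟩ i : ℝ) : ℂ)‖ ≤ Real.exp (-θ) := by
        rw [Complex.norm_real, Real.norm_eq_abs]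
        exact hG i heq
      have h2 : ‖bt (bx x l) ψ i.1‖ ≤ 2 * d * M := by
        unfold bt
        refine (norm_sum_le _ _).trans ?_
        calc ∑ j : Fin d, ‖(if i.1 + Pi.single j 1 ∈ bx x l then 0 else ψ (i.1 + Pi.single j 1)) +
              (if i.1 - Pi.single j 1 ∈ bx x l then 0 else ψ (i.1 - Pi.single j 1))‖
            ≤ ∑ _j : Fin d, 2 * M := by
              apply Finset.sum_le_sum
              intro j _
              have h3 := dd_nb x i.1 j
              have h4 : ∀ z : Zd d, dd x z ≤ l + 1 → ‖(if z ∈ bx x l then 0 else ψ z)‖ ≤ M := by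
                intro z hz
                split_ifs
                · rw [norm_zero]; exact hM
                · exact hψM z hz
              refine (norm_add_le _ _).trans ?_
              have h5 := h4 (i.1 + Pi.single j 1) (by omega)
              have h6 := h4 (i.1 - Pi.single j 1) (by omega)
              linarith
          _ = 2 * d * M := by
              rw [Finset.sum_const, Finset.card_univ, Fintype.card_fin, nsmul_eq_mul]
              ring
      exact mul_le_mul h1 h2 (norm_nonneg _) (Real.exp_pos _).le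
  refine (norm_sum_le _ _).trans ((Finset.sum_le_sum fun i _ => hbd i).trans ?_)
  rw [Finset.sum_const, Finset.card_univ, Fintype.card_coe, card_bx, nsmul_eq_mul]
  push_cast
  apply le_of_eq
  ring

end Pool.Agent.H4R2.LO.Gef
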