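import Pool.Agent.H4R2.LO.Defs

/-!
Combes-Thomas estimate below the spectrum.
-/

set_option autoImplicit false

open scoped BigOperators ENNReal
open MeasureTheory

namespace Pool.Agent.H4R2.LO.Ct

variable {ι : Type*} [Fintype ι] [DecidableEq ι]

theorem Ct_cosh {t a : ℝ} (ha : a ≤ 1 / 2) (ht : |t| ≤ a) : Real.cosh t - 1 ≤ a ^ 2 := by
  have h1 := Real.cosh_le_exp_half_sq t
  have h2 : t ^ 2 ≤ a ^ 2 := by
    rw [← sq_abs t]
    exact pow_le_pow_left₀ (abs_nonneg _) ht 2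
  have ha0 : 0 ≤ a := (abs_nonneg _).trans ht
  have ha2 : a ^ 2 ≤ 1 / 4 := by nlinarith
  have h3 : Real.exp (t ^ 2 / 2) ≤ Real.exp (a ^ 2 / 2) := Real.exp_le_exp.2 (by linarith)
  have h5 : Real.exp (a ^ 2 / 2) ≤ 1 / (1 - a ^ 2 / 2) := by
    have h6 : 1 - a ^ 2 / 2 ≤ Real.exp (-(a ^ 2 / 2)) := Real.one_sub_le_exp_neg _
    rw [le_div_iff₀ (by linarith)]
    calc Real.exp (a ^ 2 / 2) * (1 - a ^ 2 / 2)
        ≤ Real.exp (a ^ 2 / 2) * Real.exp (-(a ^ 2 / 2)) :=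
          mul_le_mul_of_nonneg_left h6 (Real.exp_pos _).le
      _ = 1 := by rw [← Real.exp_add, add_neg_cancel, Real.exp_zero]
  have h7 : 1 / (1 - a ^ 2 / 2) ≤ 1 + a ^ 2 := by
    rw [div_le_iff₀ (by linarith)]
    nlinarith [sq_nonneg a]
  linarith

theorem Ct_mulVec (A : Matrix ι ι ℝ) (lam : ℝ) (V : ι → ℝ) (E : ℝ) (g : ι → ℝ) (i : ι) :
    (Hm A lam V E).mulVec g i = A.mulVec g i + (lam * V i - E) * g i := by
  unfold Hm
  rw [Matrix.add_mulVec, Pi.add_apply, Matrix.mulVec_diagonal]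

omit [DecidableEq ι] in
/-- Schur bound -/
theorem Ct_schur (A : Matrix ι ι ℝ) (hA : A.IsSymm) (Dg : ℝ) (h1 : ∀ i, ∑ j, |A i j| ≤ Dg)
    (f : ι → ℝ) : ∑ i, ∑ j, |A i j| * (|f i| * |f j|) ≤ Dg * ∑ i, f i ^ 2 := by
  have h2 : ∑ i, ∑ j, |A i j| * (|f i| * |f j|) ≤
      ∑ i, ∑ j, |A i j| * (f i ^ 2 / 2 + f j ^ 2 / 2) := by
    apply Finset.sum_le_sum
    intro i _
    apply Finset.sum_le_sum
    intro j _
    apply mul_le_mul_of_nonneg_left _ (abs_nonneg _)
    nlinarith [sq_nonneg (|f i| - |f j|), sq_abs (f i), sq_abs (f j)]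
  have h3 : ∑ i, ∑ j, |A i j| * (f i ^ 2 / 2 + f j ^ 2 / 2) =
      ∑ i, (∑ j, |A i j|) * f i ^ 2 := by
    have e1 : ∑ i, ∑ j, |A i j| * (f i ^ 2 / 2 + f j ^ 2 / 2) =
        ∑ i, ∑ j, |A i j| * (f i ^ 2 / 2) + ∑ i, ∑ j, |A i j| * (f j ^ 2 / 2) := by
      rw [← Finset.sum_add_distrib]
      refine Finset.sum_congr rfl fun i _ => ?_
      rw [← Finset.sum_add_distrib]
      exact Finset.sum_congr rfl fun j _ => by ring
    have e2 : ∑ i, ∑ j, |A i j| * (f j ^ 2 / 2) = ∑ i, ∑ j, |A i j| * (f i ^ 2 / 2) := by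
      rw [Finset.sum_comm]
      refine Finset.sum_congr rfl fun i _ => Finset.sum_congr rfl fun j _ => ?_
      rw [hA.apply]
    rw [e1, e2, ← Finset.sum_add_distrib]
    refine Finset.sum_congr rfl fun i _ => ?_
    rw [Finset.sum_mul, ← Finset.sum_add_distrib]
    exact Finset.sum_congr rfl fun j _ => by ring
  rw [h3] at h2
  refine h2.trans ?_
  rw [Finset.mul_sum]
  exact Finset.sum_le_sum fun i _ => mul_le_mul_of_nonneg_right (h1 i) (sq_nonneg _)

omit [DecidableEq ι] in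
/-- the commutator term -/
theorem Ct_comm (A : Matrix ι ι ℝ) (hA : A.IsSymm) (Dg : ℝ) (h1 : ∀ i, ∑ j, |A i j| ≤ Dg)
    (a : ℝ) (ha : a ≤ 1 / 2) (φ : ι → ℝ) (hφ : ∀ i j, A i j ≠ 0 → |φ i - φ j| ≤ a)
    (f : ι → ℝ) :
    -(a ^ 2 * (Dg * ∑ i, f i ^ 2)) ≤
      ∑ i, ∑ j, A i j * (Real.exp (φ i - φ j) - 1) * (f i * f j) := by
  have h2 : ∑ i, ∑ j, A i j * (Real.exp (φ i - φ j) - 1) * (f i * f j) =
      ∑ i, ∑ j, A i j * (Real.cosh (φ i - φ j) - 1) * (f i * f j) := by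
    have e1 : ∑ i, ∑ j, A i j * (Real.exp (φ i - φ j) - 1) * (f i * f j) =
        ∑ i, ∑ j, A i j * (Real.exp (-(φ i - φ j)) - 1) * (f i * f j) := by
      rw [Finset.sum_comm]
      refine Finset.sum_congr rfl fun i _ => Finset.sum_congr rfl fun j _ => ?_
      rw [hA.apply, neg_sub]
      ring
    have e2 : ∑ i, ∑ j, A i j * (Real.cosh (φ i - φ j) - 1) * (f i * f j) =
        (∑ i, ∑ j, A i j * (Real.exp (φ i - φ j) - 1) * (f i * f j) +
        ∑ i, ∑ j, A i j * (Real.exp (-(φ i - φ j)) - 1) * (f i * f j)) / 2 := by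
      rw [← Finset.sum_add_distrib, Finset.sum_div]
      refine Finset.sum_congr rfl fun i _ => ?_
      rw [← Finset.sum_add_distrib, Finset.sum_div]
      refine Finset.sum_congr rfl fun j _ => ?_
      rw [Real.cosh_eq]
      ring
    rw [e2, ← e1]
    ring
  rw [h2]
  have h3 : ∑ i, ∑ j, -(a ^ 2 * (|A i j| * (|f i| * |f j|))) ≤
      ∑ i, ∑ j, A i j * (Real.cosh (φ i - φ j) - 1) * (f i * f j) := by
    apply Finset.sum_le_sum
    intro i _
    apply Finset.sum_le_sum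
    intro j _
    by_cases hij : A i j = 0
    · rw [hij]; simp
    · have h4 := Ct_cosh ha (hφ i j hij)
      have h5 : 0 ≤ Real.cosh (φ i - φ j) - 1 := by
        have := Real.one_le_cosh (φ i - φ j)
        linarith
      have h6 : |A i j * (Real.cosh (φ i - φ j) - 1) * (f i * f j)| ≤
          a ^ 2 * (|A i j| * (|f i| * |f j|)) := by
        rw [abs_mul, abs_mul, abs_mul, abs_of_nonneg h5]
        calc |A i j| * (Real.cosh (φ i - φ j) - 1) * (|f i| * |f j|)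
            = (Real.cosh (φ i - φ j) - 1) * (|A i j| * (|f i| * |f j|)) := by ring
          _ ≤ _ := mul_le_mul_of_nonneg_right h4 (by positivity)
      have := neg_abs_le (A i j * (Real.cosh (φ i - φ j) - 1) * (f i * f j))
      linarith
  refine le_trans ?_ h3
  have h4 := Ct_schur A hA Dg h1 f
  have h5 : ∑ i, ∑ j, -(a ^ 2 * (|A i j| * (|f i| * |f j|))) =
      -(a ^ 2 * ∑ i, ∑ j, |A i j| * (|f i| * |f j|)) := by
    simp only [Finset.sum_neg_distrib, Finset.mul_sum]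
  rw [h5]
  have := mul_le_mul_of_nonneg_left h4 (sq_nonneg a)
  linarith

/-- Combes-Thomas below the spectrum -/
theorem ct (A : Matrix ι ι ℝ) (hA : A.IsSymm) (Dg : ℝ) (hDg : 1 ≤ Dg)
    (h1 : ∀ i, ∑ j, |A i j| ≤ Dg) (δ : ι → ι → ℕ) (hδ0 : ∀ i, δ i i = 0)
    (hδs : ∀ i j, δ i j = δ j i) (hδt : ∀ i j k, δ i k ≤ δ i j + δ j k)
    (hδ1 : ∀ i j, A i j ≠ 0 → δ i j ≤ 1) (Ω : Finset ι) (lam : ℝ) (V : ι → ℝ) (E κ : ℝ)
    (hκ : 0 < κ) (hκ' : κ ≤ 1) (hf : FB A Ω lam V (E + κ)) (x u : ι) (hx : x ∈ Ω) (hu : u ∈ Ω) :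
    |Gr (cut A Ω) lam V E x u| ≤ 2 / κ * Real.exp (-(Real.sqrt (κ / (4 * Dg)) * δ x u)) := by
  by_cases hdet : IsUnit (Hm (cut A Ω) lam V E).det
  swap
  · unfold Gr
    rw [Matrix.nonsing_inv_apply_not_isUnit _ hdet, Matrix.zero_apply, abs_zero]
    positivity
  obtain ⟨M, hM⟩ : ∃ M, M = Hm (cut A Ω) lam V E := ⟨_, rfl⟩
  have hinv : M * M⁻¹ = 1 := Matrix.mul_nonsing_inv M (by rw [hM]; exact hdet)
  obtain ⟨g, hg⟩ : ∃ g : ι → ℝ, g = fun i => M⁻¹ i u := ⟨_, rfl⟩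
  have hMg : ∀ i, M.mulVec g i = if i = u then 1 else 0 := by
    intro i
    have h2 : (M * M⁻¹) i u = M.mulVec g i := by
      rw [hg]; rfl
    rw [← h2, hinv, Matrix.one_apply]
  have hcut0 : ∀ i j, i ∉ Ω → cut A Ω i j = 0 := fun i j hi => if_neg fun h => hi h.1
  have hrow : ∀ i, i ∉ Ω → ∀ w : ι → ℝ, M.mulVec w i = (lam * V i - E) * w i := by
    intro i hi w
    rw [hM, Ct_mulVec]
    have : (cut A Ω).mulVec w i = 0 := by
      unfold Matrix.mulVec dotProduct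
      exact Finset.sum_eq_zero fun j _ => by
        show cut A Ω i j * w j = 0
        rw [hcut0 i j hi, zero_mul]
    rw [this, zero_add]
  have hg0 : ∀ i, i ∉ Ω → g i = 0 := by
    intro i hi
    have hne : lam * V i - E ≠ 0 := by
      intro h0
      have h2 : (M * M⁻¹) i i = M.mulVec (fun k => M⁻¹ k i) i := rfl
      rw [hinv, Matrix.one_apply_eq, hrow i hi, h0, zero_mul] at h2
      exact one_ne_zero h2
    have h3 := hMg i
    have hiu : i ≠ u := fun h => hi (by rw [h]; exact hu)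
    rw [hrow i hi, if_neg hiu] at h3
    exact (mul_eq_zero.1 h3).resolve_left hne
  -- the weight
  obtain ⟨a, ha⟩ : ∃ a : ℝ, a = Real.sqrt (κ / (4 * Dg)) := ⟨_, rfl⟩
  have hDg0 : 0 < Dg := by linarith
  have ha0 : 0 ≤ a := by rw [ha]; exact Real.sqrt_nonneg _
  have ha2 : a ^ 2 * Dg = κ / 4 := by
    rw [ha, Real.sq_sqrt (by positivity)]
    field_simp
  have hahalf : a ≤ 1 / 2 := by
    have h2 : a ^ 2 ≤ (1 / 2) ^ 2 := by
      rw [ha, Real.sq_sqrt (by positivity), div_le_iff₀ (by positivity)]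
      nlinarith
    exact (pow_le_pow_iff_left₀ ha0 (by norm_num) two_ne_zero).1 h2
  obtain ⟨φ, hφd⟩ : ∃ φ : ι → ℝ, φ = fun i => a * (δ i u : ℝ) := ⟨_, rfl⟩
  have hφ : ∀ i j, (cut A Ω) i j ≠ 0 → |φ i - φ j| ≤ a := by
    intro i j hij
    have hA' : A i j ≠ 0 := by
      intro h0
      apply hij
      unfold cut
      rw [h0]
      simp
    have h2 := hδ1 i j hA'
    have h3 := hδt i j u
    have h4 := hδt j i u
    rw [hδs j i] at h4
    have h5 : (δ i u : ℝ) ≤ (δ j u : ℝ) + 1 := by exact_mod_cast (by omega : δ i u ≤ δ j u + 1)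
    have h6 : (δ j u : ℝ) ≤ (δ i u : ℝ) + 1 := by exact_mod_cast (by omega : δ j u ≤ δ i u + 1)
    rw [hφd, abs_le]
    constructor <;> nlinarith
  obtain ⟨f, hfd⟩ : ∃ f : ι → ℝ, f = fun i => Real.exp (φ i) * g i := ⟨_, rfl⟩
  have hf0 : ∀ i, i ∉ Ω → f i = 0 := fun i hi => by rw [hfd]; simp [hg0 i hi]
  have hφu : φ u = 0 := by rw [hφd]; simp [hδ0 u]
  have hsymm : (cut A Ω).IsSymm := by
    apply Matrix.IsSymm.ext
    intro i j
    unfold cut
    rw [hA.apply]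
    exact if_congr (and_comm) rfl rfl
  have hsum : ∀ i, ∑ j, |cut A Ω i j| ≤ Dg := by
    intro i
    refine (Finset.sum_le_sum fun j _ => ?_).trans (h1 i)
    unfold cut
    split_ifs
    · exact le_rfl
    · rw [abs_zero]; exact abs_nonneg _
  -- the identity
  have hid : f u = (∑ i, f i * ((cut A Ω).mulVec f i + lam * V i * f i)) - E * ∑ i, f i ^ 2 +
      ∑ i, ∑ j, cut A Ω i j * (Real.exp (φ i - φ j) - 1) * (f i * f j) := by
    have e1 : ∑ i, f i * (Real.exp (φ i) * M.mulVec g i) = f u := by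
      rw [Finset.sum_eq_single u]
      · rw [hMg, if_pos rfl, hφu, Real.exp_zero]; ring
      · intro i _ hi
        rw [hMg, if_neg hi]; ring
      · intro h; exact absurd (Finset.mem_univ u) h
    rw [← e1, Finset.mul_sum, ← Finset.sum_sub_distrib, ← Finset.sum_add_distrib]
    refine Finset.sum_congr rfl fun i _ => ?_
    rw [hM, Ct_mulVec]
    have e2 : Real.exp (φ i) * (cut A Ω).mulVec g i =
        (cut A Ω).mulVec f i + ∑ j, cut A Ω i j * (Real.exp (φ i - φ j) - 1) * f j := by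
      unfold Matrix.mulVec dotProduct
      rw [Finset.mul_sum, ← Finset.sum_add_distrib]
      refine Finset.sum_congr rfl fun j _ => ?_
      have e3 : Real.exp (φ i) * g j = Real.exp (φ i - φ j) * f j := by
        rw [hfd]
        show _ = Real.exp (φ i - φ j) * (Real.exp (φ j) * g j)
        rw [← mul_assoc, ← Real.exp_add, sub_add_cancel]
      calc Real.exp (φ i) * (cut A Ω i j * g j) = cut A Ω i j * (Real.exp (φ i) * g j) := by ring
        _ = cut A Ω i j * (Real.exp (φ i - φ j) * f j) := by rw [e3]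
        _ = _ := by ring
    have e4 : Real.exp (φ i) * g i = f i := by rw [hfd]
    have e5 : ∑ j, cut A Ω i j * (Real.exp (φ i - φ j) - 1) * (f i * f j) =
        f i * ∑ j, cut A Ω i j * (Real.exp (φ i - φ j) - 1) * f j := by
      rw [Finset.mul_sum]
      exact Finset.sum_congr rfl fun j _ => by ring
    rw [e5]
    calc f i * (Real.exp (φ i) * ((cut A Ω).mulVec g i + (lam * V i - E) * g i))
        = f i * (Real.exp (φ i) * (cut A Ω).mulVec g i) +
          f i * (lam * V i - E) * (Real.exp (φ i) * g i) := by ring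
      _ = _ := by rw [e2, e4]; ring
  have hform := hf f hf0
  have hcomm := Ct_comm (cut A Ω) hsymm Dg hsum a hahalf φ hφ f
  obtain ⟨N, hN⟩ : ∃ N : ℝ, N = ∑ i, f i ^ 2 := ⟨_, rfl⟩
  have hcomm' : a ^ 2 * (Dg * N) = κ / 4 * N := by rw [← ha2]; ring
  rw [← hN] at hform hcomm hid
  rw [hcomm'] at hcomm
  have hN1 : 3 * κ / 4 * N ≤ f u := by linarith
  have hNi : ∀ i, f i ^ 2 ≤ N := fun i => by
    rw [hN]
    exact Finset.single_le_sum (f := fun i => f i ^ 2) (fun i _ => sq_nonneg _)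
      (Finset.mem_univ i)
  have hN0 : 0 ≤ N := (sq_nonneg _).trans (hNi u)
  have hfu0 : 0 ≤ f u := le_trans (by positivity) hN1
  have hfu : f u ≤ 4 / (3 * κ) := by
    rw [le_div_iff₀ (by positivity)]
    by_contra hc
    push Not at hc
    have h2 : 0 < f u := by
      rcases hfu0.lt_or_eq with h | h
      · exact h
      · rw [← h, zero_mul] at hc; linarith
    have h3 := hNi u
    have h4 : 3 * κ / 4 * f u ^ 2 ≤ f u :=
      (mul_le_mul_of_nonneg_left h3 (by positivity)).trans hN1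
    have h5 : f u * (3 * κ / 4 * f u) ≤ f u * 1 := by nlinarith
    have h6 := le_of_mul_le_mul_left h5 h2
    linarith
  have hN2 : N ≤ (4 / (3 * κ)) ^ 2 := by
    have h2 : N ≤ f u / (3 * κ / 4) := by
      rw [le_div_iff₀ (by positivity)]
      linarith
    refine h2.trans ?_
    rw [div_le_iff₀ (by positivity)]
    refine hfu.trans_eq ?_
    field_simp
  have hfx : |f x| ≤ 2 / κ := by
    have h2 : |f x| ≤ 4 / (3 * κ) :=
      abs_le_of_sq_le_sq ((hNi x).trans hN2) (by positivity)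
    refine h2.trans ?_
    rw [div_le_div_iff₀ (by positivity) hκ]
    nlinarith
  have hgx : g x = Real.exp (-(a * δ x u)) * f x := by
    rw [hfd, hφd]
    show g x = Real.exp (-(a * δ x u)) * (Real.exp (a * δ x u) * g x)
    rw [← mul_assoc, ← Real.exp_add, neg_add_cancel, Real.exp_zero, one_mul]
  have hfin : Gr (cut A Ω) lam V E x u = g x := by
    rw [hg, hM]; rfl
  rw [hfin, hgx, abs_mul, abs_of_pos (Real.exp_pos _), ← ha, mul_comm]
  exact mul_le_mul_of_nonneg_right hfx (Real.exp_pos _).le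

end Pool.Agent.H4R2.LO.Ct
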