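import Pool.Agent.H4R2.LO.Defs

/-!
# Task EM: from the torus to finite subsets of the lattice
-/

set_option autoImplicit false

open scoped BigOperators ENNReal
open MeasureTheory

namespace Pool.Agent.H4R2.LO

namespace Em

/-- injective reindexing of a product of probability measures -/
theorem em_pi_map {α β : Type*} [Fintype α] [Fintype β] (μ : Measure ℝ) [IsProbabilityMeasure μ]
    (e : α → β) (he : Function.Injective e) :
    (Measure.pi fun _ : β => μ).map (fun (V : β → ℝ) (a : α) => V (e a)) =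
      Measure.pi fun _ : α => μ := by
  classical
  symm
  apply Measure.pi_eq
  intro s hs
  rw [Measure.map_apply (measurable_pi_iff.2 fun a => measurable_pi_apply (e a))
    (MeasurableSet.univ_pi hs)]
  have h1 : (fun (V : β → ℝ) (a : α) => V (e a)) ⁻¹' (Set.pi Set.univ s) =
      Set.pi Set.univ (fun b => ⋂ (a : α) (_ : e a = b), s a) := by
    ext V
    rw [Set.mem_preimage, Set.mem_univ_pi, Set.mem_univ_pi]
    constructor
    · intro h b
      rw [Set.mem_iInter₂]
      rintro a rfl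
      exact h a
    · intro h a
      exact Set.mem_iInter₂.1 (h (e a)) a rfl
  rw [h1, Measure.pi_pi]
  have h2 : ∏ b ∈ Finset.univ.image e, μ (⋂ (a : α) (_ : e a = b), s a) =
      ∏ b : β, μ (⋂ (a : α) (_ : e a = b), s a) := by
    refine Finset.prod_subset (Finset.subset_univ _) fun b _ hb => ?_
    have h3 : (⋂ (a : α) (_ : e a = b), s a) = Set.univ :=
      Set.eq_univ_of_forall fun t => Set.mem_iInter₂.2 fun a ha =>
        absurd (Finset.mem_image.2 ⟨a, Finset.mem_univ a, ha⟩) hb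
    rw [h3, measure_univ]
  rw [← h2, Finset.prod_image (fun a _ a' _ h => he h)]
  refine Finset.prod_congr rfl fun a _ => ?_
  congr 1
  ext t
  rw [Set.mem_iInter₂]
  constructor
  · intro h
    exact h a rfl
  · intro h a' ha'
    rw [he ha']
    exact h

theorem em_single_ne {d : ℕ} (i j : Fin d) :
    (Pi.single i 1 : Zd d) ≠ -Pi.single j 1 := by
  intro h
  have h1 := congrFun h i
  rw [Pi.neg_apply, Pi.single_eq_same] at h1
  by_cases hij : i = j
  · subst hij
    rw [Pi.single_eq_same] at h1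
    omega
  · rw [Pi.single_eq_of_ne hij] at h1
    omega

theorem em_single_inj {d : ℕ} {i j : Fin d} (h : (Pi.single i 1 : Zd d) = Pi.single j 1) :
    i = j := by
  by_contra hij
  have h1 := congrFun h i
  rw [Pi.single_eq_same, Pi.single_eq_of_ne hij] at h1
  omega

open Classical in
theorem em_count {d : ℕ} (z z' : Zd d) :
    ∑ i : Fin d, ((if z' = z + Pi.single i 1 then (1 : ℝ) else 0) +
      (if z' = z - Pi.single i 1 then (1 : ℝ) else 0)) = -adj z z' := by
  unfold adj
  by_cases h : ∃ i : Fin d, z' = z + Pi.single i 1 ∨ z' = z - Pi.single i 1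
  · rw [if_pos h]
    obtain ⟨i, hi⟩ := h
    rw [Finset.sum_eq_single i]
    · rcases hi with hi | hi
      · rw [if_pos hi, if_neg]
        · norm_num
        · intro h2
          rw [hi] at h2
          have h3 : (Pi.single i 1 : Zd d) = -Pi.single i 1 := by
            have := add_left_cancel (h2.trans (sub_eq_add_neg _ _))
            exact this
          exact em_single_ne i i h3
      · rw [if_pos hi, if_neg]
        · norm_num
        · intro h2
          rw [hi] at h2
          have h3 : (Pi.single i 1 : Zd d) = -Pi.single i 1 := by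
            have := add_left_cancel (h2.symm.trans (sub_eq_add_neg _ _))
            exact this
          exact em_single_ne i i h3
    · intro j _ hj
      rcases hi with hi | hi
      · rw [if_neg, if_neg, add_zero]
        · intro h2
          rw [hi] at h2
          exact em_single_ne i j (add_left_cancel (h2.trans (sub_eq_add_neg _ _)))
        · intro h2
          rw [hi] at h2
          exact hj (em_single_inj (add_left_cancel h2)).symm
      · rw [if_neg, if_neg, add_zero]
        · intro h2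
          rw [hi, sub_eq_add_neg, sub_eq_add_neg] at h2
          exact hj (em_single_inj (neg_injective (add_left_cancel h2))).symm
        · intro h2
          rw [hi, sub_eq_add_neg] at h2
          exact em_single_ne j i (add_left_cancel h2).symm
    · intro h
      exact absurd (Finset.mem_univ i) h
  · rw [if_neg h]
    push Not at h
    rw [neg_zero]
    refine Finset.sum_eq_zero fun i _ => ?_
    rw [if_neg (h i).1, if_neg (h i).2, add_zero]

theorem em_dd {d : ℕ} {x z : Zd d} {L : ℕ} (h : dd x z ≤ L) (j : Fin d) :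
    |z j - x j| ≤ L := by
  unfold dd at h
  have h1 := (Finset.sup_le_iff.1 h) j (Finset.mem_univ j)
  rw [abs_sub_comm, Int.abs_eq_natAbs]
  exact_mod_cast h1

/-- the embedding of the lattice into the torus -/
def em_e {d : ℕ} (L0 : ℕ) (x z : Zd d) : T d L0 := fun i => ((z i - x i : ℤ) : ZMod L0)

theorem em_cast {L0 : ℕ} [NeZero L0] {a : ℤ} (h : (a : ZMod L0) = 0) (h2 : |a| < L0) : a = 0 :=
  Int.eq_zero_of_abs_lt_dvd ((ZMod.intCast_zmod_eq_zero_iff_dvd a L0).1 h) h2

theorem em_shift {d L0 : ℕ} [NeZero L0] {x z z' : Zd d} {L : ℕ} (hL : 2 * L + 2 ≤ L0)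
    (hz : dd x z ≤ L) (hz' : dd x z' ≤ L) (v : Zd d) (v' : T d L0)
    (hv : ∀ i, |v i| ≤ 1) (hvv : ∀ i, ((v i : ℤ) : ZMod L0) = v' i) :
    em_e L0 x z' = em_e L0 x z + v' ↔ z' = z + v := by
  constructor
  · intro h
    funext i
    have h1 := congrFun h i
    rw [Pi.add_apply, ← hvv i] at h1
    unfold em_e at h1
    have h2 : ((z' i - z i - v i : ℤ) : ZMod L0) = 0 := by
      push_cast at h1 ⊢
      linear_combination h1
    have h3 := em_dd hz i
    have h4 := em_dd hz' i
    have h5 := hv i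
    have h6 : |z' i - z i - v i| < L0 := by
      rw [abs_le] at h3 h4 h5
      rw [abs_lt]
      omega
    have h7 := em_cast h2 h6
    rw [Pi.add_apply]
    omega
  · rintro rfl
    funext i
    rw [Pi.add_apply, ← hvv i]
    unfold em_e
    rw [Pi.add_apply]
    push_cast
    ring

theorem em_single_cast {d L0 : ℕ} (i j : Fin d) :
    (((Pi.single i 1 : Zd d) j : ℤ) : ZMod L0) = (Pi.single i 1 : T d L0) j := by
  by_cases h : j = i
  · subst h
    rw [Pi.single_eq_same, Pi.single_eq_same]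
    exact Int.cast_one
  · rw [Pi.single_eq_of_ne h, Pi.single_eq_of_ne h]
    exact Int.cast_zero

theorem em_single_abs {d : ℕ} (i j : Fin d) : |(Pi.single i 1 : Zd d) j| ≤ 1 := by
  by_cases h : j = i
  · subst h
    rw [Pi.single_eq_same]
    norm_num
  · rw [Pi.single_eq_of_ne h]
    norm_num

/-- the deterministic part: a form bound on the torus gives a form bound on `Ω` -/
theorem em_det (d L0 : ℕ) [NeZero L0] (lam E1 : ℝ) (Λ : Finset (Zd d)) (Ω : Finset Λ) (x : Λ)
    (L : ℕ) (hL : 2 * L + 2 ≤ L0) (hΩ : ∀ z ∈ Ω, dd x.1 z.1 ≤ L) (V : T d L0 → ℝ)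
    (hV : ∀ f : T d L0 → ℝ, E1 * ∑ x, f x ^ 2 ≤
      ∑ x, f x * (∑ i : Fin d, (2 * f x - f (x + Pi.single i 1) - f (x - Pi.single i 1)) +
        lam * V x * f x)) (f : Λ → ℝ) :
    (E1 - 2 * d) * ∑ z ∈ Ω, f z ^ 2 ≤
      ∑ z ∈ Ω, f z * ∑ z' ∈ Ω, adj z.1 z'.1 * f z' +
        lam * ∑ z ∈ Ω, V (em_e L0 x.1 z.1) * f z ^ 2 := by
  classical
  set e : Λ → T d L0 := fun z => em_e L0 x.1 z.1 with he
  set F : T d L0 → ℝ := fun t => ∑ z ∈ Ω, if e z = t then f z else 0 with hF
  have hsum : ∀ g : T d L0 → ℝ, ∑ t, F t * g t = ∑ z ∈ Ω, f z * g (e z) := by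
    intro g
    simp only [hF, Finset.sum_mul]
    rw [Finset.sum_comm]
    refine Finset.sum_congr rfl fun z _ => ?_
    rw [Finset.sum_eq_single (e z)]
    · rw [if_pos rfl]
    · intro t _ ht
      rw [if_neg ht.symm, zero_mul]
    · intro h
      exact absurd (Finset.mem_univ _) h
  have hinj : ∀ z ∈ Ω, ∀ z' ∈ Ω, e z = e z' → z = z' := by
    intro z hz z' hz' h
    have h1 := (em_shift hL (hΩ z' hz') (hΩ z hz) (0 : Zd d) (0 : T d L0)
      (fun i => by simp) (fun i => by simp)).1 (by rw [add_zero]; exact h)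
    rw [add_zero] at h1
    exact Subtype.ext h1
  have hFe : ∀ z ∈ Ω, F (e z) = f z := by
    intro z hz
    simp only [hF]
    rw [Finset.sum_eq_single z]
    · rw [if_pos rfl]
    · intro z' hz' hne
      rw [if_neg]
      intro h
      exact hne (hinj z' hz' z hz h)
    · intro h
      exact absurd hz h
  have hnb : ∀ z ∈ Ω, ∑ i : Fin d, (F (e z + Pi.single i 1) + F (e z - Pi.single i 1)) =
      -∑ z' ∈ Ω, adj z.1 z'.1 * f z' := by
    intro z hz
    simp only [hF]
    have h1 : ∀ i : Fin d, (∑ z' ∈ Ω, (if e z' = e z + Pi.single i 1 then f z' else 0)) +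
        (∑ z' ∈ Ω, (if e z' = e z - Pi.single i 1 then f z' else 0)) =
        ∑ z' ∈ Ω, (((if z'.1 = z.1 + Pi.single i 1 then (1 : ℝ) else 0) +
          (if z'.1 = z.1 - Pi.single i 1 then (1 : ℝ) else 0)) * f z') := by
      intro i
      rw [← Finset.sum_add_distrib]
      refine Finset.sum_congr rfl fun z' hz' => ?_
      have e1 : (e z' = e z + Pi.single i 1) ↔ z'.1 = z.1 + Pi.single i 1 :=
        em_shift hL (hΩ z hz) (hΩ z' hz') (Pi.single i 1) (Pi.single i 1)
          (em_single_abs i) (em_single_cast i)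
      have e2 : (e z' = e z - Pi.single i 1) ↔ z'.1 = z.1 - Pi.single i 1 := by
        rw [sub_eq_add_neg, sub_eq_add_neg]
        exact em_shift hL (hΩ z hz) (hΩ z' hz') (-Pi.single i 1) (-Pi.single i 1)
          (fun j => by rw [Pi.neg_apply, abs_neg]; exact em_single_abs i j)
          (fun j => by rw [Pi.neg_apply, Pi.neg_apply, ← em_single_cast]; push_cast; rfl)
      have i1 : (if e z' = e z + Pi.single i 1 then f z' else 0) =
          (if z'.1 = z.1 + Pi.single i 1 then (1 : ℝ) else 0) * f z' := by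
        by_cases hc : z'.1 = z.1 + Pi.single i 1
        · rw [if_pos hc, if_pos (e1.2 hc), one_mul]
        · rw [if_neg hc, if_neg (fun h => hc (e1.1 h)), zero_mul]
      have i2 : (if e z' = e z - Pi.single i 1 then f z' else 0) =
          (if z'.1 = z.1 - Pi.single i 1 then (1 : ℝ) else 0) * f z' := by
        by_cases hc : z'.1 = z.1 - Pi.single i 1
        · rw [if_pos hc, if_pos (e2.2 hc), one_mul]
        · rw [if_neg hc, if_neg (fun h => hc (e2.1 h)), zero_mul]
      rw [i1, i2, add_mul]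
    rw [Finset.sum_congr rfl fun i _ => h1 i, Finset.sum_comm, ← Finset.sum_neg_distrib]
    refine Finset.sum_congr rfl fun z' _ => ?_
    rw [← Finset.sum_mul, em_count z.1 z'.1]
    ring
  have h1 := hV F
  have h2 : ∑ t, F t ^ 2 = ∑ z ∈ Ω, f z ^ 2 := by
    have h3 := hsum F
    rw [Finset.sum_congr rfl fun t _ => sq (F t), h3]
    refine Finset.sum_congr rfl fun z hz => ?_
    rw [hFe z hz, sq]
  have h3 := hsum (fun t => ∑ i : Fin d, (2 * F t - F (t + Pi.single i 1) -
    F (t - Pi.single i 1)) + lam * V t * F t)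
  rw [h2, h3] at h1
  have h4 : ∀ z ∈ Ω, f z * (∑ i : Fin d, (2 * F (e z) - F (e z + Pi.single i 1) -
      F (e z - Pi.single i 1)) + lam * V (e z) * F (e z)) =
      2 * d * f z ^ 2 + f z * ∑ z' ∈ Ω, adj z.1 z'.1 * f z' + lam * (V (e z) * f z ^ 2) := by
    intro z hz
    have h5 := hnb z hz
    have h6 : ∑ i : Fin d, (2 * F (e z) - F (e z + Pi.single i 1) - F (e z - Pi.single i 1)) =
        2 * d * F (e z) - ∑ i : Fin d, (F (e z + Pi.single i 1) + F (e z - Pi.single i 1)) := by
      rw [Finset.sum_add_distrib, Finset.sum_sub_distrib, Finset.sum_sub_distrib, Finset.sum_const,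
        Finset.card_univ, Fintype.card_fin, nsmul_eq_mul]
      ring
    rw [h6, h5, hFe z hz]
    ring
  rw [Finset.sum_congr rfl h4, Finset.sum_add_distrib, Finset.sum_add_distrib, ← Finset.mul_sum,
    ← Finset.mul_sum] at h1
  linarith

/-- the form bound in terms of the values on `Ω` -/
theorem em_FB_iff {ι : Type*} [Fintype ι] [DecidableEq ι] (A : Matrix ι ι ℝ) (Ω : Finset ι)
    (lam : ℝ) (V : ι → ℝ) (E : ℝ) : FB A Ω lam V E ↔
      ∀ f : ι → ℝ, (∀ i, i ∉ Ω → f i = 0) → E * ∑ z ∈ Ω, f z ^ 2 ≤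
        ∑ z ∈ Ω, f z * ∑ z' ∈ Ω, A z z' * f z' + lam * ∑ z ∈ Ω, V z * f z ^ 2 := by
  unfold FB
  refine forall_congr' fun f => forall_congr' fun hf => ?_
  have h1 : ∑ i, f i ^ 2 = ∑ z ∈ Ω, f z ^ 2 := by
    symm
    refine Finset.sum_subset (Finset.subset_univ _) fun i _ hi => ?_
    rw [hf i hi]
    ring
  have h2 : ∑ i, f i * ((cut A Ω).mulVec f i + lam * V i * f i) =
      ∑ z ∈ Ω, f z * ∑ z' ∈ Ω, A z z' * f z' + lam * ∑ z ∈ Ω, V z * f z ^ 2 := by
    rw [Finset.mul_sum, ← Finset.sum_add_distrib]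
    symm
    refine (Finset.sum_congr rfl fun z hz => ?_).trans
      (Finset.sum_subset (Finset.subset_univ Ω) fun i _ hi => ?_)
    · have h3 : (cut A Ω).mulVec f z = ∑ z' ∈ Ω, A z z' * f z' := by
        unfold Matrix.mulVec dotProduct cut
        symm
        refine (Finset.sum_congr rfl fun j hj => ?_).trans
          (Finset.sum_subset (Finset.subset_univ Ω) fun j _ hj => ?_)
        · show A z j * f j = (if z ∈ Ω ∧ j ∈ Ω then A z j else 0) * f j
          rw [if_pos ⟨hz, hj⟩]
        · show (if z ∈ Ω ∧ j ∈ Ω then A z j else 0) * f j = 0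
          rw [if_neg (fun h => hj h.2), zero_mul]
      rw [h3]
      ring
    · rw [hf i hi, zero_mul]
  rw [h1, h2]

/-- from the torus to finite subsets of the lattice -/
theorem em (d L0 : ℕ) [NeZero L0] (μ : Measure ℝ) [IsProbabilityMeasure μ] (lam E1 ε0 : ℝ)
    (h : TorusBound d L0 μ lam E1 ε0) (Λ : Finset (Zd d)) (Ω : Finset Λ) (x : Λ) (L : ℕ)
    (hL : 2 * L + 2 ≤ L0) (hΩ : ∀ z ∈ Ω, dd x.1 z.1 ≤ L) :
    (Measure.pi fun _ : Λ => μ) {V | ¬ FB (AL Λ) Ω lam V (E1 - 2 * d)} ≤ ENNReal.ofReal ε0 := by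
  classical
  obtain ⟨G, hG, hGp, hGf⟩ := h
  -- the bad set on `Ω`
  set S : Set (Ω → ℝ) := {W | ¬ ∀ f : Λ → ℝ, (∀ i, i ∉ Ω → f i = 0) →
    (E1 - 2 * d) * ∑ z ∈ Ω, f z ^ 2 ≤
        ∑ z ∈ Ω, f z * ∑ z' ∈ Ω, (AL Λ) z z' * f z' + lam * ∑ z : Ω, W z * f z ^ 2} with hS
  have hSm : MeasurableSet S := by
    rw [hS, ← Set.compl_ofPred]
    refine (IsClosed.measurableSet ?_).compl
    rw [Set.ofPred_forall]
    refine isClosed_iInter fun f => ?_
    rw [Set.ofPred_forall]
    refine isClosed_iInter fun hf => ?_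
    refine isClosed_le continuous_const ?_
    refine continuous_const.add (continuous_const.mul ?_)
    exact continuous_finsetSum _ fun z _ => (continuous_apply z).mul continuous_const
  have hpre : ∀ V : Λ → ℝ, V ∈ {V | ¬ FB (AL Λ) Ω lam V (E1 - 2 * d)} ↔
      (fun z : Ω => V z.1) ∈ S := by
    intro V
    rw [hS, Set.mem_ofPred_eq, Set.mem_ofPred_eq, em_FB_iff]
    have h1 : ∀ f : Λ → ℝ, ∑ z : Ω, V z.1 * f z.1 ^ 2 = ∑ z ∈ Ω, V z * f z ^ 2 := fun f =>
      Finset.sum_coe_sort Ω (fun z => V z * f z ^ 2)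
    simp only [h1]
  have e1 : (Measure.pi fun _ : Λ => μ) {V | ¬ FB (AL Λ) Ω lam V (E1 - 2 * d)} =
      (Measure.pi fun _ : Ω => μ) S := by
    rw [← em_pi_map μ (fun z : Ω => z.1) Subtype.val_injective,
      Measure.map_apply (measurable_pi_iff.2 fun a => measurable_pi_apply _) hSm]
    congr 1
    ext V
    rw [Set.mem_preimage]
    exact hpre V
  have hinj : Function.Injective (fun z : Ω => em_e L0 x.1 z.1.1) := by
    intro z z' hzz
    have h1 := (em_shift hL (hΩ z'.1 z'.2) (hΩ z.1 z.2) (0 : Zd d) (0 : T d L0)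
      (fun i => by simp) (fun i => by simp)).1 (by rw [add_zero]; exact hzz)
    rw [add_zero] at h1
    exact Subtype.ext (Subtype.ext h1)
  have e2 : (Measure.pi fun _ : Ω => μ) S =
      (Measure.pi fun _ : T d L0 => μ) {V | (fun z : Ω => V (em_e L0 x.1 z.1.1)) ∈ S} := by
    rw [← em_pi_map μ (fun z : Ω => em_e L0 x.1 z.1.1) hinj,
      Measure.map_apply (measurable_pi_iff.2 fun a => measurable_pi_apply _) hSm]
    rfl
  have e3 : {V : T d L0 → ℝ | (fun z : Ω => V (em_e L0 x.1 z.1.1)) ∈ S} ⊆ Gᶜ := by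
    intro V hV hVG
    refine hV fun f hf => ?_
    have h1 := em_det d L0 lam E1 Λ Ω x L hL hΩ V (hGf V hVG) f
    have h2 : ∑ z : Ω, V (em_e L0 x.1 z.1.1) * f z.1 ^ 2 =
        ∑ z ∈ Ω, V (em_e L0 x.1 z.1) * f z ^ 2 :=
      Finset.sum_coe_sort Ω (fun z => V (em_e L0 x.1 z.1) * f z ^ 2)
    rw [h2]
    exact h1
  rw [e1, e2]
  refine (measure_mono e3).trans ?_
  rw [← ENNReal.ofReal_toReal (measure_ne_top (Measure.pi fun _ : T d L0 => μ) Gᶜ)]
  refine ENNReal.ofReal_le_ofReal ?_
  have h1 := probReal_compl_eq_one_sub (μ := Measure.pi fun _ : T d L0 => μ) hG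
  have h2 : ((Measure.pi fun _ : T d L0 => μ) Gᶜ).toReal =
      (Measure.pi fun _ : T d L0 => μ).real Gᶜ := rfl
  rw [h2, h1]
  linarith

end Em

end Pool.Agent.H4R2.LO
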