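import Pool.Agent.H4R2.LO.Ct
import Pool.Agent.H4R2.LO.Ap

/-! Initial scale estimate (team LO). -/

set_option autoImplicit false

open scoped BigOperators ENNReal
open MeasureTheory

namespace Pool.Agent.H4R2.LO

namespace Ct

variable {ι : Type*} [Fintype ι] [DecidableEq ι]

/-- initial scale estimate from a form bound which holds with high probability -/
theorem init (μ : Measure ℝ) [IsProbabilityMeasure μ] (B : ℝ) (hμ : Reg B μ) (A : Matrix ι ι ℝ)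
    (hA : A.IsSymm) (Dg : ℝ) (hDg : 1 ≤ Dg)
    (h1 : ∀ i, ∑ j, |A i j| ≤ Dg) (lam : ℝ) (hlam : 0 < lam) (E κ ε0 : ℝ)
    (hκ : 0 < κ) (hκ' : κ ≤ 1) (hε0 : 0 ≤ ε0) (δ : ι → ι → ℕ) (hδ0 : ∀ i, δ i i = 0)
    (hδs : ∀ i j, δ i j = δ j i) (hδt : ∀ i j k, δ i k ≤ δ i j + δ j k)
    (hδ1 : ∀ i j, A i j ≠ 0 → δ i j ≤ 1) (Ω : Finset ι) (x u : ι) (hx : x ∈ Ω) (hu : u ∈ Ω)
    (hbad : (Measure.pi fun _ : ι => μ) {V | ¬ FB A Ω lam V (E + κ)} ≤ ENNReal.ofReal ε0) :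
    ∫⁻ V, ‖Gr (cut A Ω) lam V E x u‖ₑ ^ (1 / 4 : ℝ) ∂(Measure.pi fun _ : ι => μ) ≤
      ENNReal.ofReal (2 / κ * Real.exp (-(Real.sqrt (κ / (4 * Dg)) * δ x u / 4)) +
        Real.sqrt ε0 * (2 * Real.sqrt (Real.sqrt (B / lam)))) := by
  obtain ⟨ν, hν⟩ : ∃ ν : Measure (ι → ℝ), ν = Measure.pi fun _ : ι => μ := ⟨_, rfl⟩
  have hνp : IsProbabilityMeasure ν := by rw [hν]; infer_instance
  obtain ⟨f, hf⟩ : ∃ f : (ι → ℝ) → ℝ≥0∞, ∀ V, f V = ‖Gr (cut A Ω) lam V E x u‖ₑ ^ (1 / 4 : ℝ) :=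
    ⟨_, fun _ => rfl⟩
  have hfm : Measurable f := by
    have h0 : Measurable fun V : ι → ℝ => (V, E) := measurable_id.prodMk measurable_const
    have h2 : Measurable fun V : ι → ℝ => Gr (cut A Ω) lam V E x u := by
      have h2' := (Ap.meas_Gr (cut A Ω) lam x u).comp h0
      simpa only [Function.comp_def] using h2'
    have h3 : f = fun V => ‖Gr (cut A Ω) lam V E x u‖ₑ ^ (1 / 4 : ℝ) := funext hf
    rw [h3]
    exact h2.enorm.pow_const _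
  obtain ⟨S, hSm, hbS, hSν⟩ : ∃ S : Set (ι → ℝ), MeasurableSet S ∧
      {V | ¬ FB A Ω lam V (E + κ)} ⊆ S ∧ ν S ≤ ENNReal.ofReal ε0 := by
    refine ⟨toMeasurable ν {V | ¬ FB A Ω lam V (E + κ)}, measurableSet_toMeasurable _ _,
      subset_toMeasurable _ _, ?_⟩
    rw [measure_toMeasurable, hν]
    exact hbad
  obtain ⟨c, hc⟩ : ∃ c : ℝ, c = 2 / κ * Real.exp (-(Real.sqrt (κ / (4 * Dg)) * δ x u / 4)) :=
    ⟨_, rfl⟩
  have hc0 : 0 ≤ c := by rw [hc]; positivity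
  have hgood : ∀ V ∈ Sᶜ, f V ≤ ENNReal.ofReal c := by
    intro V hV
    have hFB : FB A Ω lam V (E + κ) := by
      by_contra h
      exact hV (hbS h)
    have h2 := ct A hA Dg hDg h1 δ hδ0 hδs hδt hδ1 Ω lam V E κ hκ hκ' hFB x u hx hu
    rw [hf, Real.enorm_eq_ofReal_abs, ENNReal.ofReal_rpow_of_nonneg (abs_nonneg _) (by norm_num)]
    apply ENNReal.ofReal_le_ofReal
    have h3 : 1 ≤ 2 / κ := by
      rw [le_div_iff₀ hκ]
      linarith
    calc |Gr (cut A Ω) lam V E x u| ^ (1 / 4 : ℝ)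
        ≤ (2 / κ * Real.exp (-(Real.sqrt (κ / (4 * Dg)) * δ x u))) ^ (1 / 4 : ℝ) :=
          Real.rpow_le_rpow (abs_nonneg _) h2 (by norm_num)
      _ = (2 / κ) ^ (1 / 4 : ℝ) *
          Real.exp (-(Real.sqrt (κ / (4 * Dg)) * δ x u)) ^ (1 / 4 : ℝ) :=
          Real.mul_rpow (by positivity) (Real.exp_pos _).le
      _ = (2 / κ) ^ (1 / 4 : ℝ) * Real.exp (-(Real.sqrt (κ / (4 * Dg)) * δ x u / 4)) := by
          rw [← Real.exp_mul]
          congr 2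
          ring
      _ ≤ (2 / κ) ^ (1 : ℝ) * Real.exp (-(Real.sqrt (κ / (4 * Dg)) * δ x u / 4)) :=
          mul_le_mul_of_nonneg_right (Real.rpow_le_rpow_of_exponent_le h3 (by norm_num))
            (Real.exp_pos _).le
      _ = c := by rw [Real.rpow_one, hc]
  have hsplit : ∫⁻ V, f V ∂ν = ∫⁻ V in S, f V ∂ν + ∫⁻ V in Sᶜ, f V ∂ν :=
    (lintegral_add_compl f hSm).symm
  have h2 : ∫⁻ V in Sᶜ, f V ∂ν ≤ ENNReal.ofReal c := by
    calc ∫⁻ V in Sᶜ, f V ∂ν ≤ ∫⁻ _ in Sᶜ, ENNReal.ofReal c ∂ν :=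
          setLIntegral_mono' hSm.compl hgood
      _ = ENNReal.ofReal c * ν Sᶜ := by rw [setLIntegral_const]
      _ ≤ ENNReal.ofReal c * 1 := by
          gcongr
          exact prob_le_one
      _ = _ := mul_one _
  have hsq : ∫⁻ V, f V ^ (2 : ℝ) ∂ν ≤ ENNReal.ofReal (4 * Real.sqrt (B / lam)) := by
    have h3 : (cut A Ω).IsSymm := by
      apply Matrix.IsSymm.ext
      intro i j
      unfold cut
      rw [hA.apply i j]
      by_cases hi : i ∈ Ω <;> by_cases hj : j ∈ Ω <;> simp [hi, hj]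
    have h4 := Ap.ap_pi μ B hμ (cut A Ω) h3 lam hlam E x u
    rw [← hν] at h4
    refine le_trans (le_of_eq ?_) h4
    apply lintegral_congr
    intro V
    rw [hf, ← ENNReal.rpow_mul]
    norm_num
  have h5 : ∫⁻ V in S, f V ∂ν ≤
      ENNReal.ofReal (Real.sqrt ε0 * (2 * Real.sqrt (Real.sqrt (B / lam)))) := by
    have h6 := ENNReal.lintegral_mul_le_Lp_mul_Lq (ν.restrict S) Real.HolderConjugate.two_two
      hfm.aemeasurable (g := fun _ => 1) aemeasurable_const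
    have h7 : ∫⁻ V in S, f V ∂ν = ∫⁻ V in S, (f * (fun _ => 1 : (ι → ℝ) → ℝ≥0∞)) V ∂ν := by
      apply lintegral_congr
      intro V
      rw [Pi.mul_apply, mul_one]
    rw [h7]
    refine h6.trans ?_
    have h8 : ∫⁻ _ in S, (1 : ℝ≥0∞) ^ (2 : ℝ) ∂ν = ν S := by
      rw [ENNReal.one_rpow, setLIntegral_const, one_mul]
    rw [h8]
    have h9 : (∫⁻ V in S, f V ^ (2 : ℝ) ∂ν) ^ (1 / 2 : ℝ) ≤
        ENNReal.ofReal (2 * Real.sqrt (Real.sqrt (B / lam))) := by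
      calc (∫⁻ V in S, f V ^ (2 : ℝ) ∂ν) ^ (1 / 2 : ℝ)
          ≤ (ENNReal.ofReal (4 * Real.sqrt (B / lam))) ^ (1 / 2 : ℝ) :=
            ENNReal.rpow_le_rpow ((setLIntegral_le_lintegral _ _).trans hsq) (by norm_num)
        _ = ENNReal.ofReal (2 * Real.sqrt (Real.sqrt (B / lam))) := by
            rw [ENNReal.ofReal_rpow_of_nonneg (by positivity) (by norm_num), ← Real.sqrt_eq_rpow,
              Real.sqrt_mul (by norm_num)]
            congr 2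
            rw [show (4 : ℝ) = 2 ^ 2 by norm_num]
            exact Real.sqrt_sq (by norm_num)
    have h10 : (ν S) ^ (1 / 2 : ℝ) ≤ ENNReal.ofReal (Real.sqrt ε0) := by
      calc (ν S) ^ (1 / 2 : ℝ) ≤ (ENNReal.ofReal ε0) ^ (1 / 2 : ℝ) :=
            ENNReal.rpow_le_rpow hSν (by norm_num)
        _ = _ := by
            rw [ENNReal.ofReal_rpow_of_nonneg hε0 (by norm_num), ← Real.sqrt_eq_rpow]
    rw [ENNReal.ofReal_mul (Real.sqrt_nonneg _), mul_comm]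
    exact mul_le_mul' h10 h9
  have h11 : ∫⁻ V, ‖Gr (cut A Ω) lam V E x u‖ₑ ^ (1 / 4 : ℝ) ∂(Measure.pi fun _ : ι => μ) =
      ∫⁻ V, f V ∂ν := by
    rw [hν]
    exact lintegral_congr fun V => (hf V).symm
  rw [h11, hsplit, ← hc, ENNReal.ofReal_add hc0 (by positivity), add_comm (ENNReal.ofReal c)]
  exact add_le_add h5 h2

end Ct

end Pool.Agent.H4R2.LO
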