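import Pool.Agent.H4R2.LO.Defs

/-! Lattice facts (team LO). -/

set_option autoImplicit false

open scoped BigOperators ENNReal
open MeasureTheory

namespace Pool.Agent.H4R2.LO

namespace Em

theorem dd_le_iff {d : ℕ} (x y : Zd d) (l : ℕ) : dd x y ≤ l ↔ ∀ i, (x i - y i).natAbs ≤ l := by
  unfold dd
  rw [Finset.sup_le_iff]
  exact ⟨fun h i => h i (Finset.mem_univ i), fun h i _ => h i⟩

theorem le_dd {d : ℕ} (x y : Zd d) (i : Fin d) : (x i - y i).natAbs ≤ dd x y :=
  (dd_le_iff x y _).1 le_rfl i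

/-- lattice facts -/
theorem dd_self {d : ℕ} (x : Zd d) : dd x x = 0 := by
  have h : dd x x ≤ 0 := (dd_le_iff x x 0).2 fun i => by simp
  omega

theorem dd_comm {d : ℕ} (x y : Zd d) : dd x y = dd y x := by
  apply le_antisymm
  · rw [dd_le_iff]
    intro i
    have := le_dd y x i
    omega
  · rw [dd_le_iff]
    intro i
    have := le_dd x y i
    omega

theorem dd_tri {d : ℕ} (x y z : Zd d) : dd x z ≤ dd x y + dd y z := by
  rw [dd_le_iff]
  intro i
  have h1 := le_dd x y i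
  have h2 := le_dd y z i
  omega

/-- `x` and `y` are neighbours -/
def nb {d : ℕ} (x y : Zd d) : Prop := ∃ i : Fin d, y = x + Pi.single i 1 ∨ y = x - Pi.single i 1

theorem adj_of {d : ℕ} {x y : Zd d} (h : nb x y) : adj x y = -1 := by
  unfold adj
  exact if_pos h

theorem adj_of_not {d : ℕ} {x y : Zd d} (h : ¬ nb x y) : adj x y = 0 := by
  unfold adj
  exact if_neg h

theorem nb_symm {d : ℕ} {x y : Zd d} (h : nb x y) : nb y x := by
  obtain ⟨i, h | h⟩ := h
  · exact ⟨i, Or.inr (by rw [h]; abel)⟩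
  · exact ⟨i, Or.inl (by rw [h]; abel)⟩

theorem dd_adj {d : ℕ} (x y : Zd d) (h : adj x y ≠ 0) : dd x y ≤ 1 := by
  by_cases hn : nb x y
  · rw [dd_le_iff]
    intro j
    obtain ⟨i, h | h⟩ := hn
    · rw [h, Pi.add_apply, Pi.single_apply]
      split_ifs <;> simp
    · rw [h, Pi.sub_apply, Pi.single_apply]
      split_ifs <;> simp
  · exact absurd (adj_of_not hn) h

theorem natAbs_norm (n : ℤ) : ((n.natAbs : ℕ) : ℝ) = ‖n‖ := by
  rw [Int.norm_eq_abs, Nat.cast_natAbs, Int.cast_abs]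

theorem dd_norm {d : ℕ} (x y : Zd d) : (dd x y : ℝ) = ‖x - y‖ := by
  apply le_antisymm
  · have h1 : dd x y ≤ ⌊‖x - y‖⌋₊ := by
      rw [dd_le_iff]
      intro i
      apply Nat.le_floor
      rw [natAbs_norm]
      exact norm_le_pi_norm (x - y) i
    calc (dd x y : ℝ) ≤ (⌊‖x - y‖⌋₊ : ℝ) := by exact_mod_cast h1
      _ ≤ ‖x - y‖ := Nat.floor_le (norm_nonneg _)
  · rw [pi_norm_le_iff_of_nonneg (Nat.cast_nonneg _)]
    intro i
    rw [Pi.sub_apply, ← natAbs_norm]
    exact_mod_cast le_dd x y i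

theorem mem_bx {d : ℕ} (x y : Zd d) (l : ℕ) : y ∈ bx x l ↔ dd x y ≤ l := by
  unfold bx
  rw [Fintype.mem_piFinset, dd_le_iff]
  constructor
  · intro h i
    have := Finset.mem_Icc.1 (h i)
    omega
  · intro h i
    rw [Finset.mem_Icc]
    have := h i
    omega

theorem card_bx {d : ℕ} (x : Zd d) (l : ℕ) : (bx x l).card = (2 * l + 1) ^ d := by
  unfold bx
  rw [Fintype.card_piFinset]
  have h : ∀ i : Fin d, (Finset.Icc (x i - l) (x i + l)).card = 2 * l + 1 := by
    intro i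
    rw [Int.card_Icc]
    omega
  rw [Finset.prod_congr rfl fun i _ => h i, Finset.prod_const, Finset.card_univ, Fintype.card_fin]

theorem adj_symm {d : ℕ} (x y : Zd d) : adj x y = adj y x := by
  by_cases h : nb x y
  · rw [adj_of h, adj_of (nb_symm h)]
  · rw [adj_of_not h, adj_of_not fun h' => h (nb_symm h')]

theorem adj_self {d : ℕ} (x : Zd d) : adj x x = 0 := by
  apply adj_of_not
  rintro ⟨i, h | h⟩
  · have := congrFun h i
    simp at this
  · have := congrFun h i
    simp at this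
    omega

theorem adj_abs {d : ℕ} (x y : Zd d) : |adj x y| ≤ 1 := by
  by_cases h : nb x y
  · rw [adj_of h]
    norm_num
  · rw [adj_of_not h]
    norm_num

theorem AL_symm {d : ℕ} (Λ : Finset (Zd d)) : (AL Λ).IsSymm := by
  apply Matrix.IsSymm.ext
  intro i j
  exact adj_symm _ _

theorem AL_row {d : ℕ} (Λ : Finset (Zd d)) (i : Λ) : ∑ j, |AL Λ i j| ≤ 2 * d := by
  classical
  have h1 : ∑ j, |AL Λ i j| = ∑ y ∈ Λ, |adj i.1 y| := by
    rw [← Finset.sum_coe_sort Λ (fun y => |adj i.1 y|)]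
    rfl
  rw [h1]
  obtain ⟨S, hS⟩ : ∃ S : Finset (Zd d), S = (Finset.univ : Finset (Fin d × Bool)).image
    (fun p => if p.2 then i.1 + Pi.single p.1 1 else i.1 - Pi.single p.1 1) := ⟨_, rfl⟩
  have hSc : S.card ≤ 2 * d := by
    rw [hS]
    refine Finset.card_image_le.trans ?_
    rw [Finset.card_univ, Fintype.card_prod, Fintype.card_fin, Fintype.card_bool]
    omega
  have h2 : ∀ y ∈ Λ, |adj i.1 y| ≤ if y ∈ S then 1 else 0 := by
    intro y _
    by_cases hy : y ∈ S
    · rw [if_pos hy]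
      exact adj_abs _ _
    · rw [if_neg hy, adj_of_not, abs_zero]
      rintro ⟨k, h | h⟩
      · apply hy
        rw [hS, Finset.mem_image]
        exact ⟨(k, true), Finset.mem_univ _, by simp [h]⟩
      · apply hy
        rw [hS, Finset.mem_image]
        exact ⟨(k, false), Finset.mem_univ _, by simp [h]⟩
  calc ∑ y ∈ Λ, |adj i.1 y| ≤ ∑ y ∈ Λ, (if y ∈ S then (1 : ℝ) else 0) := Finset.sum_le_sum h2
    _ = ((Λ.filter (· ∈ S)).card : ℝ) := by rw [Finset.sum_boole]
    _ ≤ (S.card : ℝ) := by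
        exact_mod_cast Finset.card_le_card fun y hy => (Finset.mem_filter.1 hy).2
    _ ≤ 2 * d := by exact_mod_cast hSc

/-- law of a restriction -/
theorem rs_map {d : ℕ} (μ : Measure ℝ) [IsProbabilityMeasure μ] (Λ : Finset (Zd d)) :
    (Measure.infinitePi fun _ : Zd d => μ).map (rs Λ) = Measure.pi fun _ : Λ => μ :=
  Measure.infinitePi_map_restrict (fun _ : Zd d => μ)

end Em

end Pool.Agent.H4R2.LO
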