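import Pool.Agent.H4R2.LO.Fm
import Pool.Agent.H4R2.LO.Init
import Pool.Agent.H4R2.LO.La
import Pool.Agent.H4R2.LO.Em

/-! Task DE: parameters, exponential decay of fractional moments. -/

set_option autoImplicit false

open scoped BigOperators ENNReal
open MeasureTheory

namespace Pool.Agent.H4R2.LO.Dec

theorem exp_poly (k : ℕ) (K : ℝ) : ∃ b : ℕ, 1 ≤ b ∧ K * (b : ℝ) ^ k ≤ 2 ^ b := by
  have h := tendsto_pow_const_mul_const_pow_of_abs_lt_one k (r := (1 / 2 : ℝ))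
    (by rw [abs_of_pos (by norm_num)]; norm_num)
  have hpos : (0 : ℝ) < 1 / (|K| + 1) := by positivity
  have h2 := (h.eventually (gt_mem_nhds hpos)).and (Filter.eventually_ge_atTop 1)
  obtain ⟨b, hb1, hb2⟩ := h2.exists
  refine ⟨b, hb2, ?_⟩
  have h3 : (b : ℝ) ^ k * (1 / 2) ^ b * (|K| + 1) < 1 := by
    rwa [lt_div_iff₀ (by positivity)] at hb1
  have h4 : (1 / 2 : ℝ) ^ b * 2 ^ b = 1 := by rw [← mul_pow]; norm_num
  have h5 : K ≤ |K| + 1 := by linarith [le_abs_self K]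
  have h6 : (0 : ℝ) ≤ (b : ℝ) ^ k := by positivity
  calc K * (b : ℝ) ^ k ≤ (|K| + 1) * (b : ℝ) ^ k := by gcongr
    _ = (b : ℝ) ^ k * ((1 / 2 : ℝ) ^ b * 2 ^ b) * (|K| + 1) := by rw [h4]; ring
    _ = ((b : ℝ) ^ k * (1 / 2) ^ b * (|K| + 1)) * 2 ^ b := by ring
    _ ≤ 1 * 2 ^ b := by gcongr
    _ = 2 ^ b := one_mul _

theorem consts (d : ℕ) (B : ℝ) (hB : 0 < B) :
    ∃ (b : ℕ) (c1 : ℝ), 0 ≤ c1 ∧ c1 = 4 * Real.sqrt (8 * d) * (8 * d + 2 + b) ∧
      4 * (c1 + 7) ^ (4 * d) * (1 + B) ^ 2 ≤ 2 ^ b := by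
  obtain ⟨b, hb1, hb2⟩ := exp_poly (4 * d)
    (4 * (4 * Real.sqrt (8 * d) * (8 * d + 3) + 7) ^ (4 * d) * (1 + B) ^ 2)
  have hb : (1 : ℝ) ≤ b := by exact_mod_cast hb1
  refine ⟨b, 4 * Real.sqrt (8 * d) * (8 * d + 2 + b), by positivity, rfl, ?_⟩
  refine le_trans ?_ hb2
  have h1 : 4 * Real.sqrt (8 * d) * (8 * d + 2 + b) + 7 ≤
      (4 * Real.sqrt (8 * d) * (8 * d + 3) + 7) * b := by
    have h2 : (8 * d + 2 + b : ℝ) ≤ (8 * d + 3) * b := by
      have : (0 : ℝ) ≤ (8 * d + 2) * (b - 1) := mul_nonneg (by positivity) (by linarith)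
      nlinarith
    have h3 : 4 * Real.sqrt (8 * d) * (8 * d + 2 + b) ≤ 4 * Real.sqrt (8 * d) * ((8 * d + 3) * b) := by
      gcongr
    nlinarith
  calc 4 * (4 * Real.sqrt (8 * d) * (8 * d + 2 + b) + 7) ^ (4 * d) * (1 + B) ^ 2
      ≤ 4 * ((4 * Real.sqrt (8 * d) * (8 * d + 3) + 7) * b) ^ (4 * d) * (1 + B) ^ 2 := by gcongr
    _ = _ := by rw [mul_pow]; ring

theorem ss_le (t : ℝ) (ht : 0 ≤ t) : Real.sqrt (Real.sqrt t) ≤ 1 + t := by
  refine Real.sqrt_le_iff.2 ⟨by linarith, ?_⟩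
  refine Real.sqrt_le_iff.2 ⟨by positivity, ?_⟩
  have h1 : (1 : ℝ) ≤ 1 + t := by linarith
  have h2 : t ≤ 1 + t := by linarith
  have h3 : (1 + t) ≤ (1 + t) ^ 2 := by nlinarith
  have h4 : (1 + t) ^ 2 ≤ ((1 + t) ^ 2) ^ 2 := by nlinarith
  linarith

theorem cut_univ {ι : Type*} [Fintype ι] [DecidableEq ι] (A : Matrix ι ι ℝ) :
    cut A Finset.univ = A := by
  funext i j
  simp [cut]

theorem FB_mono {ι : Type*} [Fintype ι] [DecidableEq ι] (A : Matrix ι ι ℝ) (Ω : Finset ι)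
    (lam : ℝ) (V : ι → ℝ) (a b : ℝ) (hab : a ≤ b) (h : FB A Ω lam V b) : FB A Ω lam V a := by
  intro f hf
  refine le_trans ?_ (h f hf)
  exact mul_le_mul_of_nonneg_right hab (Finset.sum_nonneg fun i _ => sq_nonneg _)

theorem filt_card {d : ℕ} (Λ : Finset (Zd d)) (i : Λ) (l : ℕ) :
    (Finset.univ.filter fun j : Λ => dd i.1 j.1 ≤ l).card ≤ (2 * l + 1) ^ d := by
  rw [← Em.card_bx i.1 l]
  refine Finset.card_le_card_of_injOn (fun j : Λ => j.1) ?_ ?_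
  · intro j hj
    have h1 := (Finset.mem_filter.1 (Finset.mem_coe.1 hj)).2
    exact Finset.mem_coe.2 ((Em.mem_bx i.1 j.1 l).2 h1)
  · intro j _ j' _ h
    exact Subtype.ext h

/-- all the real arithmetic -/
theorem arith (d : ℕ) (hd : 1 ≤ d) (B : ℝ) (hB : 0 < B) (b : ℕ) (c1 : ℝ) (hc0 : 0 ≤ c1)
    (hc : c1 = 4 * Real.sqrt (8 * d) * (8 * d + 2 + b))
    (hc2 : 4 * (c1 + 7) ^ (4 * d) * (1 + B) ^ 2 ≤ 2 ^ b)
    (C : ℝ) (hC : C = 2 * (8 * d + 2 + b) + 4 * (1 + B) + 2 * c1 + 12)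
    (lam κ ε0 L0 : ℝ) (hlam : 0 < lam) (hlam1 : lam ≤ 1) (hκ : 0 < κ) (hκ1 : κ ≤ 1)
    (hε0 : 0 ≤ ε0) (h1 : (2 / (κ * lam)) ^ C ≤ L0) (h2 : (2 / (κ * lam)) ^ C * ε0 ≤ 1)
    (L : ℕ) (hL : L = ⌈c1 * Real.log (2 / (κ * lam)) / Real.sqrt κ⌉₊) :
    (2 * (L : ℝ) + 2 ≤ L0) ∧
    (((2 * (L + 2) + 1 : ℕ) : ℝ) ^ d) ^ 4 * (2 * Real.sqrt (Real.sqrt (B / lam))) *
      (2 / κ * Real.exp (-(Real.sqrt (κ / (4 * (2 * d))) * L / 4)) +
        Real.sqrt ε0 * (2 * Real.sqrt (Real.sqrt (B / lam)))) ≤ 1 / 2 ∧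
    (∀ D : ℕ, (1 / 2 : ℝ) ^ (D / (L + 2)) * (2 * Real.sqrt (Real.sqrt (B / lam))) ≤
      C / lam * Real.exp (-(Real.sqrt κ * D / (C * Real.log (2 / (κ * lam)))))) := by
  set Y : ℝ := 2 / (κ * lam) with hYdef
  have hkl : 0 < κ * lam := mul_pos hκ hlam
  have hY2 : 2 ≤ Y := by
    rw [hYdef, le_div_iff₀ hkl]
    have : κ * lam ≤ 1 := mul_le_one₀ hκ1 hlam.le hlam1
    linarith
  have hY0 : 0 < Y := by linarith
  have hY1 : 1 ≤ Y := by linarith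
  have hκY : 1 / κ ≤ Y / 2 := by
    rw [hYdef]
    have : (2 / (κ * lam)) / 2 = 1 / κ * (1 / lam) := by field_simp
    rw [this]
    have h3 : 1 ≤ 1 / lam := by rw [le_div_iff₀ hlam]; linarith
    have h4 : 0 < 1 / κ := by positivity
    nlinarith
  have hlY : 1 / lam ≤ Y / 2 := by
    rw [hYdef]
    have : (2 / (κ * lam)) / 2 = 1 / κ * (1 / lam) := by field_simp
    rw [this]
    have h3 : 1 ≤ 1 / κ := by rw [le_div_iff₀ hκ]; linarith
    have h4 : 0 < 1 / lam := by positivity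
    nlinarith
  set X : ℝ := Real.log Y with hXdef
  have hX : 1 / 2 ≤ X := by
    have h3 : Real.log 2 ≤ X := Real.log_le_log (by norm_num) hY2
    have h4 := Real.log_two_gt_d9
    linarith
  have hX0 : 0 < X := by linarith
  have hXY : X ≤ Y := Real.log_le_self hY0.le
  have hsκ : 0 < Real.sqrt κ := Real.sqrt_pos.2 hκ
  have hsκ1 : Real.sqrt κ ≤ 1 := Real.sqrt_le_one.2 hκ1
  have hsκ2 : κ ≤ Real.sqrt κ := by
    have h3 : Real.sqrt κ * Real.sqrt κ = κ := Real.mul_self_sqrt hκ.le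
    nlinarith
  have hisκ : 1 / Real.sqrt κ ≤ Y / 2 := by
    refine le_trans ?_ hκY
    exact one_div_le_one_div_of_le hκ hsκ2
  have hL1 : c1 * X / Real.sqrt κ ≤ L := by rw [hL]; exact Nat.le_ceil _
  have hL2 : (L : ℝ) < c1 * X / Real.sqrt κ + 1 := by
    rw [hL]; exact Nat.ceil_lt_add_one (by positivity)
  have hL3 : c1 * X / Real.sqrt κ ≤ c1 * Y ^ 2 / 2 := by
    have : c1 * X / Real.sqrt κ = c1 * X * (1 / Real.sqrt κ) := by ring
    rw [this]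
    calc c1 * X * (1 / Real.sqrt κ) ≤ c1 * Y * (Y / 2) := by gcongr
      _ = c1 * Y ^ 2 / 2 := by ring
  have hYsq : 1 ≤ Y ^ 2 := one_le_pow₀ hY1
  have hL4 : 2 * (L : ℝ) + 5 ≤ (c1 + 7) * Y ^ 2 := by nlinarith
  have hP1 : 1 ≤ (c1 + 7) ^ (4 * d) := one_le_pow₀ (by linarith)
  have hB1 : (1 : ℝ) ≤ (1 + B) ^ 2 := one_le_pow₀ (by linarith)
  have h2b : (c1 + 7) ≤ 2 ^ b := by
    have h3 : c1 + 7 ≤ (c1 + 7) ^ (4 * d) := by
      calc c1 + 7 = (c1 + 7) ^ 1 := (pow_one _).symm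
        _ ≤ (c1 + 7) ^ (4 * d) := pow_le_pow_right₀ (by linarith) (by omega)
    have h4 : (c1 + 7) ^ (4 * d) ≤ 4 * (c1 + 7) ^ (4 * d) * (1 + B) ^ 2 := by nlinarith
    linarith
  -- powers of Y
  set m : ℕ := 8 * d + 2 + b with hm
  have hYC : Y ^ (2 * m) ≤ Y ^ C := by
    rw [← Real.rpow_natCast]
    refine Real.rpow_le_rpow_of_exponent_le hY1 ?_
    rw [hC, hm]; push_cast
    nlinarith
  have hYb : (2 : ℝ) ^ b ≤ Y ^ b := by gcongr
  refine ⟨?_, ?_, ?_⟩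
  · refine le_trans ?_ (hYC.trans h1)
    calc 2 * (L : ℝ) + 2 ≤ (c1 + 7) * Y ^ 2 := by linarith
      _ ≤ Y ^ b * Y ^ 2 := by gcongr; exact h2b.trans hYb
      _ = Y ^ (b + 2) := by rw [pow_add]
      _ ≤ Y ^ (2 * m) := pow_le_pow_right₀ hY1 (by omega)
  · have hCs0 : 0 ≤ 2 * Real.sqrt (Real.sqrt (B / lam)) := by positivity
    have hCs : 2 * Real.sqrt (Real.sqrt (B / lam)) ≤ (1 + B) * Y := by
      have h3 := ss_le (B / lam) (by positivity)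
      have h4 : 1 + B / lam ≤ (1 + B) * (1 / lam) := by
        have h5 : 1 ≤ 1 / lam := by rw [le_div_iff₀ hlam]; linarith
        have h6 : B / lam = B * (1 / lam) := by ring
        rw [h6]; nlinarith
      have h5 : (1 + B) * (1 / lam) ≤ (1 + B) * (Y / 2) := by gcongr
      linarith
    set Cs : ℝ := 2 * Real.sqrt (Real.sqrt (B / lam)) with hCsdef
    have hN : (((2 * (L + 2) + 1 : ℕ) : ℝ) ^ d) ^ 4 ≤ (c1 + 7) ^ (4 * d) * Y ^ (8 * d) := by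
      have h3 : ((2 * (L + 2) + 1 : ℕ) : ℝ) = 2 * (L : ℝ) + 5 := by push_cast; ring
      rw [h3, ← pow_mul]
      calc (2 * (L : ℝ) + 5) ^ (d * 4) ≤ ((c1 + 7) * Y ^ 2) ^ (d * 4) := by gcongr
        _ = (c1 + 7) ^ (4 * d) * Y ^ (8 * d) := by
            rw [mul_pow, ← pow_mul]; congr 2 <;> ring
    have he1 : 2 / κ * Real.exp (-(Real.sqrt (κ / (4 * (2 * d))) * L / 4)) ≤ Y / Y ^ m := by
      have hd0 : (0 : ℝ) < 8 * d := by
        have : (1 : ℝ) ≤ d := by exact_mod_cast hd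
        linarith
      have h3 : 2 / κ ≤ Y := by
        have : 2 / κ = 2 * (1 / κ) := by ring
        rw [this]; linarith
      have h4 : (m : ℝ) * X ≤ Real.sqrt (κ / (4 * (2 * d))) * L / 4 := by
        have h5 : Real.sqrt (κ / (4 * (2 * d))) = Real.sqrt κ / Real.sqrt (8 * d) := by
          rw [← Real.sqrt_div hκ.le]; congr 2; ring
        have hs8 : 0 < Real.sqrt (8 * d) := Real.sqrt_pos.2 hd0
        have h6 : Real.sqrt κ / Real.sqrt (8 * d) * (c1 * X / Real.sqrt κ) ≤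
            Real.sqrt κ / Real.sqrt (8 * d) * L := by gcongr
        have h7 : Real.sqrt κ / Real.sqrt (8 * d) * (c1 * X / Real.sqrt κ) = 4 * (m * X) := by
          rw [hc, hm]; push_cast; field_simp
        rw [h5]
        linarith
      have h5 : Real.exp (-(Real.sqrt (κ / (4 * (2 * d))) * L / 4)) ≤ 1 / Y ^ m := by
        calc Real.exp (-(Real.sqrt (κ / (4 * (2 * d))) * L / 4)) ≤ Real.exp (-(m * X)) := by
              refine Real.exp_le_exp.2 ?_; linarith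
          _ = 1 / Y ^ m := by
              rw [Real.exp_neg, Real.exp_nat_mul, hXdef, Real.exp_log hY0, one_div]
      calc 2 / κ * Real.exp (-(Real.sqrt (κ / (4 * (2 * d))) * L / 4)) ≤ Y * (1 / Y ^ m) := by
            gcongr
        _ = Y / Y ^ m := by ring
    have he2 : Real.sqrt ε0 ≤ 1 / Y ^ m := by
      rw [le_div_iff₀ (by positivity)]
      have h3 : Y ^ (2 * m) * ε0 ≤ 1 := le_trans (by gcongr) h2
      have h4 : (Real.sqrt ε0 * Y ^ m) ^ 2 ≤ 1 ^ 2 := by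
        rw [mul_pow, Real.sq_sqrt hε0, ← pow_mul]
        calc ε0 * Y ^ (m * 2) = Y ^ (2 * m) * ε0 := by rw [mul_comm m 2]; ring
          _ ≤ 1 ^ 2 := by rw [one_pow]; exact h3
      exact (pow_le_pow_iff_left₀ (by positivity) (by norm_num) (by norm_num)).1 h4
    have hYm : Y ^ m = Y ^ (8 * d) * Y ^ 2 * Y ^ b := by rw [hm, pow_add, pow_add]
    have hYm0 : 0 < Y ^ m := by positivity
    have hBB : (1 + B) ≤ (1 + B) ^ 2 := by nlinarith
    calc (((2 * (L + 2) + 1 : ℕ) : ℝ) ^ d) ^ 4 * Cs *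
          (2 / κ * Real.exp (-(Real.sqrt (κ / (4 * (2 * d))) * L / 4)) + Real.sqrt ε0 * Cs)
        ≤ ((c1 + 7) ^ (4 * d) * Y ^ (8 * d)) * ((1 + B) * Y) *
          (Y / Y ^ m + 1 / Y ^ m * ((1 + B) * Y)) := by gcongr
      _ = (c1 + 7) ^ (4 * d) * (Y ^ (8 * d) * Y ^ 2 / Y ^ m) * ((1 + B) + (1 + B) ^ 2) := by ring
      _ ≤ (c1 + 7) ^ (4 * d) * (Y ^ (8 * d) * Y ^ 2 / Y ^ m) * (2 * (1 + B) ^ 2) := by
          gcongr; linarith
      _ = (c1 + 7) ^ (4 * d) * (1 / Y ^ b) * (2 * (1 + B) ^ 2) := by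
          rw [hYm]; congr 2; field_simp
      _ = (4 * (c1 + 7) ^ (4 * d) * (1 + B) ^ 2) / 2 / Y ^ b := by ring
      _ ≤ 2 ^ b / 2 / Y ^ b := by gcongr
      _ ≤ Y ^ b / 2 / Y ^ b := by gcongr
      _ = 1 / 2 := by field_simp
  · intro D
    have hCs : Real.sqrt (Real.sqrt (B / lam)) ≤ (1 + B) / lam := by
      have h3 := ss_le (B / lam) (by positivity)
      have h4 : 1 + B / lam ≤ (1 + B) / lam := by
        rw [add_div]
        have h5 : 1 ≤ 1 / lam := by rw [le_div_iff₀ hlam]; linarith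
        linarith
      linarith
    have hC0 : 0 < C := by rw [hC]; positivity
    have hk : (D : ℝ) / (L + 2) ≤ ((D / (L + 2) : ℕ) : ℝ) + 1 := by
      rw [div_le_iff₀ (by positivity)]
      have h3 : D < (L + 2) * (D / (L + 2) + 1) := Nat.lt_mul_div_succ D (by omega)
      have h4 : (D : ℝ) ≤ (L + 2) * (((D / (L + 2) : ℕ) : ℝ) + 1) := by exact_mod_cast h3.le
      linarith
    have hexp : Real.sqrt κ * D / (C * X) ≤ Real.log 2 * ((D : ℝ) / (L + 2)) := by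
      have h3 : (L : ℝ) + 2 ≤ (c1 + 6) * X / Real.sqrt κ := by
        have h4 : 3 ≤ 6 * X / Real.sqrt κ := by
          rw [le_div_iff₀ hsκ]; nlinarith
        have h5 : (c1 + 6) * X / Real.sqrt κ = c1 * X / Real.sqrt κ + 6 * X / Real.sqrt κ := by
          ring
        rw [h5]; linarith
      have h4 : Real.sqrt κ / ((c1 + 6) * X) ≤ 1 / ((L : ℝ) + 2) := by
        rw [div_le_div_iff₀ (by positivity) (by positivity)]
        rw [le_div_iff₀ hsκ] at h3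
        linarith
      have h5 : Real.sqrt κ * D / (C * X) ≤ (1 / 2) * (D * (Real.sqrt κ / ((c1 + 6) * X))) := by
        have h6 : (1 / 2) * (D * (Real.sqrt κ / ((c1 + 6) * X))) =
            Real.sqrt κ * D / ((2 * (c1 + 6)) * X) := by field_simp
        rw [h6]
        have h7 : 2 * (c1 + 6) ≤ C := by rw [hC]; nlinarith
        gcongr
      have h6 : (1 / 2 : ℝ) * (D * (Real.sqrt κ / ((c1 + 6) * X))) ≤
          Real.log 2 * (D * (1 / ((L : ℝ) + 2))) := by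
        have h7 : (1 / 2 : ℝ) ≤ Real.log 2 := by linarith [Real.log_two_gt_d9]
        gcongr
      calc Real.sqrt κ * D / (C * X) ≤ _ := h5
        _ ≤ _ := h6
        _ = Real.log 2 * ((D : ℝ) / (L + 2)) := by ring
    have hpow : (1 / 2 : ℝ) ^ (D / (L + 2)) ≤
        2 * Real.exp (-(Real.sqrt κ * D / (C * X))) := by
      have h3 : (1 / 2 : ℝ) ^ (D / (L + 2)) =
          2 * Real.exp (-(Real.log 2 * (((D / (L + 2) : ℕ) : ℝ) + 1))) := by
        have h4 : Real.exp (-(Real.log 2 * (((D / (L + 2) : ℕ) : ℝ) + 1))) =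
            (1 / 2) ^ (D / (L + 2) + 1) := by
          rw [Real.exp_neg, show Real.log 2 * (((D / (L + 2) : ℕ) : ℝ) + 1) =
            ((D / (L + 2) + 1 : ℕ) : ℝ) * Real.log 2 by push_cast; ring, Real.exp_nat_mul,
            Real.exp_log (by norm_num), one_div, inv_pow]
        rw [h4, pow_succ]; ring
      rw [h3]
      have h4 : Real.log 2 * ((D : ℝ) / (L + 2)) ≤
          Real.log 2 * (((D / (L + 2) : ℕ) : ℝ) + 1) := by
        have : 0 < Real.log 2 := Real.log_pos (by norm_num)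
        gcongr
      gcongr
      linarith
    calc (1 / 2 : ℝ) ^ (D / (L + 2)) * (2 * Real.sqrt (Real.sqrt (B / lam)))
        ≤ (2 * Real.exp (-(Real.sqrt κ * D / (C * X)))) * (2 * ((1 + B) / lam)) := by gcongr
      _ = (4 * (1 + B)) / lam * Real.exp (-(Real.sqrt κ * D / (C * X))) := by ring
      _ ≤ C / lam * Real.exp (-(Real.sqrt κ * D / (C * X))) := by
          have : 4 * (1 + B) ≤ C := by rw [hC]; nlinarith
          gcongr

/-- exponential decay of fractional moments in all finite volumes, at all energies below the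
effective band edge -/
theorem dec (d : ℕ) (hd : 1 ≤ d) (B : ℝ) (hB : 0 < B) : ∃ C : ℝ, 1 ≤ C ∧
    ∀ (μ : Measure ℝ) [IsProbabilityMeasure μ], Reg B μ → ∀ lam : ℝ, 0 < lam → lam ≤ 1 →
    ∀ (L0 : ℕ) [NeZero L0] (E1 ε0 : ℝ), 0 ≤ ε0 → TorusBound d L0 μ lam E1 ε0 →
    ∀ κ : ℝ, 0 < κ → κ ≤ 1 → (2 / (κ * lam)) ^ C ≤ L0 → (2 / (κ * lam)) ^ C * ε0 ≤ 1 →
    ∀ (Λ : Finset (Zd d)) (E : ℝ), E ≤ E1 - 2 * d - κ → ∀ x y : Λ,
      ∫⁻ V, ‖Gr (AL Λ) lam V E x y‖ₑ ^ (1 / 4 : ℝ) ∂(Measure.pi fun _ : Λ => μ) ≤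
        ENNReal.ofReal (C / lam *
          Real.exp (-(Real.sqrt κ * dd x.1 y.1 / (C * Real.log (2 / (κ * lam)))))) := by
  obtain ⟨b, c1, hc0, hc, hc2⟩ := consts d B hB
  refine ⟨2 * (8 * d + 2 + b) + 4 * (1 + B) + 2 * c1 + 12, ?_, ?_⟩
  · have : (0 : ℝ) ≤ 2 * (8 * d + 2 + b) := by positivity
    linarith
  intro μ _ hμ lam hlam hlam1 L0 _ E1 ε0 hε0 hT κ hκ hκ1 h1 h2 Λ E hE x y
  obtain ⟨a1, a2, a3⟩ := arith d hd B hB b c1 hc0 hc hc2 _ rfl lam κ ε0 L0 hlam hlam1 hκ hκ1 hε0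
    h1 h2 _ rfl
  set L : ℕ := ⌈c1 * Real.log (2 / (κ * lam)) / Real.sqrt κ⌉₊ with hLdef
  have hL0 : 2 * L + 2 ≤ L0 := by exact_mod_cast a1
  have hDg : (1 : ℝ) ≤ 2 * d := by
    have : (1 : ℝ) ≤ d := by exact_mod_cast hd
    linarith
  have hadj : ∀ i j : Λ, AL Λ i j ≠ 0 → dd i.1 j.1 ≤ 1 := fun i j h => Em.dd_adj i.1 j.1 h
  have hinit : ∀ (Ω : Finset Λ) (x u : Λ), x ∈ Ω → u ∈ Ω → (∀ z ∈ Ω, dd x.1 z.1 ≤ L) →
      dd x.1 u.1 = L →
      ∫⁻ V, ‖Gr (cut (AL Λ) Ω) lam V E x u‖ₑ ^ (1 / 4 : ℝ) ∂(Measure.pi fun _ : Λ => μ) ≤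
        ENNReal.ofReal (2 / κ * Real.exp (-(Real.sqrt (κ / (4 * (2 * d))) * L / 4)) +
          Real.sqrt ε0 * (2 * Real.sqrt (Real.sqrt (B / lam)))) := by
    intro Ω x u hx hu hz hxu
    have hbad : (Measure.pi fun _ : Λ => μ) {V | ¬ FB (AL Λ) Ω lam V (E + κ)} ≤
        ENNReal.ofReal ε0 := by
      refine le_trans (measure_mono ?_) (Em.em d L0 μ lam E1 ε0 hT Λ Ω x L hL0 hz)
      intro V hV hV'
      exact hV (FB_mono _ _ _ _ _ _ (by linarith) hV')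
    have h3 := Ct.init μ B hμ (AL Λ) (Em.AL_symm Λ) (2 * d) hDg (Em.AL_row Λ) lam hlam E κ ε0
      hκ hκ1 hε0 (fun i j : Λ => dd i.1 j.1) (fun i => Em.dd_self i.1)
      (fun i j => Em.dd_comm i.1 j.1) (fun i j k => Em.dd_tri i.1 j.1 k.1) hadj Ω x u hx hu hbad
    simp only [hxu] at h3
    exact h3
  have hfm := Fm.fm μ B hμ (AL Λ) (Em.AL_symm Λ) (fun i => Em.adj_self i.1)
    (fun i j => Em.adj_abs i.1 j.1) lam hlam E (fun i j : Λ => dd i.1 j.1)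
    (fun i => Em.dd_self i.1) (fun i j => Em.dd_comm i.1 j.1)
    (fun i j k => Em.dd_tri i.1 j.1 k.1) hadj L ((2 * (L + 2) + 1) ^ d)
    (fun i => filt_card Λ i (L + 2)) _ hinit (dd x.1 y.1 / (L + 2)) Finset.univ x y
    (Finset.mem_univ _) (Finset.mem_univ _) (Nat.div_mul_le_self _ _)
  rw [cut_univ] at hfm
  refine hfm.trans ?_
  have hθ : (((2 * (L + 2) + 1) ^ d : ℕ) : ℝ≥0∞) ^ 4 *
      ENNReal.ofReal (2 * Real.sqrt (Real.sqrt (B / lam))) *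
      ENNReal.ofReal (2 / κ * Real.exp (-(Real.sqrt (κ / (4 * (2 * d))) * L / 4)) +
          Real.sqrt ε0 * (2 * Real.sqrt (Real.sqrt (B / lam)))) ≤ ENNReal.ofReal (1 / 2) := by
    rw [← ENNReal.ofReal_natCast, ← ENNReal.ofReal_pow (by positivity),
      ← ENNReal.ofReal_mul (by positivity), ← ENNReal.ofReal_mul (by positivity)]
    refine ENNReal.ofReal_le_ofReal ?_
    refine le_trans (le_of_eq ?_) a2
    push_cast
    ring
  refine le_trans (mul_le_mul_left (pow_le_pow_left₀ zero_le hθ _) _) ?_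
  rw [← ENNReal.ofReal_pow (by norm_num), ← ENNReal.ofReal_mul (by positivity)]
  exact ENNReal.ofReal_le_ofReal (a3 _)

end Pool.Agent.H4R2.LO.Dec
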