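import Mathlib

/-!
# Definitions for: exponential localization up to the effective band edge (helper4, team LO)
-/

set_option autoImplicit false

open scoped BigOperators ENNReal
open MeasureTheory

namespace Pool.Agent.H4R2.LO

/-! ### finite systems -/

section finite

variable {ι : Type*} [Fintype ι] [DecidableEq ι]

/-- `A` with all entries outside `S × S` replaced by zero -/
def cut (A : Matrix ι ι ℝ) (S : Finset ι) : Matrix ι ι ℝ :=
  fun i j => if i ∈ S ∧ j ∈ S then A i j else 0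

/-- the matrix `A + diag (lam V) - E` -/
noncomputable def Hm (A : Matrix ι ι ℝ) (lam : ℝ) (V : ι → ℝ) (E : ℝ) : Matrix ι ι ℝ :=
  A + Matrix.diagonal fun i => lam * V i - E

/-- the real resolvent `(A + diag (lam V) - E)⁻¹` (zero if the matrix is singular) -/
noncomputable def Gr (A : Matrix ι ι ℝ) (lam : ℝ) (V : ι → ℝ) (E : ℝ) : Matrix ι ι ℝ :=
  (Hm A lam V E)⁻¹

/-- `M` has an approximate null vector: `‖M f‖ ≤ δ ‖f‖` for some `f ≠ 0` -/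
def Near (M : Matrix ι ι ℝ) (δ : ℝ) : Prop :=
  ∃ f : ι → ℝ, f ≠ 0 ∧ ∑ i, (M.mulVec f i) ^ 2 ≤ δ ^ 2 * ∑ i, f i ^ 2

/-- form bound: `A + lam V ≥ E1` on functions supported in `Ω` -/
def FB (A : Matrix ι ι ℝ) (Ω : Finset ι) (lam : ℝ) (V : ι → ℝ) (E1 : ℝ) : Prop :=
  ∀ f : ι → ℝ, (∀ i, i ∉ Ω → f i = 0) →
    E1 * ∑ i, f i ^ 2 ≤ ∑ i, f i * ((cut A Ω).mulVec f i + lam * V i * f i)

end finite

/-- regularity of a single-site law: density at most `B`, and a two-variable version -/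
def Reg (B : ℝ) (μ : Measure ℝ) : Prop :=
  0 < B ∧ μ ≤ ENNReal.ofReal B • (volume : Measure ℝ) ∧
  ∀ S : Set (ℝ × ℝ), MeasurableSet S → ∀ ε : ℝ, 0 ≤ ε →
    (∀ a b : ℝ, volume {t : ℝ | (a + t, b + t) ∈ S} ≤ ENNReal.ofReal ε) →
    (μ.prod μ) S ≤ ENNReal.ofReal (B * ε)

/-! ### the lattice -/

abbrev Zd (d : ℕ) : Type := Fin d → ℤ

/-- sup distance on `ℤ^d` -/
def dd {d : ℕ} (x y : Zd d) : ℕ := Finset.univ.sup fun i => (x i - y i).natAbs

/-- minus the adjacency matrix of `ℤ^d` -/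
noncomputable def adj {d : ℕ} (x y : Zd d) : ℝ :=
  open Classical in if ∃ i : Fin d, y = x + Pi.single i 1 ∨ y = x - Pi.single i 1 then -1 else 0

/-- minus the adjacency matrix on a finite set -/
noncomputable def AL {d : ℕ} (Λ : Finset (Zd d)) : Matrix Λ Λ ℝ := fun i j => adj i.1 j.1

/-- restriction of a potential -/
def rs {d : ℕ} (Λ : Finset (Zd d)) (ω : Zd d → ℝ) : Λ → ℝ := fun i => ω i

/-- the box of radius `l` centred at `x` -/
noncomputable def bx {d : ℕ} (x : Zd d) (l : ℕ) : Finset (Zd d) :=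
  Fintype.piFinset fun i => Finset.Icc (x i - l) (x i + l)

/-- `H ψ = τ (sum over neighbours) + W ψ` on `ℤ^d` -/
noncomputable def Hg {d : ℕ} (τ : ℝ) (W : Zd d → ℝ) (ψ : Zd d → ℂ) (x : Zd d) : ℂ :=
  (τ : ℂ) * ∑ i : Fin d, (ψ (x + Pi.single i 1) + ψ (x - Pi.single i 1)) + (W x : ℂ) * ψ x

/-- square summable -/
def L2f {d : ℕ} (ψ : Zd d → ℂ) : Prop := Summable fun x => ‖ψ x‖ ^ 2

/-- `μ` is the spectral measure of `g`: its Borel transform is `⟨g, (H - z)⁻¹ g⟩` -/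
def IsSpec {d : ℕ} (τ : ℝ) (W : Zd d → ℝ) (g : Zd d → ℂ) (μ : Measure ℝ) : Prop :=
  IsFiniteMeasure μ ∧ ∀ z : ℂ, z.im ≠ 0 → ∃ u : Zd d → ℂ, L2f u ∧
    (∀ x, Hg τ W u x - z * u x = g x) ∧
    ∫ E : ℝ, ((E : ℂ) - z)⁻¹ ∂μ = ∑' x, (starRingEnd ℂ) (g x) * u x

/-- polynomially bounded -/
def PolyB {d : ℕ} (ψ : Zd d → ℂ) : Prop := ∃ (C : ℝ) (k : ℕ), ∀ x, ‖ψ x‖ ≤ C * (1 + ‖x‖) ^ k

/-- `u` is a (generalised) eigenfunction -/
def IsGen {d : ℕ} (τ : ℝ) (W : Zd d → ℝ) (E : ℝ) (ψ : Zd d → ℂ) : Prop :=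
  ∀ x, Hg τ W ψ x = (E : ℂ) * ψ x

/-- the discrete torus `(ℤ/L)^d` -/
abbrev T (d L : ℕ) : Type := Fin d → ZMod L

/-- with probability at least `1 - ε0` the operator `-Δ + lam V` on the torus of side `L0`
(iid `V` with law `μ`) is bounded below by `E1` -/
def TorusBound (d L0 : ℕ) [NeZero L0] (μ : Measure ℝ) (lam E1 ε0 : ℝ) : Prop :=
  ∃ G : Set (T d L0 → ℝ), MeasurableSet G ∧
    1 - ε0 ≤ (Measure.pi fun _ : T d L0 => μ).real G ∧
    ∀ V ∈ G, ∀ f : T d L0 → ℝ, E1 * ∑ x, f x ^ 2 ≤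
      ∑ x, f x * (∑ i : Fin d, (2 * f x - f (x + Pi.single i 1) - f (x - Pi.single i 1)) +
        lam * V x * f x)

end Pool.Agent.H4R2.LO
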