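import Pool.Agent.H4R2.LO.Defs
import Pool.Agent.H4R2.AE.Core

/-! EL: the deterministic energies on tori of different sizes are close. -/

set_option autoImplicit false

open scoped BigOperators ENNReal
open MeasureTheory

namespace Pool.Agent.H4R2.LO

namespace El

open Pool.Agent.H4R2.AE (T LapW Hop)

section var
variable {d L : ℕ} [NeZero L]

/-- the Dirichlet form -/
noncomputable def D (χ : T d L → ℝ) : ℝ := ∑ x, ∑ i : Fin d, (χ x - χ (x + Pi.single i 1)) ^ 2

theorem vf (lam e : ℝ) (V ψ g : T d L → ℝ) (h : ∀ x, Hop lam V ψ x = e * ψ x) :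
    ∑ x, (ψ x * g x) * Hop lam V (fun y => ψ y * g y) x = e * ∑ x, (ψ x * g x) ^ 2 +
      ∑ x, ∑ i : Fin d, ψ x * ψ (x + Pi.single i 1) * (g x - g (x + Pi.single i 1)) ^ 2 := by
  have h1 := AE.Lin.bilin ψ g g
  have h2 : ∀ x, g x * LapW ψ g x = (ψ x * g x) * Hop lam V (fun y => ψ y * g y) x -
      e * (ψ x * g x) ^ 2 := by
    intro x
    rw [AE.Gs.lapW_hop lam V, h]
    ring
  rw [Finset.sum_congr rfl fun x _ => h2 x, Finset.sum_sub_distrib, ← Finset.mul_sum] at h1
  have h3 : ∀ (x : T d L) (i : Fin d), ψ x * ψ (x + Pi.single i 1) *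
      ((g x - g (x + Pi.single i 1)) * (g x - g (x + Pi.single i 1))) =
      ψ x * ψ (x + Pi.single i 1) * (g x - g (x + Pi.single i 1)) ^ 2 := fun x i => by ring
  simp only [h3] at h1
  linarith

theorem vlow (lam e : ℝ) (V ψ f : T d L → ℝ) (h : ∀ x, Hop lam V ψ x = e * ψ x)
    (h1 : ∀ x, 1 ≤ ψ x) : e * ∑ x, f x ^ 2 ≤ ∑ x, f x * Hop lam V f x := by
  have h2 := vf lam e V ψ (fun x => f x / ψ x) h
  have h3 : ∀ x, ψ x * (f x / ψ x) = f x := fun x => by
    have := h1 x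
    field_simp
  simp only [h3] at h2
  have h4 : 0 ≤ ∑ x, ∑ i : Fin d, ψ x * ψ (x + Pi.single i 1) *
      (f x / ψ x - f (x + Pi.single i 1) / ψ (x + Pi.single i 1)) ^ 2 := by
    refine Finset.sum_nonneg fun x _ => Finset.sum_nonneg fun i _ => ?_
    have := h1 x
    have := h1 (x + Pi.single i 1)
    positivity
  linarith

theorem vup (lam e : ℝ) (V ψ χ : T d L → ℝ) (h : ∀ x, Hop lam V ψ x = e * ψ x)
    (h1 : ∀ x, 1 ≤ ψ x) (h2 : ∀ x, ψ x ≤ 2) :
    ∑ x, (ψ x * χ x) * Hop lam V (fun y => ψ y * χ y) x ≤ e * ∑ x, (ψ x * χ x) ^ 2 + 4 * D χ := by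
  rw [vf lam e V ψ χ h]
  have h3 : ∑ x, ∑ i : Fin d, ψ x * ψ (x + Pi.single i 1) * (χ x - χ (x + Pi.single i 1)) ^ 2 ≤
      4 * D χ := by
    unfold D
    rw [Finset.mul_sum]
    refine Finset.sum_le_sum fun x _ => ?_
    rw [Finset.mul_sum]
    refine Finset.sum_le_sum fun i _ => ?_
    have a1 := h1 x
    have a2 := h1 (x + Pi.single i 1)
    have a3 := h2 x
    have a4 := h2 (x + Pi.single i 1)
    have : ψ x * ψ (x + Pi.single i 1) ≤ 4 := by nlinarith
    exact mul_le_mul_of_nonneg_right this (sq_nonneg _)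
  linarith

theorem q0 (f : T d L → ℝ) : ∑ x, f x * Hop 0 (fun _ => 0) f x = D f := by
  have h := vf 0 0 (fun _ => 0) (fun _ : T d L => (1 : ℝ)) f (fun x => by
    simp only [Hop, Finset.sum_const, mul_zero, zero_mul, add_zero]
    norm_num)
  simp only [one_mul, zero_mul, zero_add] at h
  exact h

end var

section tr
variable {d L L0 : ℕ} [NeZero L] [NeZero L0]

/-- the embedding of the small box in the big torus -/
def io (d L L0 : ℕ) (x : T d L) : T d L0 := fun i => ((x i).val : ZMod L0)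

/-- transplantation -/
noncomputable def tp (L0 : ℕ) (f : T d L → ℝ) (y : T d L0) : ℝ :=
  open scoped Classical in
  if ∀ i, (y i).val < L then f (fun i => ((y i).val : ZMod L)) else 0

theorem io_val (hL : L ≤ L0) (x : T d L) (i : Fin d) : (io d L L0 x i).val = (x i).val := by
  unfold io
  rw [ZMod.val_natCast, Nat.mod_eq_of_lt]
  exact (ZMod.val_lt (x i)).trans_le hL

theorem io_inj (hL : L ≤ L0) : Function.Injective (io d L L0) := by
  intro x y h
  funext i
  apply ZMod.val_injective L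
  rw [← io_val hL x i, ← io_val hL y i, h]

theorem tp_io (hL : L ≤ L0) (f : T d L → ℝ) (x : T d L) : tp L0 f (io d L L0 x) = f x := by
  unfold tp
  rw [if_pos]
  · congr 1
    funext i
    rw [io_val hL, ZMod.natCast_zmod_val]
  · intro i
    rw [io_val hL]
    exact ZMod.val_lt _

theorem tp_out (f : T d L → ℝ) (y : T d L0) (hy : y ∉ Set.range (io d L L0)) :
    tp L0 f y = 0 := by
  unfold tp
  rw [if_neg]
  intro h
  apply hy
  refine ⟨fun i => ((y i).val : ZMod L), ?_⟩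
  funext i
  unfold io
  rw [ZMod.val_natCast, Nat.mod_eq_of_lt (h i), ZMod.natCast_zmod_val]

theorem tp_sum (hL : L ≤ L0) (f : T d L → ℝ) (F : T d L0 → ℝ → ℝ) (hF : ∀ y, F y 0 = 0) :
    ∑ y, F y (tp L0 f y) = ∑ x, F (io d L L0 x) (f x) := by
  symm
  apply Fintype.sum_of_injective (io d L L0) (io_inj hL)
  · intro y hy
    rw [tp_out f y hy, hF]
  · intro x
    rw [tp_io hL]

/-- functions supported in the interior of the box -/
def Int' (f : T d L → ℝ) : Prop := ∀ x, f x ≠ 0 → ∀ i, 0 < (x i).val ∧ (x i).val + 1 < L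

theorem io_add (x : T d L) (i : Fin d) (h0 : 0 < (x i).val) (h : (x i).val + 1 < L) :
    io d L L0 (x + Pi.single i 1) = io d L L0 x + Pi.single i 1 := by
  funext k
  unfold io
  rw [Pi.add_apply, Pi.add_apply]
  by_cases hk : k = i
  · subst hk
    rw [Pi.single_eq_same, Pi.single_eq_same]
    have h1 : (1 : ZMod L).val = 1 := ZMod.val_one'' (by omega)
    rw [ZMod.val_add_of_lt (by rw [h1]; exact h), h1]
    push_cast
    rfl
  · rw [Pi.single_eq_of_ne hk, Pi.single_eq_of_ne hk, add_zero, add_zero]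

theorem io_sub (x : T d L) (i : Fin d) (h0 : 0 < (x i).val) (h : (x i).val + 1 < L) :
    io d L L0 (x - Pi.single i 1) = io d L L0 x - Pi.single i 1 := by
  funext k
  unfold io
  rw [Pi.sub_apply, Pi.sub_apply]
  by_cases hk : k = i
  · subst hk
    rw [Pi.single_eq_same, Pi.single_eq_same]
    have h1 : (1 : ZMod L).val = 1 := ZMod.val_one'' (by omega)
    rw [ZMod.val_sub (by rw [h1]; exact h0), h1, Nat.cast_sub h0]
    push_cast
    rfl
  · rw [Pi.single_eq_of_ne hk, Pi.single_eq_of_ne hk, sub_zero, sub_zero]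

theorem tp_hop (hL : L ≤ L0) (lam : ℝ) (V0 : T d L0 → ℝ) (f : T d L → ℝ) (hf : Int' f) :
    ∑ y, tp L0 f y * Hop lam V0 (tp L0 f) y =
      ∑ x, f x * Hop lam (fun x => V0 (io d L L0 x)) f x := by
  rw [tp_sum hL f (fun y t => t * Hop lam V0 (tp L0 f) y) (fun y => zero_mul _)]
  refine Finset.sum_congr rfl fun x _ => ?_
  by_cases hx : f x = 0
  · rw [hx, zero_mul, zero_mul]
  · congr 1
    unfold Hop
    rw [tp_io hL]
    congr 1
    refine Finset.sum_congr rfl fun i _ => ?_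
    obtain ⟨h0, h1⟩ := hf x hx i
    rw [← io_add x i h0 h1, ← io_sub x i h0 h1, tp_io hL, tp_io hL]

theorem tp_sq (hL : L ≤ L0) (f : T d L → ℝ) : ∑ y, tp L0 f y ^ 2 = ∑ x, f x ^ 2 :=
  tp_sum hL f (fun _ t => t ^ 2) (fun _ => by ring)

theorem tp_D (hL : L ≤ L0) (f : T d L → ℝ) (hf : Int' f) : D (tp L0 f) = D f := by
  rw [← q0, ← q0]
  exact tp_hop hL 0 (fun _ => 0) f hf

theorem cmp (hL : L ≤ L0) (lam e e0 : ℝ) (V0 ψ0 : T d L0 → ℝ) (ψ χ : T d L → ℝ)
    (hχ : Int' χ) (h : ∀ x, Hop lam (fun x => V0 (io d L L0 x)) ψ x = e * ψ x)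
    (h0 : ∀ x, Hop lam V0 ψ0 x = e0 * ψ0 x) (h1 : ∀ x, 1 ≤ ψ x) (h2 : ∀ x, ψ x ≤ 2)
    (h3 : ∀ x, 1 ≤ ψ0 x) (h4 : ∀ x, ψ0 x ≤ 2) : |e - e0| * ∑ x, χ x ^ 2 ≤ 4 * D χ := by
  have hD : 0 ≤ D χ := Finset.sum_nonneg fun x _ => Finset.sum_nonneg fun i _ => sq_nonneg _
  have hmono : ∀ (ψ : T d L → ℝ), (∀ x, 1 ≤ ψ x) → ∑ x, χ x ^ 2 ≤ ∑ x, (ψ x * χ x) ^ 2 := by
    intro ψ hψ
    refine Finset.sum_le_sum fun x _ => ?_
    rw [mul_pow]
    have := hψ x
    nlinarith [sq_nonneg (χ x), mul_nonneg (sub_nonneg.2 this) (sq_nonneg (χ x))]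
  rcases abs_cases (e - e0) with ⟨ha, hb⟩ | ⟨ha, hb⟩
  · -- `e ≥ e0`
    rw [ha]
    set f : T d L → ℝ := fun x => ψ0 (io d L L0 x) * χ x with hf
    have hfi : Int' f := fun x hx => hχ x fun hc => hx (by rw [hf]; simp [hc])
    have hft : tp L0 f = fun y => ψ0 y * tp L0 χ y := by
      funext y
      by_cases hy : y ∈ Set.range (io d L L0)
      · obtain ⟨x, rfl⟩ := hy
        rw [tp_io hL, tp_io hL]
      · rw [tp_out f y hy, tp_out χ y hy, mul_zero]
    have e1 := vlow lam e _ ψ f h h1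
    have e2 := tp_hop hL lam V0 f hfi
    have e3 := vup lam e0 V0 ψ0 (tp L0 χ) h0 h3 h4
    rw [tp_D hL χ hχ] at e3
    have e4 : ∑ y, (ψ0 y * tp L0 χ y) ^ 2 = ∑ x, f x ^ 2 := by
      rw [← tp_sq hL f, hft]
    rw [e4] at e3
    rw [hft] at e2
    have e5 : (e - e0) * ∑ x, f x ^ 2 ≤ 4 * D χ := by linarith
    have e6 := hmono (fun x => ψ0 (io d L L0 x)) (fun x => h3 _)
    calc (e - e0) * ∑ x, χ x ^ 2 ≤ (e - e0) * ∑ x, f x ^ 2 := mul_le_mul_of_nonneg_left e6 hb
      _ ≤ _ := e5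
  · rw [ha]
    set f : T d L → ℝ := fun x => ψ x * χ x with hf
    have hfi : Int' f := fun x hx => hχ x fun hc => hx (by rw [hf]; simp [hc])
    have e1 := vlow lam e0 V0 ψ0 (tp L0 f) h0 h3
    rw [tp_hop hL lam V0 f hfi, tp_sq hL f] at e1
    have e3 := vup lam e _ ψ χ h h1 h2
    have e5 : (e0 - e) * ∑ x, f x ^ 2 ≤ 4 * D χ := by
      have : ∑ x, (ψ x * χ x) * Hop lam (fun x => V0 (io d L L0 x)) (fun y => ψ y * χ y) x =
        ∑ x, f x * Hop lam (fun x => V0 (io d L L0 x)) f x := rfl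
      have e7 : ∑ x, (ψ x * χ x) ^ 2 = ∑ x, f x ^ 2 := rfl
      linarith
    have e6 := hmono ψ h1
    have hb' : 0 ≤ e0 - e := by linarith
    calc -(e - e0) * ∑ x, χ x ^ 2 = (e0 - e) * ∑ x, χ x ^ 2 := by ring
      _ ≤ (e0 - e) * ∑ x, f x ^ 2 := mul_le_mul_of_nonneg_left e6 hb'
      _ ≤ _ := e5

end tr

section tent
variable {d L : ℕ} [NeZero L]

/-- tent function -/
noncomputable def tt (L : ℕ) (j : ZMod L) : ℝ := min (j.val : ℝ) ((L : ℝ) - 1 - j.val)

theorem tt_nonneg (j : ZMod L) : 0 ≤ tt L j := by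
  unfold tt
  apply le_min (Nat.cast_nonneg _)
  have := ZMod.val_lt j
  have h : (j.val : ℝ) + 1 ≤ L := by exact_mod_cast this
  linarith

theorem tt_zero (j : ZMod L) (h : ¬ (0 < j.val ∧ j.val + 1 < L)) : tt L j = 0 := by
  have h1 := tt_nonneg j
  have h2 := ZMod.val_lt j
  refine le_antisymm ?_ h1
  unfold tt
  by_cases h0 : 0 < j.val
  · have h3 : j.val + 1 = L := by
      by_contra hc
      exact h ⟨h0, by omega⟩
    apply min_le_of_right_le
    have h4 : (j.val : ℝ) + 1 = L := by exact_mod_cast h3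
    linarith
  · apply min_le_of_left_le
    have : j.val = 0 := by omega
    rw [this]
    simp

theorem tt_diff (j : ZMod L) : (tt L j - tt L (j + 1)) ^ 2 ≤ 1 := by
  rw [sq_le_one_iff_abs_le_one]
  have h2 := ZMod.val_lt j
  by_cases h : j.val + 1 < L
  · have h1 : (1 : ZMod L).val = 1 := ZMod.val_one'' (by omega)
    have h3 : (j + 1).val = j.val + 1 := by
      rw [ZMod.val_add_of_lt (by rw [h1]; exact h), h1]
    unfold tt
    rw [h3]
    push_cast
    have h4 : (L : ℝ) - 1 - ((j.val : ℝ) + 1) = ((L : ℝ) - 1 - j.val) - 1 := by ring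
    rw [h4]
    set a := (j.val : ℝ)
    set c := (L : ℝ) - 1 - a
    rw [abs_le]
    constructor
    · have : min (a + 1) (c - 1) ≤ min a c + 1 := by
        rcases le_total a c with hac | hac
        · rw [min_eq_left hac]
          exact (min_le_left _ _)
        · rw [min_eq_right hac]
          exact (min_le_right _ _).trans (by linarith)
      linarith
    · have : min a c - 1 ≤ min (a + 1) (c - 1) := by
        apply le_min
        · have := min_le_left a c; linarith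
        · have := min_le_right a c; linarith
      linarith
  · have h3 : tt L j = 0 := tt_zero j (fun hc => h hc.2)
    have h4 : j + 1 = 0 := by
      have h5 : j.val + 1 = L := by omega
      have h6 : ((j.val + 1 : ℕ) : ZMod L) = 0 := by rw [h5]; exact ZMod.natCast_self L
      rw [Nat.cast_add, ZMod.natCast_zmod_val, Nat.cast_one] at h6
      exact h6
    have h5 : tt L (0 : ZMod L) = 0 := tt_zero 0 (by simp)
    rw [h3, h4, h5]
    simp

/-- `∑ t²` -/
noncomputable def SS (L : ℕ) [NeZero L] : ℝ := ∑ j : ZMod L, tt L j ^ 2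

theorem SS_ge (hL : 4 ≤ L) : (L : ℝ) ^ 3 / 256 ≤ SS L := by
  set k := L / 4 with hk
  have hk1 : (L : ℝ) ≤ 8 * k := by
    have : L ≤ 8 * k := by omega
    exact_mod_cast this
  have h4k : 4 * k ≤ L := by omega
  have hinj : Set.InjOn (fun n : ℕ => (n : ZMod L)) (Finset.Ico k (3 * k) : Finset ℕ) := by
    intro a ha b hb hab
    rw [Finset.mem_coe, Finset.mem_Ico] at ha hb
    have h1 : ((a : ℕ) : ZMod L).val = a := ZMod.val_natCast_of_lt (by omega)
    have h2 : ((b : ℕ) : ZMod L).val = b := ZMod.val_natCast_of_lt (by omega)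
    have h3 : (a : ZMod L) = (b : ZMod L) := hab
    rw [← h1, ← h2, h3]
  have h1 : ∑ j ∈ (Finset.Ico k (3 * k)).image (fun n : ℕ => (n : ZMod L)), tt L j ^ 2 ≤ SS L :=
    Finset.sum_le_sum_of_subset_of_nonneg (Finset.subset_univ _) fun j _ _ => sq_nonneg _
  rw [Finset.sum_image hinj] at h1
  have h2 : ∑ _n ∈ Finset.Ico k (3 * k), (k : ℝ) ^ 2 ≤
      ∑ n ∈ Finset.Ico k (3 * k), tt L ((n : ℕ) : ZMod L) ^ 2 := by
    refine Finset.sum_le_sum fun n hn => ?_
    rw [Finset.mem_Ico] at hn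
    have h3 : (n : ZMod L).val = n := ZMod.val_natCast_of_lt (by omega)
    have h4 : (k : ℝ) ≤ tt L (n : ZMod L) := by
      unfold tt
      rw [h3]
      apply le_min
      · exact_mod_cast hn.1
      · have : n + 1 + k ≤ L := by omega
        have h5 : (n : ℝ) + 1 + k ≤ L := by exact_mod_cast this
        linarith
    gcongr
  rw [Finset.sum_const, Nat.card_Ico, nsmul_eq_mul] at h2
  have h3 : ((3 * k - k : ℕ) : ℝ) = 2 * k := by
    have : 3 * k - k = 2 * k := by omega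
    rw [this]; push_cast; ring
  rw [h3] at h2
  have h4 : (L : ℝ) ^ 3 ≤ (8 * k) ^ 3 := by gcongr
  have h5 : (8 * (k : ℝ)) ^ 3 / 256 = 2 * k * (k : ℝ) ^ 2 := by ring
  have h6 : (L : ℝ) ^ 3 / 256 ≤ (8 * (k : ℝ)) ^ 3 / 256 := by gcongr
  linarith

/-- the product of tents -/
noncomputable def ch (d L : ℕ) (x : T d L) : ℝ := ∏ k, tt L (x k)

theorem ch_int : Int' (ch d L) := by
  intro x hx i
  by_contra h
  apply hx
  exact Finset.prod_eq_zero (Finset.mem_univ i) (tt_zero _ h)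

theorem sum_prod (h : Fin d → ZMod L → ℝ) :
    ∑ x : T d L, ∏ k, h k (x k) = ∏ k, ∑ j, h k j := by
  rw [Finset.prod_univ_sum, Fintype.piFinset_univ]

theorem ch_sq : ∑ x, ch d L x ^ 2 = SS L ^ d := by
  have h := sum_prod (d := d) (L := L) (fun _ j => tt L j ^ 2)
  rw [Finset.prod_const, Finset.card_univ, Fintype.card_fin] at h
  unfold SS
  rw [← h]
  refine Finset.sum_congr rfl fun x _ => ?_
  unfold ch
  rw [Finset.prod_pow]

theorem ch_D (hd : 1 ≤ d) : D (ch d L) ≤ d * (L * SS L ^ (d - 1)) := by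
  classical
  unfold D
  rw [Finset.sum_comm]
  have h : ∀ i ∈ (Finset.univ : Finset (Fin d)),
      ∑ x : T d L, (ch d L x - ch d L (x + Pi.single i 1)) ^ 2 ≤ L * SS L ^ (d - 1) := by
    intro i _
    have h1 : ∀ x : T d L, (ch d L x - ch d L (x + Pi.single i 1)) ^ 2 ≤
        ∏ k, (if k = i then (1 : ℝ) else tt L (x k) ^ 2) := by
      intro x
      have h2 : ch d L x = tt L (x i) * ∏ k ∈ Finset.univ.erase i, tt L (x k) :=
        (Finset.mul_prod_erase _ _ (Finset.mem_univ i)).symm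
      have h3 : ch d L (x + Pi.single i 1) =
          tt L (x i + 1) * ∏ k ∈ Finset.univ.erase i, tt L (x k) := by
        have h4 : ch d L (x + Pi.single i 1) = tt L ((x + Pi.single i 1 : T d L) i) *
            ∏ k ∈ Finset.univ.erase i, tt L ((x + Pi.single i 1 : T d L) k) :=
          (Finset.mul_prod_erase _ _ (Finset.mem_univ i)).symm
        rw [h4]
        congr 1
        · rw [Pi.add_apply, Pi.single_eq_same]
        · refine Finset.prod_congr rfl fun k hk => ?_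
          rw [Pi.add_apply, Pi.single_eq_of_ne (Finset.ne_of_mem_erase hk), add_zero]
      have h5 : ∏ k, (if k = i then (1 : ℝ) else tt L (x k) ^ 2) =
          (∏ k ∈ Finset.univ.erase i, tt L (x k)) ^ 2 := by
        rw [← Finset.mul_prod_erase _ _ (Finset.mem_univ i), if_pos rfl, one_mul,
          ← Finset.prod_pow]
        refine Finset.prod_congr rfl fun k hk => ?_
        rw [if_neg (Finset.ne_of_mem_erase hk)]
      rw [h2, h3, h5, ← sub_mul, mul_pow]
      have := mul_le_mul_of_nonneg_right (tt_diff (x i))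
        (sq_nonneg (∏ k ∈ Finset.univ.erase i, tt L (x k)))
      linarith
    have h2 := sum_prod (d := d) (L := L) (fun k j => if k = i then (1 : ℝ) else tt L j ^ 2)
    refine (Finset.sum_le_sum fun x _ => h1 x).trans ?_
    rw [h2, ← Finset.mul_prod_erase _ _ (Finset.mem_univ i)]
    have h3 : ∑ j : ZMod L, (if i = i then (1 : ℝ) else tt L j ^ 2) = L := by
      simp [ZMod.card]
    have h4 : ∏ k ∈ Finset.univ.erase i, ∑ j : ZMod L, (if k = i then (1 : ℝ) else tt L j ^ 2) =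
        SS L ^ (d - 1) := by
      rw [Finset.prod_congr rfl (g := fun _ => SS L), Finset.prod_const,
        Finset.card_erase_of_mem (Finset.mem_univ i), Finset.card_univ, Fintype.card_fin]
      intro k hk
      unfold SS
      refine Finset.sum_congr rfl fun j _ => ?_
      rw [if_neg (Finset.ne_of_mem_erase hk)]
    rw [h3, h4]
  refine (Finset.sum_le_sum h).trans ?_
  rw [Finset.sum_const, Finset.card_univ, Fintype.card_fin, nsmul_eq_mul]

end tent

/-- pointwise identity -/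
theorem pt {d L : ℕ} (lam e : ℝ) (V ψ : T d L → ℝ) (h : ∀ x, Hop lam V ψ x = e * ψ x)
    (h1 : ∀ x, 1 ≤ ψ x) (h2 : ∀ x, ψ x ≤ 2) (x : T d L) : |lam * V x - e| ≤ 2 * d := by
  have h3 := h x
  unfold Hop at h3
  set S := ∑ i : Fin d, (2 * ψ x - ψ (x + Pi.single i 1) - ψ (x - Pi.single i 1)) with hS
  have h4 : S ≤ ∑ _i : Fin d, (2 : ℝ) := by
    refine Finset.sum_le_sum fun i _ => ?_
    linarith [h2 x, h1 (x + Pi.single i 1), h1 (x - Pi.single i 1)]
  have h5 : ∑ _i : Fin d, (-2 : ℝ) ≤ S := by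
    refine Finset.sum_le_sum fun i _ => ?_
    linarith [h1 x, h2 (x + Pi.single i 1), h2 (x - Pi.single i 1)]
  rw [Finset.sum_const, Finset.card_univ, Fintype.card_fin, nsmul_eq_mul] at h4 h5
  have h6 : (lam * V x - e) * ψ x = -S := by linarith
  have h7 : |lam * V x - e| * ψ x = |S| := by
    rw [← abs_neg S, ← h6, abs_mul, abs_of_nonneg (by linarith [h1 x] : 0 ≤ ψ x)]
  have h8 : |S| ≤ 2 * d := by
    rw [abs_le]
    constructor <;> linarith
  nlinarith [abs_nonneg (lam * V x - e), h1 x]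

theorem det (d : ℕ) (hd : 1 ≤ d) {L L0 : ℕ} [NeZero L] [NeZero L0] (hL : L ≤ L0)
    (lam e e0 : ℝ) (V0 ψ0 : T d L0 → ℝ) (ψ : T d L → ℝ)
    (h : ∀ x, Hop lam (fun x => V0 (io d L L0 x)) ψ x = e * ψ x)
    (h0 : ∀ x, Hop lam V0 ψ0 x = e0 * ψ0 x) (h1 : ∀ x, 1 ≤ ψ x) (h2 : ∀ x, ψ x ≤ 2)
    (h3 : ∀ x, 1 ≤ ψ0 x) (h4 : ∀ x, ψ0 x ≤ 2) : |e - e0| ≤ 1024 * d / (L : ℝ) ^ 2 := by
  have hLpos : (0 : ℝ) < L := by exact_mod_cast Nat.pos_of_ne_zero (NeZero.ne L)
  have hdpos : (1 : ℝ) ≤ d := by exact_mod_cast hd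
  by_cases hL4 : 4 ≤ L
  · have a1 := cmp hL lam e e0 V0 ψ0 ψ (ch d L) ch_int h h0 h1 h2 h3 h4
    have a2 := ch_D (d := d) (L := L) hd
    rw [ch_sq] at a1
    have a3 := SS_ge (L := L) hL4
    have hSpos : 0 < SS L := lt_of_lt_of_le (by positivity) a3
    have a4 : SS L ^ d = SS L * SS L ^ (d - 1) := by
      rw [← pow_succ']
      congr 1
      omega
    rw [a4] at a1
    have hP : 0 < SS L ^ (d - 1) := by positivity
    have a5 : |e - e0| * SS L ≤ 4 * (d * L) := by
      have : (|e - e0| * SS L) * SS L ^ (d - 1) ≤ (4 * (d * L)) * SS L ^ (d - 1) := by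
        calc (|e - e0| * SS L) * SS L ^ (d - 1) = |e - e0| * (SS L * SS L ^ (d - 1)) := by ring
          _ ≤ 4 * D (ch d L) := a1
          _ ≤ 4 * (d * (L * SS L ^ (d - 1))) := by linarith
          _ = _ := by ring
      exact le_of_mul_le_mul_right this hP
    have a6 : |e - e0| * ((L : ℝ) ^ 3 / 256) ≤ 4 * (d * L) :=
      (mul_le_mul_of_nonneg_left a3 (abs_nonneg _)).trans a5
    rw [le_div_iff₀ (by positivity)]
    have a7 : |e - e0| * (L : ℝ) ^ 2 * L ≤ 1024 * d * L := by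
      have : |e - e0| * (L : ℝ) ^ 2 * L = (|e - e0| * ((L : ℝ) ^ 3 / 256)) * 256 := by ring
      rw [this]
      nlinarith
    exact le_of_mul_le_mul_right a7 hLpos
  · have b1 := pt lam e _ ψ h h1 h2 0
    have b2 := pt lam e0 V0 ψ0 h0 h3 h4 (io d L L0 0)
    have b3 : |e - e0| ≤ 4 * d := by
      have : e - e0 = -(lam * V0 (io d L L0 0) - e) + (lam * V0 (io d L L0 0) - e0) := by ring
      rw [this]
      refine (abs_add_le _ _).trans ?_
      rw [abs_neg]
      linarith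
    refine b3.trans ?_
    rw [le_div_iff₀ (by positivity)]
    have hL3 : (L : ℝ) ≤ 3 := by exact_mod_cast (by omega : L ≤ 3)
    have hL9 : (L : ℝ) ^ 2 ≤ 3 ^ 2 := by gcongr
    have : 4 * (d : ℝ) * (L : ℝ) ^ 2 ≤ 4 * d * 3 ^ 2 := by gcongr
    linarith

section prob

theorem map_pi {α β : Type*} [Fintype α] [Fintype β] (μ : Measure ℝ) [IsProbabilityMeasure μ]
    (f : β → α) (hf : Function.Injective f) :
    (Measure.pi fun _ : α => μ).map (fun V : α → ℝ => fun x => V (f x)) =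
      Measure.pi fun _ : β => μ := by
  classical
  symm
  apply Measure.pi_eq
  intro s hs
  have hm : Measurable (fun V : α → ℝ => fun x => V (f x)) :=
    measurable_pi_lambda _ fun x => measurable_pi_apply _
  rw [Measure.map_apply hm (MeasurableSet.univ_pi hs)]
  have h1 : (fun V : α → ℝ => fun x => V (f x)) ⁻¹' (Set.univ.pi s) =
      Set.univ.pi (fun a => if h : ∃ x, f x = a then s h.choose else Set.univ) := by
    ext V
    simp only [Set.mem_preimage, Set.mem_pi, Set.mem_univ, true_implies]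
    constructor
    · intro h a
      by_cases ha : ∃ x, f x = a
      · rw [dif_pos ha]
        have := h ha.choose
        rwa [ha.choose_spec] at this
      · rw [dif_neg ha]
        trivial
    · intro h x
      have h2 := h (f x)
      have ha : ∃ x', f x' = f x := ⟨x, rfl⟩
      rw [dif_pos ha] at h2
      have h3 : ha.choose = x := hf ha.choose_spec
      rwa [h3] at h2
  rw [h1, Measure.pi_pi]
  symm
  apply Fintype.prod_of_injective f hf
  · intro a ha
    have ha' : ¬ ∃ x, f x = a := ha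
    rw [dif_neg ha', measure_univ]
  · intro x
    have ha : ∃ x', f x' = f x := ⟨x, rfl⟩
    rw [dif_pos ha]
    have h3 : ha.choose = x := hf ha.choose_spec
    rw [h3]

end prob

/-- the deterministic energies on tori of different sizes are close -/
theorem el (d : ℕ) (hd : 1 ≤ d) : ∃ C : ℝ, 0 < C ∧
    ∀ (μ : Measure ℝ) [IsProbabilityMeasure μ] (lam : ℝ) (L L0 : ℕ) [NeZero L] [NeZero L0],
    L ≤ L0 → ∀ (E E' κ κ' : ℝ) (G : Set (AE.T d L → ℝ)) (G0 : Set (AE.T d L0 → ℝ)),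
    MeasurableSet G → MeasurableSet G0 →
    1 / 2 < (Measure.pi fun _ : AE.T d L => μ).real G →
    1 / 2 < (Measure.pi fun _ : AE.T d L0 => μ).real G0 →
    (∀ V ∈ G, AE.Core.FlatE lam 1 κ E V) → (∀ V ∈ G0, AE.Core.FlatE lam 1 κ' E' V) →
    |E - E'| ≤ κ + κ' + C / (L : ℝ) ^ 2 := by
  refine ⟨1024 * d, by positivity, ?_⟩
  intro μ _ lam L L0 _ _ hL E E' κ κ' G G0 hG hG0 hP hP0 hF hF0
  set R : (AE.T d L0 → ℝ) → (AE.T d L → ℝ) := fun V x => V (io d L L0 x) with hR
  have hRm : Measurable R := measurable_pi_lambda _ fun x => measurable_pi_apply _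
  have hmap := map_pi μ (io d L L0) (io_inj hL)
  have hP' : 1 / 2 < (Measure.pi fun _ : AE.T d L0 => μ).real (R ⁻¹' G) := by
    rw [← hmap, map_measureReal_apply hRm hG] at hP
    exact hP
  obtain ⟨V0, hV0, hV1⟩ : ∃ V0, V0 ∈ G0 ∧ R V0 ∈ G := by
    by_contra hcon
    push Not at hcon
    have hdisj : Disjoint G0 (R ⁻¹' G) := Set.disjoint_left.2 hcon
    have h1 := measureReal_union (μ := Measure.pi fun _ : AE.T d L0 => μ) hdisj (hRm hG)
    have h2 : (Measure.pi fun _ : AE.T d L0 => μ).real (G0 ∪ R ⁻¹' G) ≤ 1 := measureReal_le_one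
    linarith
  obtain ⟨e, ψ, he, hψ, heig, -⟩ := hF _ hV1
  obtain ⟨e0, ψ0, he0, hψ0, heig0, -⟩ := hF0 _ hV0
  have h1 := det d hd hL lam e e0 V0 ψ0 ψ heig heig0 (fun x => (hψ x).1)
    (fun x => by linarith [(hψ x).2]) (fun x => (hψ0 x).1) (fun x => by linarith [(hψ0 x).2])
  have h2 : E - E' = -(e - E) + (e - e0) + (e0 - E') := by ring
  rw [h2]
  refine (abs_add_le _ _).trans ?_
  have h3 := abs_add_le (-(e - E)) (e - e0)
  rw [abs_neg] at h3
  linarith

end El

end Pool.Agent.H4R2.LO
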