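import Pool.Agent.H4R2.LO.Main

/-! Final assembly, common part. -/

set_option autoImplicit false

open scoped BigOperators ENNReal
open MeasureTheory

namespace Pool.Agent.H4R2.LO.Fin

open Pool.Agent.H4R2

theorem exp_ge_sq (y : ℝ) (hy : 0 ≤ y) : y ^ 2 / 2 ≤ Real.exp y := by
  have := Real.quadratic_le_exp_of_nonneg hy
  linarith

theorem flatE_mono {d L : ℕ} [NeZero L] (lam η κ E : ℝ) (hη : η ≤ 1) (V : AE.T d L → ℝ)
    (h : AE.Core.FlatE lam η κ E V) : AE.Core.FlatE lam 1 κ E V := by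
  obtain ⟨E0, ψ, h1, h2, h3, h4⟩ := h
  exact ⟨E0, ψ, h1, fun x => ⟨(h2 x).1, by linarith [(h2 x).2]⟩, h3, h4⟩

/-- parameters -/
theorem params (C c : ℝ) (hC : 1 ≤ C) (hc : 0 < c) : ∃ k s0 : ℝ, 0 < k ∧ k ≤ 1 ∧ k ≤ c / 8 ∧
    k ≤ 1 / (4 * C) ∧ 0 < s0 ∧ s0 ≤ 1 ∧
    ∀ s lam κ : ℝ, 0 < s → s ≤ s0 → s ≤ lam → lam ≤ 1 → Real.exp (-k / s) ≤ κ → κ ≤ 1 →
      4 ≤ Real.exp (k / s) ∧ (2 / (κ / 2 * lam)) ^ C ≤ Real.exp (c / s) / 2 ∧
      (2 / (κ / 2 * lam)) ^ C * Real.exp (-c / s) ≤ 1 := by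
  set k : ℝ := min 1 (min (c / (8 * C)) (1 / (4 * C))) with hk
  have hC0 : 0 < C := by linarith
  have hk0 : 0 < k := lt_min one_pos (lt_min (by positivity) (by positivity))
  have hk1 : k ≤ 1 := min_le_left _ _
  have hkc : k ≤ c / (8 * C) := (min_le_right _ _).trans (min_le_left _ _)
  have hkC : k ≤ 1 / (4 * C) := (min_le_right _ _).trans (min_le_right _ _)
  have hkc2 : k ≤ c / 8 := by
    refine hkc.trans ?_
    apply div_le_div_of_nonneg_left hc.le (by norm_num)
    linarith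
  refine ⟨k, k ^ 2 / 8, hk0, hk1, hkc2, hkC, by positivity, by nlinarith, ?_⟩
  intro s lam κ hs hs0 hsl hl1 hκ hκ1
  have hy : 0 < k / s := by positivity
  have h8 : 8 / k ≤ k / s := by
    rw [div_le_div_iff₀ hk0 hs]
    nlinarith
  have h4s : 4 / s ≤ Real.exp (k / s) := by
    refine le_trans ?_ (exp_ge_sq (k / s) hy.le)
    have e1 : (k / s) ^ 2 / 2 = (k ^ 2 / (2 * s)) / s := by field_simp
    rw [e1]
    apply div_le_div_of_nonneg_right _ hs.le
    rw [le_div_iff₀ (by positivity)]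
    nlinarith
  have h4 : 4 ≤ Real.exp (k / s) := by
    refine le_trans ?_ h4s
    rw [le_div_iff₀ hs]
    have : s ≤ 1 := hsl.trans hl1
    linarith
  have hlam : 0 < lam := lt_of_lt_of_le hs hsl
  have hκ0 : 0 < κ := lt_of_lt_of_le (Real.exp_pos _) hκ
  have hbase : 2 / (κ / 2 * lam) ≤ Real.exp (2 * k / s) := by
    have e1 : 2 / (κ / 2 * lam) = (4 / lam) * κ⁻¹ := by
      field_simp
      norm_num
    rw [e1]
    have e2 : κ⁻¹ ≤ Real.exp (k / s) := by
      rw [← inv_inv (Real.exp (k / s)), ← Real.exp_neg]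
      apply inv_anti₀ (Real.exp_pos _)
      rwa [neg_div] at hκ
    have e3 : 4 / lam ≤ Real.exp (k / s) := by
      refine le_trans ?_ h4s
      apply div_le_div_of_nonneg_left (by norm_num) hs hsl
    calc (4 / lam) * κ⁻¹ ≤ Real.exp (k / s) * Real.exp (k / s) :=
          mul_le_mul e3 e2 (by positivity) (Real.exp_pos _).le
      _ = Real.exp (2 * k / s) := by
          rw [← Real.exp_add]
          congr 1
          ring
  have hpow : (2 / (κ / 2 * lam)) ^ C ≤ Real.exp (c / (4 * s)) := by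
    calc (2 / (κ / 2 * lam)) ^ C ≤ (Real.exp (2 * k / s)) ^ C :=
          Real.rpow_le_rpow (by positivity) hbase hC0.le
      _ = Real.exp (2 * k / s * C) := by rw [← Real.exp_mul]
      _ ≤ Real.exp (c / (4 * s)) := by
          apply Real.exp_le_exp.2
          have e4 : 2 * k * C ≤ c / 4 := by
            rw [le_div_iff₀ (by positivity)] at hkc
            linarith
          have e5 : 2 * k / s * C = (2 * k * C) / s := by ring
          have e6 : c / (4 * s) = (c / 4) / s := by field_simp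
          rw [e5, e6]
          exact div_le_div_of_nonneg_right e4 hs.le
  have hcs : k / s ≤ c / (8 * s) := by
    have e6 : c / (8 * s) = (c / 8) / s := by field_simp
    rw [e6]
    exact div_le_div_of_nonneg_right hkc2 hs.le
  refine ⟨h4, ?_, ?_⟩
  · refine hpow.trans ?_
    have e7 : Real.exp (c / s) = Real.exp (c / (4 * s)) * Real.exp (3 * c / (4 * s)) := by
      rw [← Real.exp_add]
      congr 1
      field_simp
      ring
    have e8 : 2 ≤ Real.exp (3 * c / (4 * s)) := by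
      have e9 : Real.exp (k / s) ≤ Real.exp (3 * c / (4 * s)) := by
        apply Real.exp_le_exp.2
        refine hcs.trans ?_
        rw [div_le_div_iff₀ (by positivity) (by positivity)]
        nlinarith [mul_pos hc hs]
      linarith
    rw [e7]
    have := Real.exp_pos (c / (4 * s))
    nlinarith
  · calc (2 / (κ / 2 * lam)) ^ C * Real.exp (-c / s)
        ≤ Real.exp (c / (4 * s)) * Real.exp (-c / s) :=
          mul_le_mul_of_nonneg_right hpow (Real.exp_pos _).le
      _ = Real.exp (c / (4 * s) + -c / s) := by rw [Real.exp_add]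
      _ ≤ 1 := by
          apply Real.exp_le_one_iff.2
          have : c / (4 * s) + -c / s = -(3 * c / (4 * s)) := by
            field_simp
            ring
          rw [this]
          have : 0 ≤ 3 * c / (4 * s) := by positivity
          linarith

/-- common final statement -/
theorem fin (d : ℕ) (hd : 1 ≤ d) (B c : ℝ) (hB : 0 < B) (hc : 0 < c) :
    ∃ k s0 K : ℝ, 0 < k ∧ 0 < s0 ∧ 0 < K ∧
    ∀ (μ : Measure ℝ) [IsProbabilityMeasure μ], Reg B μ → ∀ s lam η b : ℝ, 0 < s → s ≤ s0 →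
      s ≤ lam → lam ≤ 1 → η ≤ 1 →
      (∀ (L : ℕ) [NeZero L], (L : ℝ) ≤ Real.exp (c / s) → ∃ E : ℝ, |E| ≤ b ∧
        ∃ G : Set (AE.T d L → ℝ), MeasurableSet G ∧
          1 - Real.exp (-c / s) ≤ (Measure.pi fun _ : AE.T d L => μ).real G ∧
          ∀ V ∈ G, AE.Core.FlatE lam η (1 / (L : ℝ) ^ 2) E V) →
      ∃ Es : ℝ, |Es| ≤ b ∧
        (∀ (L : ℕ) [NeZero L], (L : ℝ) ≤ Real.exp (k / s) →
          ∃ G : Set (AE.T d L → ℝ), MeasurableSet G ∧
            1 - Real.exp (-k / s) ≤ (Measure.pi fun _ : AE.T d L => μ).real G ∧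
            ∀ V ∈ G, ∃ (E0 : ℝ) (ψ : AE.T d L → ℝ), |E0 - Es| ≤ K / (L : ℝ) ^ 2 ∧
              (∀ x, 1 ≤ ψ x ∧ ψ x ≤ 1 + η) ∧ ∀ x, AE.Hop lam V ψ x = E0 * ψ x) ∧
        ∀ κ : ℝ, Real.exp (-k / s) ≤ κ → κ ≤ 1 →
          ∀ᵐ ω ∂(Measure.infinitePi fun _ : Zd d => μ),
            Main.Dec d (-1) (fun x => lam * ω x) (Set.Iic (Es - 2 * d - κ))
              (k * Real.sqrt κ / Real.log (2 / (κ * lam))) := by
  obtain ⟨C, hC, Hb⟩ := Main.below d hd B hB
  obtain ⟨K, hK, He⟩ := El.el d hd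
  obtain ⟨k, s0, hk, hk1, hkc, hkC, hs0, hs01, Hp⟩ := params C c hC hc
  refine ⟨k, s0, K + 3, hk, hs0, by linarith, ?_⟩
  intro μ _ hμ s lam η b hs hss hsl hl1 hη HT
  have hC0 : 0 < C := by linarith
  have hlam : 0 < lam := lt_of_lt_of_le hs hsl
  -- the size of the large torus
  have hp1 := Hp s lam 1 hs hss hsl hl1 (by
    apply Real.exp_le_one_iff.2
    have : 0 < k / s := by positivity
    rw [neg_div]
    linarith) le_rfl
  have hks : 4 ≤ Real.exp (k / s) := hp1.1
  have hcs : Real.exp (k / s) ≤ Real.exp (c / s) := by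
    apply Real.exp_le_exp.2
    apply div_le_div_of_nonneg_right _ hs.le
    linarith
  have hc8 : Real.exp (k / s) ^ 8 ≤ Real.exp (c / s) := by
    rw [← Real.exp_nat_mul]
    apply Real.exp_le_exp.2
    have e1 : ((8 : ℕ) : ℝ) * (k / s) = (8 * k) / s := by
      push_cast
      ring
    rw [e1]
    apply div_le_div_of_nonneg_right _ hs.le
    linarith
  set L0 : ℕ := ⌊Real.exp (c / s)⌋₊ with hL0
  have hL0le : (L0 : ℝ) ≤ Real.exp (c / s) := Nat.floor_le (Real.exp_pos _).le
  have hL0ge : Real.exp (c / s) / 2 ≤ L0 := by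
    have h1 := Nat.lt_floor_add_one (Real.exp (c / s))
    rw [← hL0] at h1
    have h2 : 4 ≤ Real.exp (c / s) := hks.trans hcs
    linarith
  have hL0pos : 0 < L0 := by
    have h2 : 4 ≤ Real.exp (c / s) := hks.trans hcs
    have h3 : (0 : ℝ) < L0 := by linarith
    exact_mod_cast h3
  haveI : NeZero L0 := ⟨hL0pos.ne'⟩
  obtain ⟨Es, hEs, G0, hG0, hP0, hflat0⟩ := HT L0 hL0le
  have hexpc : Real.exp (-c / s) ≤ Real.exp (-k / s) := by
    apply Real.exp_le_exp.2
    apply div_le_div_of_nonneg_right _ hs.le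
    linarith
  have hexpk : Real.exp (-k / s) ≤ 1 / 4 := by
    rw [neg_div, Real.exp_neg, ← one_div]
    exact one_div_le_one_div_of_le (by norm_num) hks
  refine ⟨Es, hEs, ?_, ?_⟩
  · intro L _ hL
    have hLpos : 0 < L := Nat.pos_of_ne_zero (NeZero.ne L)
    have hLpos' : (0 : ℝ) < L := by exact_mod_cast hLpos
    obtain ⟨E, hE, G, hG, hP, hflat⟩ := HT L (hL.trans hcs)
    have hLL0 : L ≤ L0 := by
      have h1 : (L : ℝ) ≤ L0 := by
        refine hL.trans (le_trans ?_ hL0ge)
        have h2 : Real.exp (k / s) * 4 ≤ Real.exp (k / s) ^ 8 := by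
          have h3 : (4 : ℝ) ≤ Real.exp (k / s) ^ 7 := by
            calc (4 : ℝ) ≤ Real.exp (k / s) := hks
              _ = Real.exp (k / s) ^ 1 := (pow_one _).symm
              _ ≤ Real.exp (k / s) ^ 7 := pow_le_pow_right₀ (by linarith) (by norm_num)
          have h5 := mul_le_mul_of_nonneg_left h3 (Real.exp_pos (k / s)).le
          calc Real.exp (k / s) * 4 ≤ Real.exp (k / s) * Real.exp (k / s) ^ 7 := h5
            _ = _ := by ring
        have h4 := Real.exp_pos (k / s)
        linarith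
      exact_mod_cast h1
    have hd1 := He μ lam L L0 hLL0 E Es (1 / (L : ℝ) ^ 2) (1 / (L0 : ℝ) ^ 2) G G0 hG hG0
      (by linarith) (by linarith) (fun V hV => flatE_mono lam η _ E hη V (hflat V hV))
      (fun V hV => flatE_mono lam η _ Es hη V (hflat0 V hV))
    have hL02 : 1 / (L0 : ℝ) ^ 2 ≤ 1 / (L : ℝ) ^ 2 := by
      apply one_div_le_one_div_of_le (by positivity)
      have h6 : (L : ℝ) ≤ L0 := by exact_mod_cast hLL0
      exact pow_le_pow_left₀ hLpos'.le h6 2
    refine ⟨G, hG, by linarith, fun V hV => ?_⟩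
    obtain ⟨E0, ψ, h1, h2, h3, _⟩ := hflat V hV
    refine ⟨E0, ψ, ?_, h2, h3⟩
    have e1 : E0 - Es = (E0 - E) + (E - Es) := by ring
    rw [e1]
    refine (abs_add_le _ _).trans ?_
    have e2 : (K + 3) / (L : ℝ) ^ 2 = 1 / (L : ℝ) ^ 2 +
        (1 / (L : ℝ) ^ 2 + 1 / (L : ℝ) ^ 2 + K / (L : ℝ) ^ 2) := by ring
    rw [e2]
    linarith
  · intro κ hκ hκ1
    have hκ0 : 0 < κ := lt_of_lt_of_le (Real.exp_pos _) hκ
    obtain ⟨_, hp2, hp3⟩ := Hp s lam κ hs hss hsl hl1 hκ hκ1
    have hT : TorusBound d L0 μ lam (Es - 1 / (L0 : ℝ) ^ 2) (Real.exp (-c / s)) :=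
      Main.torusBound_of μ lam η _ Es _ G0 hG0 hP0 hflat0
    have hb := Hb μ hμ lam hlam hl1 L0 (Es - 1 / (L0 : ℝ) ^ 2) (Real.exp (-c / s))
      (Real.exp_pos _).le hT (κ / 2) (by positivity) (by linarith) (hp2.trans hL0ge) hp3
    have hL0small : 1 / (L0 : ℝ) ^ 2 ≤ κ / 2 := by
      have h1 : (0 : ℝ) < L0 := by exact_mod_cast hL0pos
      have h2 : 2 * Real.exp (k / s) ≤ (L0 : ℝ) ^ 2 := by
        have h3 : Real.exp (k / s) ^ 2 ≤ (L0 : ℝ) ^ 2 := by
          apply pow_le_pow_left₀ (Real.exp_pos _).le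
          refine le_trans ?_ hL0ge
          have h4 : Real.exp (k / s) * 4 ≤ Real.exp (k / s) ^ 8 := by
            have h3 : (4 : ℝ) ≤ Real.exp (k / s) ^ 7 := by
              calc (4 : ℝ) ≤ Real.exp (k / s) := hks
                _ = Real.exp (k / s) ^ 1 := (pow_one _).symm
                _ ≤ Real.exp (k / s) ^ 7 := pow_le_pow_right₀ (by linarith) (by norm_num)
            have h5 := mul_le_mul_of_nonneg_left h3 (Real.exp_pos (k / s)).le
            calc Real.exp (k / s) * 4 ≤ Real.exp (k / s) * Real.exp (k / s) ^ 7 := h5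
              _ = _ := by ring
          have h5 := Real.exp_pos (k / s)
          linarith
        have h6 : 2 * Real.exp (k / s) ≤ Real.exp (k / s) ^ 2 := by
          rw [sq]
          exact mul_le_mul_of_nonneg_right (by linarith) (Real.exp_pos _).le
        linarith
      rw [div_le_iff₀ (by positivity)]
      have h7 : κ⁻¹ ≤ Real.exp (k / s) := by
        rw [← inv_inv (Real.exp (k / s)), ← Real.exp_neg]
        apply inv_anti₀ (Real.exp_pos _)
        rwa [neg_div] at hκ
      have h8 : 1 ≤ κ * Real.exp (k / s) := by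
        have := mul_le_mul_of_nonneg_left h7 hκ0.le
        rwa [mul_inv_cancel₀ hκ0.ne'] at this
      nlinarith
    filter_upwards [hb] with ω hω
    refine Main.dec_mono _ _ _ _ _ _ hω ?_ ?_
    · apply Set.Iic_subset_Iic.2
      linarith
    · -- rate
      have hbase : 2 ≤ 2 / (κ * lam) := by
        rw [le_div_iff₀ (by positivity)]
        have : κ * lam ≤ 1 := by nlinarith
        linarith
      have hX : 0 < Real.log (2 / (κ * lam)) := Real.log_pos (by linarith)
      have hX2 : Real.log (2 / (κ / 2 * lam)) ≤ 2 * Real.log (2 / (κ * lam)) := by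
        have e1 : 2 / (κ / 2 * lam) = 2 * (2 / (κ * lam)) := by
          field_simp
        rw [e1, Real.log_mul (by norm_num) (by positivity)]
        have e2 := Real.log_le_log (by norm_num) hbase
        linarith
      have hX2pos : 0 < Real.log (2 / (κ / 2 * lam)) := by
        apply Real.log_pos
        have e1 : 2 / (κ / 2 * lam) = 2 * (2 / (κ * lam)) := by
          field_simp
        rw [e1]
        linarith
      have hsq : Real.sqrt κ / 2 ≤ Real.sqrt (κ / 2) := by
        rw [Real.le_sqrt (by positivity) (by positivity), div_pow, Real.sq_sqrt hκ0.le]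
        linarith
      have hkC' : k * (4 * C) ≤ 1 := by
        rwa [le_div_iff₀ (by positivity)] at hkC
      rw [div_le_div_iff₀ hX (by positivity)]
      have e5 : k * Real.sqrt κ * (C * Real.log (2 / (κ / 2 * lam))) ≤
          k * Real.sqrt κ * (C * (2 * Real.log (2 / (κ * lam)))) := by
        have := Real.sqrt_nonneg κ
        gcongr
      refine e5.trans ?_
      have e6 : k * Real.sqrt κ * (C * (2 * Real.log (2 / (κ * lam)))) =
          (k * (4 * C)) * (Real.sqrt κ / 2) * Real.log (2 / (κ * lam)) := by ring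
      rw [e6]
      have h0 := Real.sqrt_nonneg κ
      calc (k * (4 * C)) * (Real.sqrt κ / 2) * Real.log (2 / (κ * lam))
          ≤ 1 * (Real.sqrt κ / 2) * Real.log (2 / (κ * lam)) := by gcongr
        _ ≤ Real.sqrt (κ / 2) * Real.log (2 / (κ * lam)) := by
            rw [one_mul]
            exact mul_le_mul_of_nonneg_right hsq hX.le

end Pool.Agent.H4R2.LO.Fin
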