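import Pool.Agent.H4R2.LO.Defs
import Pool.Agent.H10R2.PL.Sec

/-!
# Team LO, task WG: Wegner estimate at a fixed energy, almost sure invertibility (helper503)
-/

set_option autoImplicit false

open scoped BigOperators ENNReal
open MeasureTheory

namespace Pool.Agent.H4R2.LO

namespace Wg

variable {ι : Type*} [Fintype ι] [DecidableEq ι]

private lemma wg_hm_apply (A : Matrix ι ι ℝ) (lam : ℝ) (V : ι → ℝ) (E : ℝ) (f : ι → ℝ) (i : ι) :
    (Hm A lam V E).mulVec f i = (∑ j, A i j * f j) + (lam * V i - E) * f i := by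
  unfold Hm
  rw [Matrix.add_mulVec, Pi.add_apply, Matrix.mulVec_diagonal]
  rfl

/-- an approximate null vector forces a large density of states -/
private lemma wg_near_le (A : Matrix ι ι ℝ) (hA : A.IsSymm) (lam : ℝ) (hlam : 0 < lam)
    (E δ : ℝ) (hδ : 0 < δ) (V : ι → ℝ) (h : Near (Hm A lam V E) δ) :
    1 / (2 * (δ / lam)) ≤ ∑ x, H10PL.Pm (lam⁻¹ • A) V (E / lam) (δ / lam) x x := by
  obtain ⟨f, hf, hle⟩ := h
  have hd' : 0 < δ / lam := div_pos hδ hlam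
  have hA' : (lam⁻¹ • A).IsSymm := hA.smul _
  set η : ℝ := δ / lam with hη
  set F : ι → ℂ := fun i => (f i : ℂ) with hF
  set w : ι → ℂ := (H10PL.Mz (lam⁻¹ • A) V (E / lam) η).mulVec F with hw
  have hwi : ∀ i, w i = (((Hm A lam V E).mulVec f i / lam : ℝ) : ℂ) - (η * f i : ℝ) * Complex.I := by
    intro i
    rw [hw, H10PL.Mz_mulVec, wg_hm_apply]
    simp only [hF, Matrix.smul_apply, smul_eq_mul]
    push_cast
    have hl : (lam : ℂ) ≠ 0 := by exact_mod_cast hlam.ne'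
    have : ∑ x, (lam : ℂ)⁻¹ * (A i x : ℂ) * (f x : ℂ) = (∑ x, (A i x : ℂ) * (f x : ℂ)) / lam := by
      rw [Finset.sum_div]
      refine Finset.sum_congr rfl fun x _ => ?_
      field_simp
    rw [this]
    field_simp
    ring
  have hwn : ∀ i, ‖w i‖ ^ 2 = ((Hm A lam V E).mulVec f i) ^ 2 / lam ^ 2 + η ^ 2 * f i ^ 2 := by
    intro i
    rw [hwi, ← Complex.normSq_eq_norm_sq, Complex.normSq_apply]
    simp
    ring
  have hsum : ∑ i, ‖w i‖ ^ 2 ≤ 2 * η ^ 2 * ∑ i, f i ^ 2 := by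
    simp only [hwn]
    rw [Finset.sum_add_distrib, ← Finset.sum_div, ← Finset.mul_sum]
    have h1 : (∑ i, ((Hm A lam V E).mulVec f i) ^ 2) / lam ^ 2 ≤ η ^ 2 * ∑ i, f i ^ 2 := by
      rw [div_le_iff₀ (by positivity), hη, div_pow]
      have : δ ^ 2 / lam ^ 2 * (∑ i, f i ^ 2) * lam ^ 2 = δ ^ 2 * ∑ i, f i ^ 2 := by
        field_simp
      rw [this]
      exact hle
    linarith
  have hGF : ∀ i, F i = ∑ j, H10PL.Gm (lam⁻¹ • A) V (E / lam) η i j * w j := by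
    intro i
    have h1 : (H10PL.Gm (lam⁻¹ • A) V (E / lam) η).mulVec w = F := by
      rw [hw, Matrix.mulVec_mulVec, H10PL.Gm_mul_Mz _ hA' V _ hd', Matrix.one_mulVec]
    exact (congrFun h1 i).symm
  have hF2 : ∀ i, f i ^ 2 ≤
      (∑ j, ‖H10PL.Gm (lam⁻¹ • A) V (E / lam) η i j‖ ^ 2) * ∑ j, ‖w j‖ ^ 2 := by
    intro i
    have h1 : f i ^ 2 = ‖F i‖ ^ 2 := by simp [hF]
    rw [h1, hGF i]
    calc ‖∑ j, H10PL.Gm (lam⁻¹ • A) V (E / lam) η i j * w j‖ ^ 2
        ≤ (∑ j, ‖H10PL.Gm (lam⁻¹ • A) V (E / lam) η i j‖ * ‖w j‖) ^ 2 := by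
          refine pow_le_pow_left₀ (norm_nonneg _) ?_ 2
          refine (norm_sum_le _ _).trans (le_of_eq ?_)
          exact Finset.sum_congr rfl fun j _ => norm_mul _ _
      _ ≤ _ := Finset.sum_mul_sq_le_sq_mul_sq _ _ _
  have hfpos : 0 < ∑ i, f i ^ 2 := by
    obtain ⟨i, hi⟩ : ∃ i, f i ≠ 0 := by
      by_contra hcon
      push Not at hcon
      exact hf (funext hcon)
    exact Finset.sum_pos' (fun _ _ => sq_nonneg _) ⟨i, Finset.mem_univ _, by positivity⟩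
  have hGG : ∑ i, ∑ j, ‖H10PL.Gm (lam⁻¹ • A) V (E / lam) η i j‖ ^ 2 =
      (∑ x, H10PL.Pm (lam⁻¹ • A) V (E / lam) η x x) / η := by
    rw [Finset.sum_comm, Finset.sum_div]
    exact Finset.sum_congr rfl fun x _ => H10PL.ward _ hA' V _ hd' x
  have hmain : ∑ i, f i ^ 2 ≤
      (∑ x, H10PL.Pm (lam⁻¹ • A) V (E / lam) η x x) / η * (2 * η ^ 2 * ∑ i, f i ^ 2) := by
    calc ∑ i, f i ^ 2 ≤ ∑ i, (∑ j, ‖H10PL.Gm (lam⁻¹ • A) V (E / lam) η i j‖ ^ 2) *
          ∑ j, ‖w j‖ ^ 2 := Finset.sum_le_sum fun i _ => hF2 i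
      _ = (∑ x, H10PL.Pm (lam⁻¹ • A) V (E / lam) η x x) / η * ∑ j, ‖w j‖ ^ 2 := by
          rw [← Finset.sum_mul, hGG]
      _ ≤ _ := by
          refine mul_le_mul_of_nonneg_left hsum ?_
          rw [← hGG]
          positivity
  set P := ∑ x, H10PL.Pm (lam⁻¹ • A) V (E / lam) η x x with hP
  have h3 : P / η * (2 * η ^ 2 * ∑ i, f i ^ 2) = (2 * η * P) * ∑ i, f i ^ 2 := by
    field_simp
  rw [h3] at hmain
  have h4 : 1 ≤ 2 * η * P := by
    by_contra hcon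
    push Not at hcon
    nlinarith
  rw [div_le_iff₀ (by positivity)]
  linarith

private lemma wg_meas (A : Matrix ι ι ℝ) (E η : ℝ) :
    Measurable fun V : ι → ℝ => ∑ x, H10PL.Pm A V E η x x :=
  Finset.measurable_fun_sum _ fun y _ => H10PL.Mom.meas_V A E η y

/-- Wegner estimate at a fixed energy -/
theorem wegner (μ : Measure ℝ) [IsProbabilityMeasure μ] (D : ℝ) (hD : 0 < D)
    (hμ : μ ≤ ENNReal.ofReal D • (volume : Measure ℝ)) (A : Matrix ι ι ℝ) (hA : A.IsSymm)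
    (hd : ∀ i, A i i = 0) (lam : ℝ) (hlam : 0 < lam) (E δ : ℝ) (hδ : 0 < δ) :
    ∃ S : Set (ι → ℝ), MeasurableSet S ∧ (∀ V, Near (Hm A lam V E) δ → V ∈ S) ∧
      (Measure.pi fun _ : ι => μ) S ≤ ENNReal.ofReal (8 * D / lam * δ * Fintype.card ι) := by
  have hd' : 0 < δ / lam := div_pos hδ hlam
  have hA' : (lam⁻¹ • A).IsSymm := hA.smul _
  have hdg : ∀ i, (lam⁻¹ • A) i i = 0 := by
    intro i
    rw [Matrix.smul_apply, hd i, smul_zero]
  refine ⟨{V | 1 / (2 * (δ / lam)) ≤ ∑ x, H10PL.Pm (lam⁻¹ • A) V (E / lam) (δ / lam) x x},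
    measurableSet_le measurable_const (wg_meas _ _ _),
    fun V hV => wg_near_le A hA lam hlam E δ hδ V hV, ?_⟩
  set c : ℝ := 1 / (2 * (δ / lam)) with hc
  have hcpos : 0 < c := by positivity
  have hsub : {V : ι → ℝ | c ≤ ∑ x, H10PL.Pm (lam⁻¹ • A) V (E / lam) (δ / lam) x x} ⊆
      {V : ι → ℝ | ENNReal.ofReal c ≤
        ∑ x, ENNReal.ofReal (H10PL.Pm (lam⁻¹ • A) V (E / lam) (δ / lam) x x)} := by
    intro V hV
    simp only [Set.mem_ofPred_eq] at hV ⊢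
    rw [← ENNReal.ofReal_sum_of_nonneg]
    · exact ENNReal.ofReal_le_ofReal hV
    · intro x _
      exact (H10PL.Pm_diag_pos _ hA' V _ hd' x).le
  refine (measure_mono hsub).trans ?_
  have hmeas : Measurable fun V : ι → ℝ =>
      ∑ x, ENNReal.ofReal (H10PL.Pm (lam⁻¹ • A) V (E / lam) (δ / lam) x x) :=
    Finset.measurable_fun_sum _ fun y _ => (H10PL.Mom.meas_V _ _ _ y).ennreal_ofReal
  have hM := mul_meas_ge_le_lintegral (μ := Measure.pi fun _ : ι => μ) hmeas (ENNReal.ofReal c)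
  rw [lintegral_finsetSum _ (fun y _ => (H10PL.Mom.meas_V _ _ _ y).ennreal_ofReal)] at hM
  have hint : ∑ x, ∫⁻ V, ENNReal.ofReal (H10PL.Pm (lam⁻¹ • A) V (E / lam) (δ / lam) x x)
      ∂(Measure.pi fun _ : ι => μ) ≤ ENNReal.ofReal (Real.pi * D * Fintype.card ι) := by
    calc _ ≤ ∑ _x : ι, ENNReal.ofReal (Real.pi * D) :=
          Finset.sum_le_sum fun x _ => H10PL.Sec.wegner_pi μ hD.le hμ _ hA' hdg _ hd' x
      _ = ENNReal.ofReal (Real.pi * D * Fintype.card ι) := by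
          rw [Finset.sum_const, Finset.card_univ, nsmul_eq_mul, mul_comm (Real.pi * D),
            ENNReal.ofReal_mul (Nat.cast_nonneg (Fintype.card ι)), ENNReal.ofReal_natCast]
  have h1 := hM.trans hint
  have hc0 : ENNReal.ofReal c ≠ 0 := by
    rw [Ne, ENNReal.ofReal_eq_zero, not_le]
    exact hcpos
  have hct : ENNReal.ofReal c ≠ ⊤ := ENNReal.ofReal_ne_top
  rw [mul_comm] at h1
  have h2 := (ENNReal.le_div_iff_mul_le (Or.inl hc0) (Or.inl hct)).2 h1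
  refine h2.trans ?_
  rw [← ENNReal.ofReal_div_of_pos hcpos]
  apply ENNReal.ofReal_le_ofReal
  have h3 : Real.pi * D * (Fintype.card ι : ℝ) / c =
      (2 * Real.pi) * D / lam * δ * Fintype.card ι := by
    rw [hc]
    field_simp
  rw [h3]
  have h4 : 2 * Real.pi ≤ 8 := by linarith [Real.pi_le_four]
  gcongr

/-- almost sure invertibility -/
theorem inv_ae (μ : Measure ℝ) [IsProbabilityMeasure μ] (D : ℝ) (hD : 0 < D)
    (hμ : μ ≤ ENNReal.ofReal D • (volume : Measure ℝ)) (A : Matrix ι ι ℝ) (hA : A.IsSymm)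
    (hd : ∀ i, A i i = 0) (lam : ℝ) (hlam : 0 < lam) (E : ℝ) :
    ∀ᵐ V ∂(Measure.pi fun _ : ι => μ), IsUnit (Hm A lam V E).det := by
  rw [ae_iff]
  have hb : ∀ δ : ℝ, 0 < δ → (Measure.pi fun _ : ι => μ) {V | ¬ IsUnit (Hm A lam V E).det} ≤
      ENNReal.ofReal (8 * D / lam * δ * Fintype.card ι) := by
    intro δ hδ
    obtain ⟨S, -, hS, hle⟩ := wegner μ D hD hμ A hA hd lam hlam E δ hδ
    refine (measure_mono fun V hV => hS V ?_).trans hle
    have h0 : (Hm A lam V E).det = 0 := by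
      by_contra hne
      exact hV (isUnit_iff_ne_zero.2 hne)
    obtain ⟨f, hf, hf0⟩ := Matrix.exists_mulVec_eq_zero_iff.2 h0
    refine ⟨f, hf, ?_⟩
    rw [hf0]
    simp only [Pi.zero_apply, ne_eq, OfNat.ofNat_ne_zero, not_false_eq_true, zero_pow,
      Finset.sum_const_zero]
    positivity
  have ht : Filter.Tendsto (fun δ : ℝ => ENNReal.ofReal (8 * D / lam * δ * Fintype.card ι))
      (nhdsWithin 0 (Set.Ioi 0)) (nhds 0) := by
    have h1 : Filter.Tendsto (fun δ : ℝ => 8 * D / lam * δ * Fintype.card ι) (nhds 0) (nhds 0) := by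
      have : Continuous fun δ : ℝ => 8 * D / lam * δ * Fintype.card ι := by fun_prop
      have h2 := this.tendsto 0
      simpa using h2
    have h3 := (ENNReal.tendsto_ofReal h1).mono_left (nhdsWithin_le_nhds (s := Set.Ioi (0 : ℝ)))
    simpa using h3
  refine le_antisymm (ge_of_tendsto ht ?_) zero_le
  filter_upwards [self_mem_nhdsWithin] with δ hδ
  exact hb δ hδ

end Wg

end Pool.Agent.H4R2.LO
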