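import Pool.Agent.H4R2.LO.Ap
import Pool.Agent.H4R2.LO.Wg

/-!
# Task FM of team LO: the fractional moment iteration
-/

set_option autoImplicit false
set_option linter.unusedSectionVars false

open scoped BigOperators ENNReal
open MeasureTheory

namespace Pool.Agent.H4R2.LO

namespace Fm

variable {ι : Type*} [Fintype ι] [DecidableEq ι]

/-! ### deterministic facts -/

theorem Hm_right {A : Matrix ι ι ℝ} {S : Finset ι} {lam : ℝ} {V : ι → ℝ} {E : ℝ} {u : ι}
    (hu : u ∉ S) (i : ι) :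
    Hm (cut A S) lam V E i u = if i = u then lam * V u - E else 0 := by
  unfold Hm
  rw [Matrix.add_apply, Matrix.diagonal_apply]
  have h : cut A S i u = 0 := by
    unfold cut
    exact if_neg fun h => hu h.2
  rw [h, zero_add]
  by_cases hiu : i = u
  · rw [if_pos hiu, if_pos hiu, hiu]
  · rw [if_neg hiu, if_neg hiu]

theorem Hm_left {A : Matrix ι ι ℝ} {S : Finset ι} {lam : ℝ} {V : ι → ℝ} {E : ℝ} {u : ι}
    (hu : u ∉ S) (i : ι) :
    Hm (cut A S) lam V E u i = if u = i then lam * V u - E else 0 := by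
  unfold Hm
  rw [Matrix.add_apply, Matrix.diagonal_apply]
  have h : cut A S u i = 0 := by
    unfold cut
    exact if_neg fun h => hu h.1
  rw [h, zero_add]

theorem ne_of_det {A : Matrix ι ι ℝ} {S : Finset ι} {lam : ℝ} {V : ι → ℝ} {E : ℝ}
    (hdet : IsUnit (Hm (cut A S) lam V E).det) {u : ι} (hu : u ∉ S) : lam * V u - E ≠ 0 := by
  intro h0
  have : (Hm (cut A S) lam V E).det = 0 := by
    apply Matrix.det_eq_zero_of_column_eq_zero u
    intro i
    rw [Hm_right hu, h0, ite_self]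
  rw [this] at hdet
  exact not_isUnit_zero hdet

theorem Gr_off {A : Matrix ι ι ℝ} {S : Finset ι} {lam : ℝ} {V : ι → ℝ} {E : ℝ}
    (hdet : IsUnit (Hm (cut A S) lam V E).det) {x u : ι} (hx : x ∈ S) (hu : u ∉ S) :
    Gr (cut A S) lam V E x u = 0 := by
  have h1 : (Gr (cut A S) lam V E * Hm (cut A S) lam V E) x u = 0 := by
    unfold Gr
    rw [Matrix.nonsing_inv_mul _ hdet, Matrix.one_apply_ne]
    rintro rfl
    exact hu hx
  rw [Matrix.mul_apply, Finset.sum_eq_single u] at h1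
  · rw [Hm_right hu, if_pos rfl] at h1
    exact (mul_eq_zero.1 h1).resolve_right (ne_of_det hdet hu)
  · intro b _ hb
    rw [Hm_right hu, if_neg hb, mul_zero]
  · intro h
    exact absurd (Finset.mem_univ u) h

theorem Gr_off' {A : Matrix ι ι ℝ} {S : Finset ι} {lam : ℝ} {V : ι → ℝ} {E : ℝ}
    (hdet : IsUnit (Hm (cut A S) lam V E).det) {x y : ι} (hx : x ∉ S) (hy : y ∈ S) :
    Gr (cut A S) lam V E x y = 0 := by
  have h1 : (Hm (cut A S) lam V E * Gr (cut A S) lam V E) x y = 0 := by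
    unfold Gr
    rw [Matrix.mul_nonsing_inv _ hdet, Matrix.one_apply_ne]
    rintro rfl
    exact hx hy
  rw [Matrix.mul_apply, Finset.sum_eq_single x] at h1
  · rw [Hm_left hx, if_pos rfl] at h1
    exact (mul_eq_zero.1 h1).resolve_left (ne_of_det hdet hx)
  · intro b _ hb
    rw [Hm_left hx, if_neg (fun h => hb h.symm), zero_mul]
  · intro h
    exact absurd (Finset.mem_univ x) h

theorem Hm_congr {A : Matrix ι ι ℝ} {S : Finset ι} {lam : ℝ} {V V' : ι → ℝ} {E : ℝ}
    (hV : ∀ i ∈ S, V' i = V i) {i : ι} (hi : i ∈ S) (j : ι) :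
    Hm (cut A S) lam V' E i j = Hm (cut A S) lam V E i j := by
  unfold Hm
  rw [Matrix.add_apply, Matrix.add_apply, Matrix.diagonal_apply, Matrix.diagonal_apply, hV i hi]

/-- the resolvent inside `S` only depends on the potential in `S` -/
theorem local_dep {A : Matrix ι ι ℝ} {S : Finset ι} {lam : ℝ} {V V' : ι → ℝ} {E : ℝ}
    (hV : ∀ i ∈ S, V' i = V i) (hV' : ∀ i, i ∉ S → lam * V' i - E = 1)
    (hdet : IsUnit (Hm (cut A S) lam V E).det) {x : ι} (hx : x ∈ S) (u : ι) :
    Gr (cut A S) lam V' E x u = Gr (cut A S) lam V E x u := by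
  have hdet' : IsUnit (Hm (cut A S) lam V' E).det := by
    rw [isUnit_iff_ne_zero]
    intro h0
    obtain ⟨w, hw, hw0⟩ := Matrix.exists_mulVec_eq_zero_iff.2 h0
    have hwS : ∀ i, i ∉ S → w i = 0 := by
      intro i hi
      have := congrFun hw0 i
      rw [Matrix.mulVec, dotProduct, Finset.sum_eq_single i, Hm_left hi, if_pos rfl,
        hV' i hi, one_mul] at this
      · exact this
      · intro b _ hb
        rw [Hm_left hi, if_neg (fun h => hb h.symm), zero_mul]
      · intro h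
        exact absurd (Finset.mem_univ i) h
    have hM : (Hm (cut A S) lam V E).mulVec w = 0 := by
      funext i
      by_cases hi : i ∈ S
      · rw [← congrFun hw0 i, Matrix.mulVec, Matrix.mulVec, dotProduct, dotProduct]
        apply Finset.sum_congr rfl
        intro j _
        rw [Hm_congr hV hi]
      · rw [Matrix.mulVec, dotProduct, Finset.sum_eq_single i, Hm_left hi, if_pos rfl,
          hwS i hi, mul_zero]
        · rfl
        · intro b _ hb
          rw [Hm_left hi, if_neg (fun h => hb h.symm), zero_mul]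
        · intro h
          exact absurd (Finset.mem_univ i) h
    have := Matrix.exists_mulVec_eq_zero_iff.1 ⟨w, hw, hM⟩
    rw [this] at hdet
    exact not_isUnit_zero hdet
  have h1 : ∀ j, ∑ i, Gr (cut A S) lam V E x i * Hm (cut A S) lam V' E i j =
      (1 : Matrix ι ι ℝ) x j := by
    intro j
    have h2 : (Gr (cut A S) lam V E * Hm (cut A S) lam V E) x j = (1 : Matrix ι ι ℝ) x j := by
      unfold Gr
      rw [Matrix.nonsing_inv_mul _ hdet]
    rw [← h2, Matrix.mul_apply]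
    apply Finset.sum_congr rfl
    intro i _
    by_cases hi : i ∈ S
    · rw [Hm_congr hV hi]
    · rw [Gr_off hdet hx hi, zero_mul, zero_mul]
  have h3 : Gr (cut A S) lam V E x u =
      ∑ i, Gr (cut A S) lam V E x i * (Hm (cut A S) lam V' E * Gr (cut A S) lam V' E) i u := by
    have : Hm (cut A S) lam V' E * Gr (cut A S) lam V' E = 1 := by
      unfold Gr
      exact Matrix.mul_nonsing_inv _ hdet'
    rw [this]
    simp [Matrix.one_apply]
  rw [h3]
  have h4 : ∀ i, Gr (cut A S) lam V E x i *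
      (Hm (cut A S) lam V' E * Gr (cut A S) lam V' E) i u =
      ∑ j, (Gr (cut A S) lam V E x i * Hm (cut A S) lam V' E i j) * Gr (cut A S) lam V' E j u := by
    intro i
    rw [Matrix.mul_apply, Finset.mul_sum]
    apply Finset.sum_congr rfl
    intro j _
    ring
  rw [Finset.sum_congr rfl fun i _ => h4 i, Finset.sum_comm]
  have h5 : ∀ j, ∑ i, (Gr (cut A S) lam V E x i * Hm (cut A S) lam V' E i j) *
      Gr (cut A S) lam V' E j u = (1 : Matrix ι ι ℝ) x j * Gr (cut A S) lam V' E j u := by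
    intro j
    rw [← Finset.sum_mul, h1]
  rw [Finset.sum_congr rfl fun j _ => h5 j]
  simp [Matrix.one_apply]

theorem sum2 (f g : ι → ι → ℝ) (S T : Finset ι) (h : ∀ u ∈ S, ∀ u' ∈ T, f u u' = g u u')
    (h0 : ∀ u u', ¬ (u ∈ S ∧ u' ∈ T) → f u u' = 0) :
    ∑ u, ∑ u', f u u' = ∑ u ∈ S, ∑ u' ∈ T, g u u' := by
  symm
  have e1 : ∑ u ∈ S, ∑ u' ∈ T, g u u' = ∑ u ∈ S, ∑ u', f u u' := by
    apply Finset.sum_congr rfl
    intro u hu
    rw [Finset.sum_congr rfl fun u' hu' => (h u hu u' hu').symm]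
    apply Finset.sum_subset (Finset.subset_univ T)
    intro u' _ hu'
    exact h0 u u' fun h => hu' h.2
  rw [e1]
  apply Finset.sum_subset (Finset.subset_univ S)
  intro u _ hu
  apply Finset.sum_eq_zero
  intro u' _
  exact h0 u u' fun h => hu h.1

theorem diff_apply (A : Matrix ι ι ℝ) (S T : Finset ι) (lam : ℝ) (V : ι → ℝ) (E : ℝ) (i j : ι) :
    (Hm (cut A S) lam V E - Hm (cut A T) lam V E) i j = cut A S i j - cut A T i j := by
  unfold Hm
  rw [Matrix.sub_apply, Matrix.add_apply, Matrix.add_apply]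
  ring

/-- first resolvent expansion -/
theorem exp1 {A : Matrix ι ι ℝ} {lam : ℝ} {V : ι → ℝ} {E : ℝ} {δ : ι → ι → ℕ}
    (hδt : ∀ i j k, δ i k ≤ δ i j + δ j k) (hδ1 : ∀ i j, A i j ≠ 0 → δ i j ≤ 1) (L : ℕ)
    (Ω : Finset ι) (x y : ι) (hx : x ∈ Ω) (hxx : δ x x = 0) (hy : y ∈ Ω) (hxy : L < δ x y)
    (hdet : IsUnit (Hm (cut A Ω) lam V E).det)
    (hdet1 : IsUnit (Hm (cut A (Ω.filter fun z => δ x z ≤ L)) lam V E).det) :
    Gr (cut A Ω) lam V E x y = -∑ u ∈ Ω.filter (fun z => δ x z = L),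
      ∑ u' ∈ Ω.filter (fun z => δ x z = L + 1),
        Gr (cut A (Ω.filter fun z => δ x z ≤ L)) lam V E x u * A u u' *
          Gr (cut A Ω) lam V E u' y := by
  set O1 := Ω.filter fun z => δ x z ≤ L with hO1
  have hx1 : x ∈ O1 := by
    rw [hO1, Finset.mem_filter, hxx]
    exact ⟨hx, Nat.zero_le _⟩
  have hy1 : y ∉ O1 := by
    rw [hO1, Finset.mem_filter]
    exact fun h => absurd h.2 (not_le.2 hxy)
  have e1 : Gr (cut A Ω) lam V E = Gr (cut A O1) lam V E - Gr (cut A O1) lam V E *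
      (Hm (cut A Ω) lam V E - Hm (cut A O1) lam V E) * Gr (cut A Ω) lam V E := by
    rw [Matrix.mul_sub, Matrix.sub_mul]
    have h1 : Gr (cut A O1) lam V E * Hm (cut A O1) lam V E = 1 := by
      unfold Gr
      exact Matrix.nonsing_inv_mul _ hdet1
    have h2 : Hm (cut A Ω) lam V E * Gr (cut A Ω) lam V E = 1 := by
      unfold Gr
      exact Matrix.mul_nonsing_inv _ hdet
    rw [h1, Matrix.mul_assoc, h2, Matrix.mul_one, Matrix.one_mul]
    abel
  have e2 : Gr (cut A Ω) lam V E x y = Gr (cut A O1) lam V E x y - ∑ u, ∑ u',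
      Gr (cut A O1) lam V E x u * (cut A Ω u u' - cut A O1 u u') *
        Gr (cut A Ω) lam V E u' y := by
    have := congrFun (congrFun e1 x) y
    rw [Matrix.sub_apply, Matrix.mul_apply] at this
    rw [this]
    congr 1
    rw [Finset.sum_comm]
    apply Finset.sum_congr rfl
    intro u' _
    rw [Matrix.mul_apply, Finset.sum_mul]
    apply Finset.sum_congr rfl
    intro u _
    rw [diff_apply]
  rw [e2, Gr_off hdet1 hx1 hy1, zero_sub]
  congr 1
  apply sum2
  · intro u hu u' hu'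
    rw [Finset.mem_filter] at hu hu'
    have a1 : cut A Ω u u' = A u u' := by
      unfold cut
      exact if_pos ⟨hu.1, hu'.1⟩
    have a2 : cut A O1 u u' = 0 := by
      unfold cut
      apply if_neg
      rintro ⟨_, h⟩
      rw [hO1, Finset.mem_filter, hu'.2] at h
      omega
    rw [a1, a2, sub_zero]
  · intro u u' hn
    by_cases hu : u ∈ O1
    · by_cases hu' : u' ∈ O1
      · have a1 : cut A Ω u u' = A u u' := by
          unfold cut
          exact if_pos ⟨(Finset.mem_filter.1 hu).1, (Finset.mem_filter.1 hu').1⟩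
        have a2 : cut A O1 u u' = A u u' := by
          unfold cut
          exact if_pos ⟨hu, hu'⟩
        rw [a1, a2, sub_self, mul_zero, zero_mul]
      · have a2 : cut A O1 u u' = 0 := by
          unfold cut
          exact if_neg fun h => hu' h.2
        by_cases hΩ : u' ∈ Ω
        · have a0 : A u u' = 0 := by
            by_contra hne
            have b1 := hδ1 u u' hne
            rw [hO1, Finset.mem_filter] at hu hu'
            have b2 := hδt x u u'
            have b3 : L < δ x u' := by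
              by_contra hcon
              exact hu' ⟨hΩ, by omega⟩
            apply hn
            rw [Finset.mem_filter, Finset.mem_filter]
            exact ⟨⟨hu.1, by omega⟩, hΩ, by omega⟩
          have a1 : cut A Ω u u' = 0 := by
            unfold cut
            rw [a0, ite_self]
          rw [a1, a2, sub_self, mul_zero, zero_mul]
        · have a1 : cut A Ω u u' = 0 := by
            unfold cut
            exact if_neg fun h => hΩ h.2
          rw [a1, a2, sub_self, mul_zero, zero_mul]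
    · rw [Gr_off hdet1 hx1 hu, zero_mul, zero_mul]

/-- second resolvent expansion -/
theorem exp2 {A : Matrix ι ι ℝ} {lam : ℝ} {V : ι → ℝ} {E : ℝ} {δ : ι → ι → ℕ}
    (hδt : ∀ i j k, δ i k ≤ δ i j + δ j k) (hδ1 : ∀ i j, A i j ≠ 0 → δ i j ≤ 1) (L : ℕ)
    (Ω : Finset ι) (x y u' : ι) (hy : y ∈ Ω) (hxy : L + 2 ≤ δ x y)
    (hu'2 : δ x u' = L + 1)
    (hdet : IsUnit (Hm (cut A Ω) lam V E).det)
    (hdet2 : IsUnit (Hm (cut A (Ω.filter fun z => L + 2 ≤ δ x z)) lam V E).det)
    (hδs : ∀ i j, δ i j = δ j i) :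
    Gr (cut A Ω) lam V E u' y = -∑ v ∈ Ω.filter (fun z => δ x z = L + 1),
      ∑ v' ∈ Ω.filter (fun z => δ x z = L + 2),
        Gr (cut A Ω) lam V E u' v * A v v' *
          Gr (cut A (Ω.filter fun z => L + 2 ≤ δ x z)) lam V E v' y := by
  set O2 := Ω.filter fun z => L + 2 ≤ δ x z with hO2
  have hy2 : y ∈ O2 := by
    rw [hO2, Finset.mem_filter]
    exact ⟨hy, hxy⟩
  have hu2 : u' ∉ O2 := by
    rw [hO2, Finset.mem_filter, hu'2]
    exact fun h => absurd h.2 (by omega)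
  have e1 : Gr (cut A Ω) lam V E = Gr (cut A O2) lam V E - Gr (cut A Ω) lam V E *
      (Hm (cut A Ω) lam V E - Hm (cut A O2) lam V E) * Gr (cut A O2) lam V E := by
    rw [Matrix.mul_sub, Matrix.sub_mul]
    have h1 : Hm (cut A O2) lam V E * Gr (cut A O2) lam V E = 1 := by
      unfold Gr
      exact Matrix.mul_nonsing_inv _ hdet2
    have h2 : Gr (cut A Ω) lam V E * Hm (cut A Ω) lam V E = 1 := by
      unfold Gr
      exact Matrix.nonsing_inv_mul _ hdet
    rw [h2, Matrix.mul_assoc (Gr (cut A Ω) lam V E), h1, Matrix.mul_one, Matrix.one_mul]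
    abel
  have e2 : Gr (cut A Ω) lam V E u' y = Gr (cut A O2) lam V E u' y - ∑ v, ∑ v',
      Gr (cut A Ω) lam V E u' v * (cut A Ω v v' - cut A O2 v v') *
        Gr (cut A O2) lam V E v' y := by
    have := congrFun (congrFun e1 u') y
    rw [Matrix.sub_apply, Matrix.mul_apply] at this
    rw [this]
    congr 1
    rw [Finset.sum_comm]
    apply Finset.sum_congr rfl
    intro v' _
    rw [Matrix.mul_apply, Finset.sum_mul]
    apply Finset.sum_congr rfl
    intro v _
    rw [diff_apply]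
  rw [e2, Gr_off' hdet2 hu2 hy2, zero_sub]
  congr 1
  apply sum2
  · intro v hv v' hv'
    rw [Finset.mem_filter] at hv hv'
    have a1 : cut A Ω v v' = A v v' := by
      unfold cut
      exact if_pos ⟨hv.1, hv'.1⟩
    have a2 : cut A O2 v v' = 0 := by
      unfold cut
      apply if_neg
      rintro ⟨h, _⟩
      rw [hO2, Finset.mem_filter, hv.2] at h
      omega
    rw [a1, a2, sub_zero]
  · intro v v' hn
    by_cases hv' : v' ∈ O2
    · by_cases hv : v ∈ O2
      · have a1 : cut A Ω v v' = A v v' := by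
          unfold cut
          exact if_pos ⟨(Finset.mem_filter.1 hv).1, (Finset.mem_filter.1 hv').1⟩
        have a2 : cut A O2 v v' = A v v' := by
          unfold cut
          exact if_pos ⟨hv, hv'⟩
        rw [a1, a2, sub_self, mul_zero, zero_mul]
      · have a2 : cut A O2 v v' = 0 := by
          unfold cut
          exact if_neg fun h => hv h.1
        by_cases hΩ : v ∈ Ω
        · have a0 : A v v' = 0 := by
            by_contra hne
            have b1 := hδ1 v v' hne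
            rw [hO2, Finset.mem_filter] at hv hv'
            have b2 := hδt x v v'
            have b3 : δ x v < L + 2 := by
              by_contra hcon
              exact hv ⟨hΩ, by omega⟩
            apply hn
            rw [Finset.mem_filter, Finset.mem_filter]
            exact ⟨⟨hΩ, by omega⟩, hv'.1, by omega⟩
          have a1 : cut A Ω v v' = 0 := by
            unfold cut
            rw [a0, ite_self]
          rw [a1, a2, sub_self, mul_zero, zero_mul]
        · have a1 : cut A Ω v v' = 0 := by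
            unfold cut
            exact if_neg fun h => hΩ h.1
          rw [a1, a2, sub_self, mul_zero, zero_mul]
    · rw [Gr_off' hdet2 hv' hy2, mul_zero]

theorem enorm_rpow_sum {α : Type*} (s : Finset α) (f : α → ℝ) :
    ‖∑ a ∈ s, f a‖ₑ ^ (1 / 4 : ℝ) ≤ ∑ a ∈ s, ‖f a‖ₑ ^ (1 / 4 : ℝ) := by
  classical
  induction s using Finset.induction_on with
  | empty => simp
  | insert a s ha ih =>
    rw [Finset.sum_insert ha, Finset.sum_insert ha]
    calc ‖f a + ∑ a ∈ s, f a‖ₑ ^ (1 / 4 : ℝ) ≤ (‖f a‖ₑ + ‖∑ a ∈ s, f a‖ₑ) ^ (1 / 4 : ℝ) :=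
          ENNReal.rpow_le_rpow (enorm_add_le _ _) (by norm_num)
      _ ≤ ‖f a‖ₑ ^ (1 / 4 : ℝ) + ‖∑ a ∈ s, f a‖ₑ ^ (1 / 4 : ℝ) :=
          ENNReal.rpow_add_le_add_rpow _ _ (by norm_num) (by norm_num)
      _ ≤ _ := add_le_add le_rfl ih

/-- the deterministic inequality -/
theorem det_ineq {A : Matrix ι ι ℝ} (h1 : ∀ i j, |A i j| ≤ 1) {lam : ℝ} {V : ι → ℝ} {E : ℝ}
    {δ : ι → ι → ℕ} (hδs : ∀ i j, δ i j = δ j i)
    (hδt : ∀ i j k, δ i k ≤ δ i j + δ j k) (hδ1 : ∀ i j, A i j ≠ 0 → δ i j ≤ 1) (L : ℕ)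
    (Ω : Finset ι) (x y : ι) (hx : x ∈ Ω) (hxx : δ x x = 0) (hy : y ∈ Ω) (hxy : L + 2 ≤ δ x y)
    (hdet : IsUnit (Hm (cut A Ω) lam V E).det)
    (hdet1 : IsUnit (Hm (cut A (Ω.filter fun z => δ x z ≤ L)) lam V E).det)
    (hdet2 : IsUnit (Hm (cut A (Ω.filter fun z => L + 2 ≤ δ x z)) lam V E).det) :
    ‖Gr (cut A Ω) lam V E x y‖ₑ ^ (1 / 4 : ℝ) ≤
      ∑ p ∈ (Ω.filter fun z => δ x z = L) ×ˢ (Ω.filter fun z => δ x z = L + 1) ×ˢ
          (Ω.filter fun z => δ x z = L + 1) ×ˢ (Ω.filter fun z => δ x z = L + 2),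
        (‖Gr (cut A (Ω.filter fun z => δ x z ≤ L)) lam V E x p.1‖ₑ ^ (1 / 4 : ℝ) *
          ‖Gr (cut A (Ω.filter fun z => L + 2 ≤ δ x z)) lam V E p.2.2.2 y‖ₑ ^ (1 / 4 : ℝ)) *
          ‖Gr (cut A Ω) lam V E p.2.1 p.2.2.1‖ₑ ^ (1 / 4 : ℝ) := by
  have e1 := exp1 hδt hδ1 L Ω x y hx hxx hy (by omega) hdet hdet1
  have e2 : Gr (cut A Ω) lam V E x y = ∑ p ∈ (Ω.filter fun z => δ x z = L) ×ˢ
      (Ω.filter fun z => δ x z = L + 1) ×ˢ
          (Ω.filter fun z => δ x z = L + 1) ×ˢ (Ω.filter fun z => δ x z = L + 2),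
        Gr (cut A (Ω.filter fun z => δ x z ≤ L)) lam V E x p.1 * A p.1 p.2.1 *
          (Gr (cut A Ω) lam V E p.2.1 p.2.2.1 * A p.2.2.1 p.2.2.2 *
          Gr (cut A (Ω.filter fun z => L + 2 ≤ δ x z)) lam V E p.2.2.2 y) := by
    rw [e1, ← Finset.sum_neg_distrib, Finset.sum_product]
    apply Finset.sum_congr rfl
    intro u _
    rw [← Finset.sum_neg_distrib, Finset.sum_product]
    apply Finset.sum_congr rfl
    intro u' hu'
    rw [exp2 hδt hδ1 L Ω x y u' hy hxy (Finset.mem_filter.1 hu').2 hdet hdet2 hδs,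
      mul_neg, neg_neg, Finset.sum_product, Finset.mul_sum]
    apply Finset.sum_congr rfl
    intro v _
    rw [Finset.mul_sum]
  rw [e2]
  refine (enorm_rpow_sum _ _).trans (Finset.sum_le_sum fun p _ => ?_)
  have hA : ∀ i j, ‖A i j‖ₑ ^ (1 / 4 : ℝ) ≤ 1 := by
    intro i j
    apply ENNReal.rpow_le_one _ (by norm_num)
    rw [← ofReal_norm, Real.norm_eq_abs]
    exact ENNReal.ofReal_le_one.2 (h1 i j)
  rw [enorm_mul, enorm_mul, enorm_mul, enorm_mul,
    ENNReal.mul_rpow_of_nonneg _ _ (by norm_num : (0 : ℝ) ≤ 1 / 4),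
    ENNReal.mul_rpow_of_nonneg _ _ (by norm_num : (0 : ℝ) ≤ 1 / 4),
    ENNReal.mul_rpow_of_nonneg _ _ (by norm_num : (0 : ℝ) ≤ 1 / 4),
    ENNReal.mul_rpow_of_nonneg _ _ (by norm_num : (0 : ℝ) ≤ 1 / 4)]
  calc _ ≤ ‖Gr (cut A (Ω.filter fun z => δ x z ≤ L)) lam V E x p.1‖ₑ ^ (1 / 4 : ℝ) * 1 *
        (‖Gr (cut A Ω) lam V E p.2.1 p.2.2.1‖ₑ ^ (1 / 4 : ℝ) * 1 *
          ‖Gr (cut A (Ω.filter fun z => L + 2 ≤ δ x z)) lam V E p.2.2.2 y‖ₑ ^ (1 / 4 : ℝ)) := by
        gcongr
        · exact hA _ _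
        · exact hA _ _
    _ = _ := by
        rw [mul_one, mul_one]
        ring

/-! ### integration -/

/-- extension by the constant `c` -/
noncomputable def ext (S : Finset ι) (c : ℝ) (W : S → ℝ) : ι → ℝ :=
  fun i => if h : i ∈ S then W ⟨i, h⟩ else c

theorem meas_ext (S : Finset ι) (c : ℝ) : Measurable (ext S c) := by
  rw [measurable_pi_iff]
  intro i
  by_cases h : i ∈ S
  · simp only [ext, h, dif_pos]
    exact measurable_pi_apply _
  · simp only [ext, h, dif_neg, not_false_eq_true]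
    exact measurable_const

theorem cut_symm {A : Matrix ι ι ℝ} (hA : A.IsSymm) (S : Finset ι) : (cut A S).IsSymm := by
  apply Matrix.IsSymm.ext
  intro i j
  unfold cut
  rw [hA.apply i j]
  by_cases hi : i ∈ S <;> by_cases hj : j ∈ S <;> simp [hi, hj]

theorem cut_diag {A : Matrix ι ι ℝ} (hd : ∀ i, A i i = 0) (S : Finset ι) (i : ι) :
    cut A S i i = 0 := by
  unfold cut
  rw [hd, ite_self]

theorem meas_fr (A : Matrix ι ι ℝ) (lam E : ℝ) (x y : ι) :
    Measurable fun V : ι → ℝ => ‖Gr A lam V E x y‖ₑ ^ (1 / 4 : ℝ) :=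
  (((Ap.meas_Gr A lam x y).comp (measurable_id.prodMk measurable_const)).enorm).pow_const _

/-- one term -/
theorem term (μ : Measure ℝ) [IsProbabilityMeasure μ] (B : ℝ) (hμ : Reg B μ) (A : Matrix ι ι ℝ)
    (hA : A.IsSymm) (hd : ∀ i, A i i = 0) (lam : ℝ) (hlam : 0 < lam) (E : ℝ)
    (Ω O1 O2 : Finset ι) (hO : Disjoint O1 O2) (x u u' v v' y : ι) (hx : x ∈ O1)
    (hv' : v' ∈ O2) (hu1 : u' ∉ O1) (hu2 : u' ∉ O2) (hv1 : v ∉ O1) (hv2 : v ∉ O2)
    (b1 b2 : ℝ≥0∞)
    (hb1 : ∫⁻ V, ‖Gr (cut A O1) lam V E x u‖ₑ ^ (1 / 4 : ℝ) ∂(Measure.pi fun _ : ι => μ) ≤ b1)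
    (hb2 : ∫⁻ V, ‖Gr (cut A O2) lam V E v' y‖ₑ ^ (1 / 4 : ℝ) ∂(Measure.pi fun _ : ι => μ) ≤ b2) :
    ∫⁻ V, (‖Gr (cut A O1) lam V E x u‖ₑ ^ (1 / 4 : ℝ) *
        ‖Gr (cut A O2) lam V E v' y‖ₑ ^ (1 / 4 : ℝ)) *
          ‖Gr (cut A Ω) lam V E u' v‖ₑ ^ (1 / 4 : ℝ) ∂(Measure.pi fun _ : ι => μ) ≤
      ENNReal.ofReal (2 * Real.sqrt (Real.sqrt (B / lam))) * (b1 * b2) := by
  classical
  set c : ℝ := (E + 1) / lam with hc
  have hcE : lam * c - E = 1 := by
    rw [hc]; field_simp; ring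
  set f1 : (O1 → ℝ) → ℝ≥0∞ := fun W => ‖Gr (cut A O1) lam (ext O1 c W) E x u‖ₑ ^ (1 / 4 : ℝ)
    with hf1
  set f2 : (O2 → ℝ) → ℝ≥0∞ := fun W => ‖Gr (cut A O2) lam (ext O2 c W) E v' y‖ₑ ^ (1 / 4 : ℝ)
    with hf2
  have mf1 : Measurable f1 := (meas_fr (cut A O1) lam E x u).comp (meas_ext O1 c)
  have mf2 : Measurable f2 := (meas_fr (cut A O2) lam E v' y).comp (meas_ext O2 c)
  have mr : ∀ S : Finset ι, Measurable fun V : ι → ℝ => fun i : S => V i := by
    intro S
    rw [measurable_pi_iff]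
    intro i
    exact measurable_pi_apply _
  have hae : ∀ S : Finset ι, ∀ᵐ V ∂(Measure.pi fun _ : ι => μ),
      IsUnit (Hm (cut A S) lam V E).det := fun S =>
    Wg.inv_ae μ B hμ.1 hμ.2.1 (cut A S) (cut_symm hA S) (cut_diag hd S) lam hlam E
  have e1 : ∀ᵐ V ∂(Measure.pi fun _ : ι => μ),
      ‖Gr (cut A O1) lam V E x u‖ₑ ^ (1 / 4 : ℝ) = f1 (fun i => V i) := by
    filter_upwards [hae O1] with V hV
    rw [hf1]
    simp only
    rw [local_dep (V := V) (V' := ext O1 c fun i => V i) _ _ hV hx u]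
    · intro i hi
      simp only [ext, hi, dif_pos]
    · intro i hi
      simp only [ext, hi, dif_neg, not_false_eq_true]
      exact hcE
  have e2 : ∀ᵐ V ∂(Measure.pi fun _ : ι => μ),
      ‖Gr (cut A O2) lam V E v' y‖ₑ ^ (1 / 4 : ℝ) = f2 (fun i => V i) := by
    filter_upwards [hae O2] with V hV
    rw [hf2]
    simp only
    rw [local_dep (V := V) (V' := ext O2 c fun i => V i) _ _ hV hv' y]
    · intro i hi
      simp only [ext, hi, dif_pos]
    · intro i hi
      simp only [ext, hi, dif_neg, not_false_eq_true]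
      exact hcE
  set F : (ι → ℝ) → ℝ≥0∞ := fun V => f1 (fun i => V i) * f2 (fun i => V i) with hF
  have mF : Measurable F := (mf1.comp (mr O1)).mul (mf2.comp (mr O2))
  have step1 : ∫⁻ V, (‖Gr (cut A O1) lam V E x u‖ₑ ^ (1 / 4 : ℝ) *
        ‖Gr (cut A O2) lam V E v' y‖ₑ ^ (1 / 4 : ℝ)) *
          ‖Gr (cut A Ω) lam V E u' v‖ₑ ^ (1 / 4 : ℝ) ∂(Measure.pi fun _ : ι => μ) =
      ∫⁻ V, F V * ‖Gr (cut A Ω) lam V E u' v‖ₑ ^ (1 / 4 : ℝ) ∂(Measure.pi fun _ : ι => μ) := by
    apply lintegral_congr_ae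
    filter_upwards [e1, e2] with V h1 h2
    rw [h1, h2]
  have hFi : ∀ V a b, F (Function.update (Function.update V u' a) v b) = F V := by
    intro V a b
    rw [hF]
    simp only
    congr 1
    · congr 1
      funext i
      have n1 : (i : ι) ≠ v := by
        intro h; exact hv1 (h ▸ i.2)
      have n2 : (i : ι) ≠ u' := by
        intro h; exact hu1 (h ▸ i.2)
      rw [Function.update_of_ne n1, Function.update_of_ne n2]
    · congr 1
      funext i
      have n1 : (i : ι) ≠ v := by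
        intro h; exact hv2 (h ▸ i.2)
      have n2 : (i : ι) ≠ u' := by
        intro h; exact hu2 (h ▸ i.2)
      rw [Function.update_of_ne n1, Function.update_of_ne n2]
  have step2 := Ap.ap4_weight μ B hμ (cut A Ω) (cut_symm hA Ω) lam hlam E u' v F mF hFi
  have hind : ProbabilityTheory.IndepFun (fun (V : ι → ℝ) (i : O1) => V i)
      (fun (V : ι → ℝ) (i : O2) => V i) (Measure.pi fun _ : ι => μ) := by
    have h0 : ProbabilityTheory.iIndepFun (fun (i : ι) (V : ι → ℝ) => V i)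
        (Measure.pi fun _ : ι => μ) :=
      ProbabilityTheory.iIndepFun_pi (μ := fun _ : ι => μ) (X := fun _ (t : ℝ) => t)
        (fun _ => aemeasurable_id)
    exact h0.indepFun_finset O1 O2 hO (fun i => measurable_pi_apply i)
  have step3 : ∫⁻ V, F V ∂(Measure.pi fun _ : ι => μ) =
      (∫⁻ V, f1 (fun i => V i) ∂(Measure.pi fun _ : ι => μ)) *
        ∫⁻ V, f2 (fun i => V i) ∂(Measure.pi fun _ : ι => μ) := by
    have := ProbabilityTheory.lintegral_mul_eq_lintegral_mul_lintegral_of_indepFun''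
      (μ := Measure.pi fun _ : ι => μ) (mf1.comp (mr O1)).aemeasurable
      (mf2.comp (mr O2)).aemeasurable (hind.comp mf1 mf2)
    exact this
  rw [step1]
  refine step2.trans ?_
  gcongr
  rw [step3]
  apply mul_le_mul' _ _
  · rw [← lintegral_congr_ae e1]; exact hb1
  · rw [← lintegral_congr_ae e2]; exact hb2

/-- fractional moment iteration -/
theorem fm (μ : Measure ℝ) [IsProbabilityMeasure μ] (B : ℝ) (hμ : Reg B μ) (A : Matrix ι ι ℝ)
    (hA : A.IsSymm) (hd : ∀ i, A i i = 0) (h1 : ∀ i j, |A i j| ≤ 1) (lam : ℝ) (hlam : 0 < lam)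
    (E : ℝ) (δ : ι → ι → ℕ) (hδ0 : ∀ i, δ i i = 0) (hδs : ∀ i j, δ i j = δ j i)
    (hδt : ∀ i j k, δ i k ≤ δ i j + δ j k) (hδ1 : ∀ i j, A i j ≠ 0 → δ i j ≤ 1) (L N : ℕ)
    (hN : ∀ i, (Finset.univ.filter fun j => δ i j ≤ L + 2).card ≤ N) (ε : ℝ≥0∞)
    (hinit : ∀ (Ω : Finset ι) (x u : ι), x ∈ Ω → u ∈ Ω → (∀ z ∈ Ω, δ x z ≤ L) → δ x u = L →
      ∫⁻ V, ‖Gr (cut A Ω) lam V E x u‖ₑ ^ (1 / 4 : ℝ) ∂(Measure.pi fun _ : ι => μ) ≤ ε) :
    ∀ (k : ℕ) (Ω : Finset ι) (x y : ι), x ∈ Ω → y ∈ Ω → k * (L + 2) ≤ δ x y →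
      ∫⁻ V, ‖Gr (cut A Ω) lam V E x y‖ₑ ^ (1 / 4 : ℝ) ∂(Measure.pi fun _ : ι => μ) ≤
        ((N : ℝ≥0∞) ^ 4 * ENNReal.ofReal (2 * Real.sqrt (Real.sqrt (B / lam))) * ε) ^ k *
          ENNReal.ofReal (2 * Real.sqrt (Real.sqrt (B / lam))) := by
  classical
  set C := ENNReal.ofReal (2 * Real.sqrt (Real.sqrt (B / lam))) with hC
  have hae : ∀ S : Finset ι, ∀ᵐ V ∂(Measure.pi fun _ : ι => μ),
      IsUnit (Hm (cut A S) lam V E).det := fun S =>
    Wg.inv_ae μ B hμ.1 hμ.2.1 (cut A S) (cut_symm hA S) (cut_diag hd S) lam hlam E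
  intro k
  induction k with
  | zero =>
    intro Ω x y _ _ _
    rw [pow_zero, one_mul]
    have := Ap.ap4_weight μ B hμ (cut A Ω) (cut_symm hA Ω) lam hlam E x y (fun _ => 1)
      measurable_const (fun _ _ _ => rfl)
    simp only [one_mul, lintegral_const, measure_univ, mul_one] at this
    exact this
  | succ k ih =>
    intro Ω x y hx hy hk
    have hxy : L + 2 ≤ δ x y := by nlinarith
    set O1 := Ω.filter fun z => δ x z ≤ L with hO1
    set O2 := Ω.filter fun z => L + 2 ≤ δ x z with hO2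
    set P := (Ω.filter fun z => δ x z = L) ×ˢ (Ω.filter fun z => δ x z = L + 1) ×ˢ
          (Ω.filter fun z => δ x z = L + 1) ×ˢ (Ω.filter fun z => δ x z = L + 2) with hP
    have hcardf : ∀ m, m ≤ L + 2 → (Ω.filter fun z => δ x z = m).card ≤ N := by
      intro m hm
      refine le_trans (Finset.card_le_card ?_) (hN x)
      intro z hz
      rw [Finset.mem_filter] at hz ⊢
      exact ⟨Finset.mem_univ _, by omega⟩
    have hPc : P.card ≤ N ^ 4 := by
      rw [hP, Finset.card_product, Finset.card_product, Finset.card_product]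
      calc _ ≤ N * (N * (N * N)) := by
            gcongr
            · exact hcardf L (by omega)
            · exact hcardf (L + 1) (by omega)
            · exact hcardf (L + 1) (by omega)
            · exact hcardf (L + 2) (by omega)
        _ = N ^ 4 := by ring
    have hx1 : x ∈ O1 := by
      rw [hO1, Finset.mem_filter, hδ0]
      exact ⟨hx, Nat.zero_le _⟩
    have hy2 : y ∈ O2 := by
      rw [hO2, Finset.mem_filter]
      exact ⟨hy, hxy⟩
    have hdis : Disjoint O1 O2 := by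
      rw [Finset.disjoint_left]
      intro z hz hz'
      rw [hO1, Finset.mem_filter] at hz
      rw [hO2, Finset.mem_filter] at hz'
      omega
    calc ∫⁻ V, ‖Gr (cut A Ω) lam V E x y‖ₑ ^ (1 / 4 : ℝ) ∂(Measure.pi fun _ : ι => μ)
        ≤ ∫⁻ V, ∑ p ∈ P, (‖Gr (cut A O1) lam V E x p.1‖ₑ ^ (1 / 4 : ℝ) *
          ‖Gr (cut A O2) lam V E p.2.2.2 y‖ₑ ^ (1 / 4 : ℝ)) *
          ‖Gr (cut A Ω) lam V E p.2.1 p.2.2.1‖ₑ ^ (1 / 4 : ℝ) ∂(Measure.pi fun _ : ι => μ) := by
          apply lintegral_mono_ae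
          filter_upwards [hae Ω, hae O1, hae O2] with V d0 d1 d2
          exact det_ineq h1 hδs hδt hδ1 L Ω x y hx (hδ0 x) hy hxy d0 d1 d2
      _ = ∑ p ∈ P, ∫⁻ V, (‖Gr (cut A O1) lam V E x p.1‖ₑ ^ (1 / 4 : ℝ) *
          ‖Gr (cut A O2) lam V E p.2.2.2 y‖ₑ ^ (1 / 4 : ℝ)) *
          ‖Gr (cut A Ω) lam V E p.2.1 p.2.2.1‖ₑ ^ (1 / 4 : ℝ) ∂(Measure.pi fun _ : ι => μ) := by
          apply lintegral_finsetSum
          intro p _
          exact ((meas_fr _ _ _ _ _).mul (meas_fr _ _ _ _ _)).mul (meas_fr _ _ _ _ _)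
      _ ≤ ∑ p ∈ P, C * (ε * (((N : ℝ≥0∞) ^ 4 * C * ε) ^ k * C)) := by
          apply Finset.sum_le_sum
          rintro ⟨u, u', v, v'⟩ hp
          rw [hP, Finset.mem_product, Finset.mem_product, Finset.mem_product] at hp
          simp only [Finset.mem_filter] at hp
          obtain ⟨⟨hu, hu2⟩, ⟨hu', hu'2⟩, ⟨hv, hv2⟩, hv', hv'2⟩ := hp
          apply term μ B hμ A hA hd lam hlam E Ω O1 O2 hdis x u u' v v' y hx1
          · rw [hO2, Finset.mem_filter]; exact ⟨hv', by omega⟩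
          · rw [hO1, Finset.mem_filter]; intro h; omega
          · rw [hO2, Finset.mem_filter]; intro h; omega
          · rw [hO1, Finset.mem_filter]; intro h; omega
          · rw [hO2, Finset.mem_filter]; intro h; omega
          · apply hinit O1 x u hx1
            · rw [hO1, Finset.mem_filter]; exact ⟨hu, by omega⟩
            · intro z hz
              rw [hO1, Finset.mem_filter] at hz
              exact hz.2
            · exact hu2
          · apply ih O2 v' y
            · rw [hO2, Finset.mem_filter]; exact ⟨hv', by omega⟩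
            · exact hy2
            · have := hδt x v' y
              have h5 : (k + 1) * (L + 2) = k * (L + 2) + (L + 2) := by ring
              omega
      _ = (P.card : ℝ≥0∞) * (C * (ε * (((N : ℝ≥0∞) ^ 4 * C * ε) ^ k * C))) := by
          rw [Finset.sum_const, nsmul_eq_mul]
      _ ≤ (N : ℝ≥0∞) ^ 4 * (C * (ε * (((N : ℝ≥0∞) ^ 4 * C * ε) ^ k * C))) := by
          gcongr
          exact_mod_cast hPc
      _ = ((N : ℝ≥0∞) ^ 4 * C * ε) ^ (k + 1) * C := by
          ring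

end Fm

end Pool.Agent.H4R2.LO
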