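import Pool.Agent.H4R2.LO.Ap

/-! Team LO, task VA: single box, variable energy. -/

set_option autoImplicit false

open scoped BigOperators ENNReal
open MeasureTheory

namespace Pool.Agent.H4R2.LO
namespace Var

section det

variable {ι : Type*} [Fintype ι] [DecidableEq ι]

theorem va_not_near {M : Matrix ι ι ℝ} {δ : ℝ} (h : ¬ Near M δ) (f : ι → ℝ) :
    δ ^ 2 * ∑ i, f i ^ 2 ≤ ∑ i, (M.mulVec f i) ^ 2 := by
  by_cases hf : f = 0
  · subst hf
    simp
  · by_contra hcon
    rw [not_le] at hcon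
    exact h ⟨f, hf, hcon.le⟩

theorem va_unit {M : Matrix ι ι ℝ} {c : ℝ} (hc : 0 < c)
    (h : ∀ f : ι → ℝ, c * ∑ i, f i ^ 2 ≤ ∑ i, (M.mulVec f i) ^ 2) : IsUnit M.det := by
  rw [isUnit_iff_ne_zero]
  intro h0
  obtain ⟨f, hf, hf0⟩ := Matrix.exists_mulVec_eq_zero_iff.2 h0
  have h1 := h f
  rw [hf0] at h1
  simp only [Pi.zero_apply, ne_eq, OfNat.ofNat_ne_zero, not_false_eq_true, zero_pow,
    Finset.sum_const_zero] at h1
  have h2 : 0 < ∑ i, f i ^ 2 := by
    obtain ⟨i, hi⟩ : ∃ i, f i ≠ 0 := by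
      by_contra hcon
      push Not at hcon
      exact hf (funext hcon)
    exact Finset.sum_pos' (fun j _ => sq_nonneg _) ⟨i, Finset.mem_univ _, by positivity⟩
  nlinarith

theorem va_col {M : Matrix ι ι ℝ} {c : ℝ} (hc : 0 < c)
    (h : ∀ f : ι → ℝ, c * ∑ i, f i ^ 2 ≤ ∑ i, (M.mulVec f i) ^ 2) (u : ι) :
    ∑ k, (M⁻¹ k u) ^ 2 ≤ 1 / c := by
  have hu := va_unit hc h
  have h1 := h (fun k => M⁻¹ k u)
  have h2 : M.mulVec (fun k => M⁻¹ k u) = fun i => (1 : Matrix ι ι ℝ) i u := by
    funext i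
    rw [← Matrix.mul_nonsing_inv M hu]
    rfl
  rw [h2] at h1
  have h3 : ∑ i, ((1 : Matrix ι ι ℝ) i u) ^ 2 = 1 := by
    rw [Finset.sum_eq_single u]
    · simp
    · intro b _ hb
      simp [Matrix.one_apply_ne hb]
    · intro hcon
      exact absurd (Finset.mem_univ u) hcon
  rw [h3] at h1
  rw [le_div_iff₀ hc, mul_comm]
  exact h1

theorem va_sub (A : Matrix ι ι ℝ) (lam : ℝ) (V : ι → ℝ) (E E' : ℝ) :
    Hm A lam V E - Hm A lam V E' = (E' - E) • (1 : Matrix ι ι ℝ) := by
  ext i j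
  by_cases hij : i = j
  · subst hij
    simp [Hm]
  · simp [Hm, Matrix.diagonal_apply_ne _ hij, Matrix.one_apply_ne hij]

theorem va_symm (A : Matrix ι ι ℝ) (hA : A.IsSymm) (lam : ℝ) (V : ι → ℝ) (E : ℝ) (i j : ι) :
    Gr A lam V E i j = Gr A lam V E j i := by
  have h1 : (Hm A lam V E).IsSymm := by
    unfold Hm
    exact hA.add (Matrix.isSymm_diagonal _)
  have h2 : ((Hm A lam V E)⁻¹).transpose = (Hm A lam V E)⁻¹ := by
    rw [Matrix.transpose_nonsing_inv, h1]
  unfold Gr
  calc (Hm A lam V E)⁻¹ i j = ((Hm A lam V E)⁻¹).transpose j i := rfl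
    _ = (Hm A lam V E)⁻¹ j i := by rw [h2]

/-- stability of the resolvent -/
theorem va_stab (A : Matrix ι ι ℝ) (hA : A.IsSymm) (lam : ℝ) (V : ι → ℝ) (E E' δ : ℝ) (hδ : 0 < δ)
    (hn : ¬ Near (Hm A lam V E) δ) (hE : |E' - E| ≤ δ / 4) (x u : ι) :
    |Gr A lam V E' x u - Gr A lam V E x u| ≤ |E' - E| * (2 / δ ^ 2) := by
  have h1 := va_not_near hn
  have hδ2 : 0 < δ ^ 2 := by positivity
  have hcc : (E' - E) ^ 2 ≤ δ ^ 2 / 16 := by
    have := sq_le_sq' (by linarith [abs_nonneg (E' - E)]) hE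
    rw [sq_abs] at this
    nlinarith
  have h2 : ∀ f : ι → ℝ, δ ^ 2 / 4 * ∑ i, f i ^ 2 ≤ ∑ i, ((Hm A lam V E').mulVec f i) ^ 2 := by
    intro f
    have h3 : ∀ i, (Hm A lam V E).mulVec f i = (Hm A lam V E').mulVec f i + (E' - E) * f i := by
      intro i
      have h4 : Hm A lam V E = Hm A lam V E' + (E' - E) • (1 : Matrix ι ι ℝ) := by
        rw [← va_sub A lam V E E']
        abel
      rw [h4, Matrix.add_mulVec, Matrix.smul_mulVec, Matrix.one_mulVec]
      rfl
    have h5 : ∑ i, ((Hm A lam V E).mulVec f i) ^ 2 ≤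
        2 * ∑ i, ((Hm A lam V E').mulVec f i) ^ 2 + 2 * (E' - E) ^ 2 * ∑ i, f i ^ 2 := by
      rw [Finset.mul_sum, Finset.mul_sum, ← Finset.sum_add_distrib]
      refine Finset.sum_le_sum fun i _ => ?_
      rw [h3 i]
      nlinarith [sq_nonneg ((Hm A lam V E').mulVec f i - (E' - E) * f i)]
    have h6 : 0 ≤ ∑ i, f i ^ 2 := Finset.sum_nonneg fun i _ => sq_nonneg _
    have h7 := h1 f
    have h8 : 2 * (E' - E) ^ 2 * ∑ i, f i ^ 2 ≤ 2 * (δ ^ 2 / 16) * ∑ i, f i ^ 2 := by
      refine mul_le_mul_of_nonneg_right ?_ h6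
      linarith
    nlinarith
  have hU := va_unit hδ2 h1
  have hU' := va_unit (by positivity : 0 < δ ^ 2 / 4) h2
  have hdiff : Gr A lam V E' - Gr A lam V E = (E' - E) • (Gr A lam V E' * Gr A lam V E) := by
    unfold Gr
    have e1 : (Hm A lam V E')⁻¹ * (Hm A lam V E - Hm A lam V E') * (Hm A lam V E)⁻¹ =
        (Hm A lam V E')⁻¹ - (Hm A lam V E)⁻¹ := by
      rw [Matrix.mul_sub, Matrix.sub_mul, Matrix.mul_assoc, Matrix.mul_nonsing_inv _ hU,
        Matrix.nonsing_inv_mul _ hU', Matrix.mul_one, Matrix.one_mul]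
    rw [← e1, va_sub, Matrix.mul_smul, Matrix.mul_one, Matrix.smul_mul]
  have hentry : Gr A lam V E' x u - Gr A lam V E x u =
      (E' - E) * ∑ k, Gr A lam V E' x k * Gr A lam V E k u := by
    have := congrFun (congrFun hdiff x) u
    simpa [Matrix.mul_apply] using this
  rw [hentry, abs_mul]
  refine mul_le_mul_of_nonneg_left ?_ (abs_nonneg _)
  have hcs := Finset.sum_mul_sq_le_sq_mul_sq Finset.univ (fun k => Gr A lam V E' x k)
    (fun k => Gr A lam V E k u)
  have hc1 : ∑ k, (Gr A lam V E' x k) ^ 2 ≤ 1 / (δ ^ 2 / 4) := by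
    have := va_col (by positivity : 0 < δ ^ 2 / 4) h2 x
    refine le_trans (le_of_eq ?_) this
    refine Finset.sum_congr rfl fun k _ => ?_
    rw [va_symm A hA]
    rfl
  have hc2 : ∑ k, (Gr A lam V E k u) ^ 2 ≤ 1 / δ ^ 2 := va_col hδ2 h1 u
  have hc3 : (∑ k, Gr A lam V E' x k * Gr A lam V E k u) ^ 2 ≤ (2 / δ ^ 2) ^ 2 := by
    refine hcs.trans ?_
    calc _ ≤ 1 / (δ ^ 2 / 4) * (1 / δ ^ 2) :=
          mul_le_mul hc1 hc2 (Finset.sum_nonneg fun i _ => sq_nonneg _) (by positivity)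
      _ = (2 / δ ^ 2) ^ 2 := by field_simp; norm_num
  exact abs_le_of_sq_le_sq hc3 (by positivity)

theorem va_meas (A : Matrix ι ι ℝ) (lam E : ℝ) (x u : ι) :
    Measurable fun V : ι → ℝ => Gr A lam V E x u := by
  have hpair : Measurable fun V : ι → ℝ => ((V, E) : (ι → ℝ) × ℝ) :=
    Measurable.prodMk measurable_id measurable_const
  have h := (Ap.meas_Gr A lam x u).comp hpair
  simpa only [Function.comp_def] using h

end det

theorem var1 {ι : Type*} [Fintype ι] [DecidableEq ι] (μ : Measure ℝ) [IsProbabilityMeasure μ]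
    (A : Matrix ι ι ℝ) (hA : A.IsSymm) (lam : ℝ) (x : ι) (Bd : Finset ι) (a θ : ℝ) (hθ : 2 ≤ θ)
    (ε : ℝ≥0∞)
    (hdec : ∀ E ∈ Set.Icc a (a + 1), ∀ u ∈ Bd,
      ∫⁻ V, ‖Gr A lam V E x u‖ₑ ^ (1 / 4 : ℝ) ∂(Measure.pi fun _ : ι => μ) ≤ ε) :
    ∃ S : Set (ι → ℝ), MeasurableSet S ∧
      (Measure.pi fun _ : ι => μ) S ≤ ENNReal.ofReal (Real.exp (5 * θ)) * Bd.card * ε ∧
      ∀ V, V ∉ S → ∀ E ∈ Set.Icc a (a + 1), ¬ Near (Hm A lam V E) (Real.exp (-θ)) →
        ∀ u ∈ Bd, |Gr A lam V E x u| ≤ Real.exp (-θ) := by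
  set P : Measure (ι → ℝ) := Measure.pi fun _ : ι => μ with hP
  set R : Set ((ι → ℝ) × ℝ) := (Prod.snd ⁻¹' Set.Icc a (a + 1)) ∩
    ⋃ u ∈ Bd, {p : (ι → ℝ) × ℝ | Real.exp (-(2 * θ)) < |Gr A lam p.1 p.2 x u|} with hR
  have hRm : MeasurableSet R := by
    refine (measurable_snd measurableSet_Icc).inter ?_
    refine Finset.measurableSet_biUnion Bd fun u _ => ?_
    exact measurableSet_lt measurable_const (Ap.meas_Gr A lam x u).abs
  have hmf := measurable_measure_prodMk_left (ν := (volume : Measure ℝ)) hRm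
  set S : Set (ι → ℝ) := {V | ENNReal.ofReal (Real.exp (-(4 * θ))) < volume (Prod.mk V ⁻¹' R)} with hS
  have hSm : MeasurableSet S := measurableSet_lt measurable_const hmf
  -- the section at a fixed energy
  have hsec : ∀ E : ℝ, P ((fun V => (V, E)) ⁻¹' R) ≤
      (Set.Icc a (a + 1)).indicator
        (fun _ => ENNReal.ofReal (Real.exp (θ / 2)) * Bd.card * ε) E := by
    intro E
    by_cases hE : E ∈ Set.Icc a (a + 1)
    · rw [Set.indicator_of_mem hE]
      have hsub : (fun V => (V, E)) ⁻¹' R ⊆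
          ⋃ u ∈ Bd, {V : ι → ℝ | Real.exp (-(2 * θ)) < |Gr A lam V E x u|} := by
        intro V hV
        have hV2 := hV.2
        simp only [Set.mem_iUnion, Set.mem_ofPred_eq, exists_prop] at hV2 ⊢
        exact hV2
      refine (measure_mono hsub).trans ((measure_biUnion_finset_le _ _).trans ?_)
      have hone : ∀ u ∈ Bd, P {V : ι → ℝ | Real.exp (-(2 * θ)) < |Gr A lam V E x u|} ≤
          ENNReal.ofReal (Real.exp (θ / 2)) * ε := by
        intro u hu
        have hmeas : Measurable fun V : ι → ℝ => Gr A lam V E x u := va_meas A lam E x u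
        have hsub2 : {V : ι → ℝ | Real.exp (-(2 * θ)) < |Gr A lam V E x u|} ⊆
            {V : ι → ℝ | ENNReal.ofReal (Real.exp (-(θ / 2))) ≤ ‖Gr A lam V E x u‖ₑ ^ (1 / 4 : ℝ)} := by
          intro V hV
          simp only [Set.mem_ofPred_eq] at hV ⊢
          have e1 : ENNReal.ofReal (Real.exp (-(θ / 2))) =
              (ENNReal.ofReal (Real.exp (-(2 * θ)))) ^ (1 / 4 : ℝ) := by
            rw [ENNReal.ofReal_rpow_of_pos (Real.exp_pos _), ← Real.exp_mul]
            congr 2
            ring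
          rw [e1, Real.enorm_eq_ofReal_abs]
          exact ENNReal.rpow_le_rpow (ENNReal.ofReal_le_ofReal hV.le) (by norm_num)
        refine (measure_mono hsub2).trans ?_
        refine (meas_ge_le_lintegral_div (hmeas.enorm.pow_const _).aemeasurable
          (by simp [Real.exp_pos]) ENNReal.ofReal_ne_top).trans ?_
        rw [ENNReal.div_eq_inv_mul, ← ENNReal.ofReal_inv_of_pos (Real.exp_pos _), ← Real.exp_neg,
          neg_neg]
        exact mul_le_mul_right (hdec E hE u hu) _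
      refine (Finset.sum_le_sum hone).trans (le_of_eq ?_)
      rw [Finset.sum_const, nsmul_eq_mul]
      ring
    · rw [Set.indicator_of_notMem hE]
      have : (fun V => (V, E)) ⁻¹' R = (∅ : Set (ι → ℝ)) := by
        ext V
        simp only [Set.mem_preimage, Set.mem_empty_iff_false, iff_false]
        intro hV
        exact hE hV.1
      rw [this]
      simp
  have hint : ∫⁻ V, volume (Prod.mk V ⁻¹' R) ∂P ≤
      ENNReal.ofReal (Real.exp (θ / 2)) * Bd.card * ε := by
    rw [← Measure.prod_apply hRm, Measure.prod_apply_symm hRm]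
    refine (lintegral_mono hsec).trans ?_
    rw [lintegral_indicator measurableSet_Icc, setLIntegral_const, Real.volume_Icc]
    simp
  refine ⟨S, hSm, ?_, ?_⟩
  · have h1 : P S ≤ (∫⁻ V, volume (Prod.mk V ⁻¹' R) ∂P) / ENNReal.ofReal (Real.exp (-(4 * θ))) := by
      refine (measure_mono ?_).trans (meas_ge_le_lintegral_div hmf.aemeasurable
        (by simp [Real.exp_pos]) ENNReal.ofReal_ne_top)
      intro V hV
      have hV' : ENNReal.ofReal (Real.exp (-(4 * θ))) < volume (Prod.mk V ⁻¹' R) := hV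
      exact hV'.le
    refine h1.trans ?_
    rw [ENNReal.div_eq_inv_mul, ← ENNReal.ofReal_inv_of_pos (Real.exp_pos _), ← Real.exp_neg,
      neg_neg]
    calc ENNReal.ofReal (Real.exp (4 * θ)) * ∫⁻ V, volume (Prod.mk V ⁻¹' R) ∂P
        ≤ ENNReal.ofReal (Real.exp (4 * θ)) * (ENNReal.ofReal (Real.exp (θ / 2)) * Bd.card * ε) :=
          mul_le_mul_right hint _
      _ = ENNReal.ofReal (Real.exp (4 * θ) * Real.exp (θ / 2)) * Bd.card * ε := by
          rw [ENNReal.ofReal_mul (Real.exp_pos _).le]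
          ring
      _ ≤ ENNReal.ofReal (Real.exp (5 * θ)) * Bd.card * ε := by
          gcongr
          rw [← Real.exp_add]
          exact Real.exp_le_exp.2 (by linarith)
  · intro V hV E hE hn u hu
    by_contra hcon
    rw [not_le] at hcon
    apply hV
    have hδ : 0 < Real.exp (-θ) := Real.exp_pos _
    set r : ℝ := Real.exp (-(3 * θ)) / 4 with hr
    have hr0 : 0 < r := by positivity
    have hexp2 : (2 : ℝ) ≤ Real.exp θ := by
      have := Real.add_one_le_exp θ
      linarith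
    have hr1 : r ≤ Real.exp (-θ) / 4 := by
      rw [hr]
      have : Real.exp (-(3 * θ)) ≤ Real.exp (-θ) := Real.exp_le_exp.2 (by linarith)
      linarith
    have hr2 : r ≤ 1 / 4 := by
      have : Real.exp (-θ) ≤ 1 := Real.exp_le_one_iff.2 (by linarith)
      linarith
    have hin : ∀ E' : ℝ, E' ∈ Set.Icc a (a + 1) → |E' - E| ≤ r → (V, E') ∈ R := by
      intro E' hE' hd
      refine ⟨hE', ?_⟩
      simp only [Set.mem_iUnion, Set.mem_ofPred_eq, exists_prop]
      refine ⟨u, hu, ?_⟩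
      have h1 := va_stab A hA lam V E E' (Real.exp (-θ)) hδ hn (hd.trans hr1) x u
      have h2 : |E' - E| * (2 / Real.exp (-θ) ^ 2) ≤ Real.exp (-θ) / 2 := by
        calc |E' - E| * (2 / Real.exp (-θ) ^ 2) ≤ r * (2 / Real.exp (-θ) ^ 2) :=
              mul_le_mul_of_nonneg_right hd (by positivity)
          _ = Real.exp (-θ) / 2 := by
              have e3 : Real.exp (-(3 * θ)) = Real.exp (-θ) ^ 3 := by
                rw [← Real.exp_nat_mul]
                congr 1
                push_cast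
                ring
              rw [hr, e3]
              field_simp
              norm_num
      have h3 : |Gr A lam V E x u| - |Gr A lam V E' x u| ≤ Real.exp (-θ) / 2 := by
        have := abs_sub_abs_le_abs_sub (Gr A lam V E x u) (Gr A lam V E' x u)
        rw [abs_sub_comm] at this
        linarith
      have h4 : Real.exp (-(2 * θ)) ≤ Real.exp (-θ) / 2 := by
        have e4 : Real.exp (-(2 * θ)) * Real.exp θ = Real.exp (-θ) := by
          rw [← Real.exp_add]
          congr 1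
          ring
        have := Real.exp_pos (-(2 * θ))
        nlinarith
      linarith
    -- an interval of length r
    have hlen : ENNReal.ofReal r ≤ volume (Prod.mk V ⁻¹' R) := by
      rcases le_total (E + r) (a + 1) with h5 | h5
      · have hsub : Set.Icc E (E + r) ⊆ Prod.mk V ⁻¹' R := by
          intro E' hE'
          refine hin E' ⟨hE.1.trans hE'.1, hE'.2.trans h5⟩ ?_
          rw [abs_of_nonneg (by linarith [hE'.1])]
          linarith [hE'.2]
        refine le_trans ?_ (measure_mono hsub)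
        rw [Real.volume_Icc]
        exact ENNReal.ofReal_le_ofReal (by linarith)
      · have hsub : Set.Icc (E - r) E ⊆ Prod.mk V ⁻¹' R := by
          intro E' hE'
          refine hin E' ⟨by linarith [hE'.1], hE'.2.trans hE.2⟩ ?_
          rw [abs_of_nonpos (by linarith [hE'.2])]
          linarith [hE'.1]
        refine le_trans ?_ (measure_mono hsub)
        rw [Real.volume_Icc]
        exact ENNReal.ofReal_le_ofReal (by linarith)
    show ENNReal.ofReal (Real.exp (-(4 * θ))) < volume (Prod.mk V ⁻¹' R)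
    refine lt_of_lt_of_le ?_ hlen
    rw [ENNReal.ofReal_lt_ofReal_iff hr0, hr]
    have e5 : Real.exp (-(4 * θ)) * Real.exp θ = Real.exp (-(3 * θ)) := by
      rw [← Real.exp_add]
      congr 1
      ring
    have hexp4 : (4 : ℝ) < Real.exp θ := by
      have h6 : Real.exp 2 ≤ Real.exp θ := Real.exp_le_exp.2 hθ
      have h7 : (4 : ℝ) < Real.exp 2 := by
        have h8 : Real.exp 2 = Real.exp 1 * Real.exp 1 := by
          rw [← Real.exp_add]
          norm_num
        have h9 := Real.exp_one_gt_d9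
        rw [h8]
        nlinarith
      linarith
    have := Real.exp_pos (-(4 * θ))
    rw [lt_div_iff₀ (by norm_num)]
    nlinarith

end Var
end Pool.Agent.H4R2.LO
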