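import Pool.Agent.H4R2.LO.Wg
import Pool.Agent.H4R2.LO.La

/-! Two boxes are not resonant at a common energy (team LO). -/

set_option autoImplicit false

open scoped BigOperators ENNReal
open MeasureTheory

namespace Pool.Agent.H4R2.LO

namespace Var

/-- changing the energy by at most `δ` -/
theorem near_shift {ι : Type*} [Fintype ι] [DecidableEq ι] (A : Matrix ι ι ℝ) (lam : ℝ)
    (V : ι → ℝ) (E E' δ : ℝ) (h : Near (Hm A lam V E) δ)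
    (hE : |E - E'| ≤ δ) : Near (Hm A lam V E') (2 * δ) := by
  obtain ⟨f, hf, h1⟩ := h
  refine ⟨f, hf, ?_⟩
  have h2 : ∀ i, (Hm A lam V E').mulVec f i = (Hm A lam V E).mulVec f i + (E - E') * f i := by
    intro i
    unfold Hm
    rw [Matrix.add_mulVec, Matrix.add_mulVec, Pi.add_apply, Pi.add_apply, Matrix.mulVec_diagonal,
      Matrix.mulVec_diagonal]
    ring
  have h3 : (E - E') ^ 2 ≤ δ ^ 2 := by
    rw [← sq_abs (E - E')]
    exact pow_le_pow_left₀ (abs_nonneg _) hE 2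
  have h4 : ∀ i, ((Hm A lam V E').mulVec f i) ^ 2 ≤
      2 * ((Hm A lam V E).mulVec f i) ^ 2 + 2 * δ ^ 2 * f i ^ 2 := by
    intro i
    rw [h2 i]
    have h5 : (E - E') ^ 2 * f i ^ 2 ≤ δ ^ 2 * f i ^ 2 :=
      mul_le_mul_of_nonneg_right h3 (sq_nonneg _)
    nlinarith [sq_nonneg ((Hm A lam V E).mulVec f i - (E - E') * f i)]
  calc ∑ i, ((Hm A lam V E').mulVec f i) ^ 2
      ≤ ∑ i, (2 * ((Hm A lam V E).mulVec f i) ^ 2 + 2 * δ ^ 2 * f i ^ 2) :=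
        Finset.sum_le_sum fun i _ => h4 i
    _ = 2 * ∑ i, ((Hm A lam V E).mulVec f i) ^ 2 + 2 * δ ^ 2 * ∑ i, f i ^ 2 := by
        rw [Finset.sum_add_distrib, Finset.mul_sum, Finset.mul_sum]
    _ ≤ 2 * (δ ^ 2 * ∑ i, f i ^ 2) + 2 * δ ^ 2 * ∑ i, f i ^ 2 := by linarith
    _ = (2 * δ) ^ 2 * ∑ i, f i ^ 2 := by ring

/-- two boxes cannot be resonant at a common energy -/
theorem weg2 (d : ℕ) (μ : Measure ℝ) [IsProbabilityMeasure μ] (D : ℝ) (hD : 0 < D)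
    (hμ : μ ≤ ENNReal.ofReal D • (volume : Measure ℝ)) (lam : ℝ) (hlam : 0 < lam)
    (Λ₁ Λ₂ : Finset (Zd d)) (hdis : Disjoint Λ₁ Λ₂) (a δ : ℝ) (hδ : 0 < δ) (hδ' : δ ≤ 1) :
    (Measure.infinitePi fun _ : Zd d => μ) {ω | ∃ E ∈ Set.Icc a (a + 1),
        Near (Hm (AL Λ₁) lam (rs Λ₁ ω) E) δ ∧ Near (Hm (AL Λ₂) lam (rs Λ₂ ω) E) δ} ≤
      ENNReal.ofReal (3 * (16 * D / lam) ^ 2 * δ * Λ₁.card * Λ₂.card) := by
  obtain ⟨P, hP⟩ : ∃ P : Measure (Zd d → ℝ), P = Measure.infinitePi fun _ : Zd d => μ :=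
    ⟨_, rfl⟩
  rw [← hP]
  have hrs : ∀ Λ : Finset (Zd d), Measurable (rs Λ) := fun Λ =>
    measurable_pi_lambda _ fun i => measurable_pi_apply _
  have hlaw : ∀ (Λ : Finset (Zd d)) (S : Set (Λ → ℝ)), MeasurableSet S →
      P (rs Λ ⁻¹' S) = (Measure.pi fun _ : Λ => μ) S := by
    intro Λ S hS
    rw [← Em.rs_map μ Λ, Measure.map_apply (hrs Λ) hS, hP]
  have hind : ∀ (S : Set (Λ₁ → ℝ)) (S' : Set (Λ₂ → ℝ)), MeasurableSet S → MeasurableSet S' →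
      P (rs Λ₁ ⁻¹' S ∩ rs Λ₂ ⁻¹' S') =
        (Measure.pi fun _ : Λ₁ => μ) S * (Measure.pi fun _ : Λ₂ => μ) S' := by
    intro S S' hS hS'
    have h1 : ProbabilityTheory.iIndepFun (fun (i : Zd d) (ω : Zd d → ℝ) => ω i)
        (Measure.infinitePi fun _ : Zd d => μ) :=
      ProbabilityTheory.iIndepFun_infinitePi (P := fun _ : Zd d => μ)
        (X := fun _ : Zd d => (id : ℝ → ℝ)) (fun _ => measurable_id)
    have h2 := h1.indepFun_finset Λ₁ Λ₂ hdis (fun i => measurable_pi_apply i)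
    have h3 := h2.measure_inter_preimage_eq_mul S S' hS hS'
    rw [← hP] at h3
    have h4 : P (rs Λ₁ ⁻¹' S ∩ rs Λ₂ ⁻¹' S') = P (rs Λ₁ ⁻¹' S) * P (rs Λ₂ ⁻¹' S') := h3
    rw [h4, hlaw Λ₁ S hS, hlaw Λ₂ S' hS']
  -- the grid
  obtain ⟨K, hK⟩ : ∃ K : ℕ, K = ⌊1 / δ⌋₊ + 1 := ⟨_, rfl⟩
  have hdiag : ∀ Λ : Finset (Zd d), ∀ i : Λ, AL Λ i i = 0 := fun Λ i => Em.adj_self _
  have hex : ∀ (Λ : Finset (Zd d)) (k : ℕ), ∃ S : Set (Λ → ℝ), MeasurableSet S ∧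
      (∀ V, Near (Hm (AL Λ) lam V (a + k * δ)) (2 * δ) → V ∈ S) ∧
      (Measure.pi fun _ : Λ => μ) S ≤ ENNReal.ofReal (16 * D / lam * δ * Λ.card) := by
    intro Λ k
    obtain ⟨S, h1, h2, h3⟩ := Wg.wegner μ D hD hμ (AL Λ) (Em.AL_symm Λ) (hdiag Λ) lam hlam
      (a + k * δ) (2 * δ) (by positivity)
    refine ⟨S, h1, h2, h3.trans (le_of_eq ?_)⟩
    rw [Fintype.card_coe]
    congr 1
    ring
  choose S1 m1 n1 p1 using hex Λ₁
  choose S2 m2 n2 p2 using hex Λ₂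
  have hsub : {ω | ∃ E ∈ Set.Icc a (a + 1),
        Near (Hm (AL Λ₁) lam (rs Λ₁ ω) E) δ ∧ Near (Hm (AL Λ₂) lam (rs Λ₂ ω) E) δ} ⊆
      ⋃ k ∈ Finset.range K, (rs Λ₁ ⁻¹' (S1 k) ∩ rs Λ₂ ⁻¹' (S2 k)) := by
    rintro ω ⟨E, ⟨hE1, hE2⟩, hn1, hn2⟩
    obtain ⟨k, hk⟩ : ∃ k : ℕ, k = ⌊(E - a) / δ⌋₊ := ⟨_, rfl⟩
    have hq : 0 ≤ (E - a) / δ := div_nonneg (by linarith) hδ.le
    have hk1 : (k : ℝ) * δ ≤ E - a := by
      have := Nat.floor_le hq
      rw [← hk, le_div_iff₀ hδ] at this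
      exact this
    have hk2 : E - a ≤ (k + 1) * δ := by
      have := (Nat.lt_floor_add_one ((E - a) / δ)).le
      rw [← hk, div_le_iff₀ hδ] at this
      exact this
    have hkK : k < K := by
      rw [hK, hk]
      apply Nat.lt_succ_of_le
      apply Nat.floor_le_floor
      apply div_le_div_of_nonneg_right _ hδ.le
      linarith
    have habs : |E - (a + k * δ)| ≤ δ := by
      rw [abs_le]
      constructor <;> linarith
    rw [Set.mem_iUnion₂]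
    exact ⟨k, Finset.mem_range.2 hkK, n1 k _ (near_shift _ _ _ _ _ _ hn1 habs),
      n2 k _ (near_shift _ _ _ _ _ _ hn2 habs)⟩
  have hc1 : 0 ≤ 16 * D / lam * δ * Λ₁.card := by positivity
  have hc2 : 0 ≤ 16 * D / lam * δ * Λ₂.card := by positivity
  calc P {ω | ∃ E ∈ Set.Icc a (a + 1),
        Near (Hm (AL Λ₁) lam (rs Λ₁ ω) E) δ ∧ Near (Hm (AL Λ₂) lam (rs Λ₂ ω) E) δ}
      ≤ P (⋃ k ∈ Finset.range K, (rs Λ₁ ⁻¹' (S1 k) ∩ rs Λ₂ ⁻¹' (S2 k))) := measure_mono hsub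
    _ ≤ ∑ k ∈ Finset.range K, P (rs Λ₁ ⁻¹' (S1 k) ∩ rs Λ₂ ⁻¹' (S2 k)) :=
        measure_biUnion_finset_le _ _
    _ ≤ ∑ k ∈ Finset.range K, ENNReal.ofReal
          ((16 * D / lam * δ * Λ₁.card) * (16 * D / lam * δ * Λ₂.card)) := by
        apply Finset.sum_le_sum
        intro k _
        rw [hind _ _ (m1 k) (m2 k), ENNReal.ofReal_mul hc1]
        exact mul_le_mul' (p1 k) (p2 k)
    _ = ENNReal.ofReal (K * ((16 * D / lam * δ * Λ₁.card) * (16 * D / lam * δ * Λ₂.card))) := by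
        rw [Finset.sum_const, Finset.card_range, nsmul_eq_mul,
          ENNReal.ofReal_mul (Nat.cast_nonneg K), ENNReal.ofReal_natCast]
    _ ≤ _ := by
        apply ENNReal.ofReal_le_ofReal
        have hK2 : (K : ℝ) * δ ≤ 3 := by
          have h1 : (⌊1 / δ⌋₊ : ℝ) ≤ 1 / δ := Nat.floor_le (by positivity)
          rw [le_div_iff₀ hδ] at h1
          rw [hK]
          push_cast
          linarith
        have h5 : (K : ℝ) * ((16 * D / lam * δ * Λ₁.card) * (16 * D / lam * δ * Λ₂.card)) =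
            ((K : ℝ) * δ) * ((16 * D / lam) ^ 2 * δ * Λ₁.card * Λ₂.card) := by ring
        have h6 : 3 * (16 * D / lam) ^ 2 * δ * Λ₁.card * Λ₂.card =
            3 * ((16 * D / lam) ^ 2 * δ * Λ₁.card * Λ₂.card) := by ring
        rw [h5, h6]
        exact mul_le_mul_of_nonneg_right hK2 (by positivity)

end Var

end Pool.Agent.H4R2.LO
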