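import Pool.Agent.H4R2.LO.La
import Pool.Agent.H4R2.LO.Box
import Pool.Agent.H4R2.LO.Var
import Pool.Agent.H4R2.LO.Weg2

/-!
# Decay of fractional moments implies exponential decay of all generalised eigenfunctions
(helper992, team LO, task GE)
-/

set_option autoImplicit false

open scoped BigOperators ENNReal
open MeasureTheory

namespace Pool.Agent.H4R2.LO

namespace Gef

theorem isUnit_of_not_near {ι : Type*} [Fintype ι] [DecidableEq ι] (M : Matrix ι ι ℝ) (δ : ℝ)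
    (h : ¬ Near M δ) : IsUnit M.det := by
  by_contra hu
  apply h
  have h0 : M.det = 0 := by
    by_contra h1
    exact hu (isUnit_iff_ne_zero.mpr h1)
  obtain ⟨v, hv, hv'⟩ := Matrix.exists_mulVec_eq_zero_iff.mpr h0
  refine ⟨v, hv, ?_⟩
  rw [hv']
  have : (0 : ℝ) ≤ δ ^ 2 * ∑ i, v i ^ 2 :=
    mul_nonneg (sq_nonneg _) (Finset.sum_nonneg fun i _ => sq_nonneg _)
  simpa using this

/-- the box around `x` is good at energy `E` -/
def GoodB {d : ℕ} (lam : ℝ) (ω : Zd d → ℝ) (E θ : ℝ) (x : Zd d) (l : ℕ) : Prop :=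
  ∃ hx : x ∈ bx x l, ¬ Near (Hm (AL (bx x l)) lam (rs (bx x l) ω) E) (Real.exp (-θ)) ∧
    ∀ u : bx x l, dd x u.1 = l →
      |Gr (AL (bx x l)) lam (rs (bx x l) ω) E ⟨x, hx⟩ u| ≤ Real.exp (-θ)

theorem meas_rs {d : ℕ} (Λ : Finset (Zd d)) : Measurable (rs Λ) :=
  measurable_pi_lambda _ fun i => measurable_pi_apply i.1

/-- one box -/
theorem single (d : ℕ) (μ : Measure ℝ) [IsProbabilityMeasure μ] (lam : ℝ) (E1 C0 m0 : ℝ)
    (hdec : ∀ (Λ : Finset (Zd d)) (E : ℝ), E ≤ E1 → ∀ x y : Λ,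
      ∫⁻ V, ‖Gr (AL Λ) lam V E x y‖ₑ ^ (1 / 4 : ℝ) ∂(Measure.pi fun _ : Λ => μ) ≤
        ENNReal.ofReal (C0 * Real.exp (-(m0 * dd x.1 y.1))))
    (x : Zd d) (l : ℕ) (a : ℝ) (ha : a + 1 ≤ E1) (θ : ℝ) (hθ : 2 ≤ θ) :
    ∃ S : Set (Zd d → ℝ), (Measure.infinitePi fun _ : Zd d => μ) S ≤
        ENNReal.ofReal (Real.exp (5 * θ) * (2 * l + 1) ^ d * (|C0| * Real.exp (-(m0 * l)))) ∧
      ∀ ω, ω ∉ S → ∀ E ∈ Set.Icc a (a + 1),
        ¬ Near (Hm (AL (bx x l)) lam (rs (bx x l) ω) E) (Real.exp (-θ)) →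
        GoodB lam ω E θ x l := by
  classical
  have hx : x ∈ bx x l := by
    rw [Em.mem_bx, Em.dd_self]
    exact Nat.zero_le _
  set Bd : Finset (bx x l) := Finset.univ.filter fun u => dd x u.1 = l with hBd
  obtain ⟨S', hS', hS'm, hS'g⟩ := Var.var1 μ (AL (bx x l)) (Em.AL_symm _) lam (⟨x, hx⟩ : bx x l) Bd a θ
    hθ (ENNReal.ofReal (|C0| * Real.exp (-(m0 * l)))) (by
      intro E hE u hu
      refine (hdec (bx x l) E (by linarith [hE.2]) ⟨x, hx⟩ u).trans ?_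
      have hu' : dd x u.1 = l := by simpa [hBd] using hu
      apply ENNReal.ofReal_le_ofReal
      simp only
      rw [hu']
      exact mul_le_mul_of_nonneg_right (le_abs_self _) (Real.exp_pos _).le)
  refine ⟨rs (bx x l) ⁻¹' S', ?_, ?_⟩
  · rw [← Measure.map_apply (meas_rs _) hS', Em.rs_map]
    refine hS'm.trans ?_
    have hc : (Bd.card : ℝ≥0∞) ≤ ENNReal.ofReal ((2 * l + 1) ^ d) := by
      have h1 : Bd.card ≤ (2 * l + 1) ^ d := by
        calc Bd.card ≤ (Finset.univ : Finset (bx x l)).card := Finset.card_le_card (Finset.filter_subset _ _)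
          _ = (bx x l).card := by rw [Finset.card_univ, Fintype.card_coe]
          _ = (2 * l + 1) ^ d := Em.card_bx x l
      have h2 : (Bd.card : ℝ≥0∞) = ENNReal.ofReal (Bd.card : ℝ) := by simp
      rw [h2]
      apply ENNReal.ofReal_le_ofReal
      exact_mod_cast h1
    have e1 : ENNReal.ofReal (Real.exp (5 * θ) * (2 * l + 1) ^ d * (|C0| * Real.exp (-(m0 * l)))) =
        ENNReal.ofReal (Real.exp (5 * θ)) * ENNReal.ofReal ((2 * l + 1) ^ d) *
          ENNReal.ofReal (|C0| * Real.exp (-(m0 * l))) := by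
      rw [ENNReal.ofReal_mul (p := Real.exp (5 * θ) * (2 * l + 1) ^ d) (by positivity),
        ENNReal.ofReal_mul (p := Real.exp (5 * θ)) (by positivity)]
    rw [e1]
    gcongr
  · intro ω hω E hE hN
    exact ⟨hx, hN, fun u hu => hS'g _ hω E hE hN u (by simpa [hBd] using hu)⟩

/-- all pairs of boxes -/
theorem pair (d : ℕ) (μ : Measure ℝ) [IsProbabilityMeasure μ] (B : ℝ) (hμ : Reg B μ)
    (lam : ℝ) (hlam : 0 < lam) (E1 C0 m : ℝ)
    (hdec : ∀ (Λ : Finset (Zd d)) (E : ℝ), E ≤ E1 → ∀ x y : Λ,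
      ∫⁻ V, ‖Gr (AL Λ) lam V E x y‖ₑ ^ (1 / 4 : ℝ) ∂(Measure.pi fun _ : Λ => μ) ≤
        ENNReal.ofReal (C0 * Real.exp (-(6 * m * dd x.1 y.1))))
    (x0 : Zd d) (l : ℕ) (a : ℝ) (ha : a + 1 ≤ E1) (hθ : 2 ≤ m * l) :
    ∃ S : Set (Zd d → ℝ), (Measure.infinitePi fun _ : Zd d => μ) S ≤
        ENNReal.ofReal ((2 * |C0| + 3 * (16 * B / lam) ^ 2) * ((4 * l + 5) ^ (3 * d) *
          Real.exp (-(m * l)))) ∧
      ∀ ω, ω ∉ S → ∀ E ∈ Set.Icc a (a + 1), ∀ y, 2 * l + 1 ≤ dd x0 y → dd x0 y ≤ 2 * l + 2 →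
        GoodB lam ω E (m * l) x0 l ∨ GoodB lam ω E (m * l) y l := by
  classical
  have hsingle : ∀ y : Zd d, ∃ S : Set (Zd d → ℝ), (Measure.infinitePi fun _ : Zd d => μ) S ≤
        ENNReal.ofReal (Real.exp (5 * (m * l)) * (2 * l + 1) ^ d * (|C0| * Real.exp (-(6 * m * l)))) ∧
      ∀ ω, ω ∉ S → ∀ E ∈ Set.Icc a (a + 1),
        ¬ Near (Hm (AL (bx y l)) lam (rs (bx y l) ω) E) (Real.exp (-(m * l))) →
        GoodB lam ω E (m * l) y l := fun y =>
    single d μ lam E1 C0 (6 * m) hdec y l a ha (m * l) hθ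
  choose S1 hS1 hS1g using hsingle
  set W : Zd d → Set (Zd d → ℝ) := fun y => {ω | ∃ E ∈ Set.Icc a (a + 1),
        Near (Hm (AL (bx x0 l)) lam (rs (bx x0 l) ω) E) (Real.exp (-(m * l))) ∧
        Near (Hm (AL (bx y l)) lam (rs (bx y l) ω) E) (Real.exp (-(m * l)))} with hW
  have hWm : ∀ y, 2 * l + 1 ≤ dd x0 y → (Measure.infinitePi fun _ : Zd d => μ) (W y) ≤
      ENNReal.ofReal (3 * (16 * B / lam) ^ 2 * Real.exp (-(m * l)) * (2 * l + 1) ^ d *
        (2 * l + 1) ^ d) := by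
    intro y hy
    have hdis : Disjoint (bx x0 l) (bx y l) := by
      rw [Finset.disjoint_left]
      intro z hz hz'
      rw [Em.mem_bx] at hz hz'
      have := Em.dd_tri x0 z y
      rw [Em.dd_comm z y] at this
      omega
    have := Var.weg2 d μ B hμ.1 hμ.2.1 lam hlam (bx x0 l) (bx y l) hdis a (Real.exp (-(m * l)))
      (Real.exp_pos _) (by rw [Real.exp_le_one_iff]; linarith)
    refine this.trans (le_of_eq ?_)
    rw [Em.card_bx, Em.card_bx]
    push_cast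
    ring_nf
  set F : Finset (Zd d) := (bx x0 (2 * l + 2)).filter fun y => 2 * l + 1 ≤ dd x0 y with hF
  have hFc : (F.card : ℝ) ≤ (4 * l + 5) ^ d := by
    have h1 : F.card ≤ (2 * (2 * l + 2) + 1) ^ d := by
      calc F.card ≤ (bx x0 (2 * l + 2)).card := Finset.card_le_card (Finset.filter_subset _ _)
        _ = _ := Em.card_bx _ _
    have h2 : (F.card : ℝ) ≤ ((2 * (2 * l + 2) + 1) ^ d : ℕ) := by exact_mod_cast h1
    refine h2.trans (le_of_eq ?_)
    push_cast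
    ring_nf
  refine ⟨⋃ y ∈ F, (S1 x0 ∪ S1 y) ∪ W y, ?_, ?_⟩
  · set p1 : ℝ := Real.exp (5 * (m * l)) * (2 * l + 1) ^ d * (|C0| * Real.exp (-(6 * m * l))) with hp1
    set p2 : ℝ := 3 * (16 * B / lam) ^ 2 * Real.exp (-(m * l)) * (2 * l + 1) ^ d * (2 * l + 1) ^ d
      with hp2
    have hp1' : 0 ≤ p1 := by positivity
    have hp2' : 0 ≤ p2 := by positivity
    calc (Measure.infinitePi fun _ : Zd d => μ) (⋃ y ∈ F, (S1 x0 ∪ S1 y) ∪ W y)
        ≤ ∑ y ∈ F, (Measure.infinitePi fun _ : Zd d => μ) ((S1 x0 ∪ S1 y) ∪ W y) :=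
          measure_biUnion_finset_le _ _
      _ ≤ ∑ y ∈ F, ENNReal.ofReal (p1 + p1 + p2) := by
          apply Finset.sum_le_sum
          intro y hy
          have hy' : 2 * l + 1 ≤ dd x0 y := by
            have := (Finset.mem_filter.mp hy).2
            exact this
          refine (measure_union_le _ _).trans ?_
          rw [ENNReal.ofReal_add (by positivity) hp2', ENNReal.ofReal_add hp1' hp1']
          gcongr
          · refine (measure_union_le _ _).trans ?_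
            exact add_le_add (hS1 x0) (hS1 y)
          · exact hWm y hy'
      _ = ENNReal.ofReal (F.card * (p1 + p1 + p2)) := by
          rw [Finset.sum_const, nsmul_eq_mul, ENNReal.ofReal_mul (by positivity)]
          simp
      _ ≤ _ := by
          apply ENNReal.ofReal_le_ofReal
          have e1 : p1 = |C0| * (2 * l + 1) ^ d * Real.exp (-(m * l)) := by
            rw [hp1]
            have : Real.exp (-(m * l)) = Real.exp (5 * (m * l)) * Real.exp (-(6 * m * l)) := by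
              rw [← Real.exp_add]
              congr 1
              ring
            rw [this]
            ring
          have h45 : (2 * (l : ℝ) + 1) ^ d ≤ (4 * l + 5) ^ d := by
            apply pow_le_pow_left₀ (by positivity)
            have : (0 : ℝ) ≤ l := Nat.cast_nonneg _
            linarith
          have h1 : (1 : ℝ) ≤ (4 * l + 5) ^ d := by
            apply one_le_pow₀
            have : (0 : ℝ) ≤ l := Nat.cast_nonneg _
            linarith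
          have hE := Real.exp_pos (-(m * (l : ℝ)))
          set X : ℝ := (4 * l + 5) ^ d with hX
          set Y : ℝ := (2 * (l : ℝ) + 1) ^ d with hY
          have hY0 : 0 ≤ Y := by positivity
          have hX0 : 0 ≤ X := by positivity
          set K2 : ℝ := 3 * (16 * B / lam) ^ 2 with hK2
          have hK20 : 0 ≤ K2 := by positivity
          set e := Real.exp (-(m * (l : ℝ))) with he
          have hC0 : 0 ≤ |C0| := abs_nonneg _
          have hX3 : ((4 * (l : ℝ) + 5) ^ (3 * d)) = X ^ 3 := by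
            rw [hX, ← pow_mul, mul_comm 3 d]
          rw [hX3, e1, hp2]
          have h3 : X * (|C0| * Y * e) ≤ |C0| * (X ^ 3 * e) := by
            have : X * Y ≤ X ^ 3 := by
              have : Y ≤ X ^ 2 := by nlinarith
              calc X * Y ≤ X * X ^ 2 := mul_le_mul_of_nonneg_left this hX0
                _ = X ^ 3 := by ring
            calc X * (|C0| * Y * e) = (|C0| * e) * (X * Y) := by ring
              _ ≤ (|C0| * e) * X ^ 3 := mul_le_mul_of_nonneg_left this (by positivity)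
              _ = _ := by ring
          have h4 : X * (K2 * e * Y * Y) ≤ K2 * (X ^ 3 * e) := by
            have : X * (Y * Y) ≤ X ^ 3 := by
              calc X * (Y * Y) ≤ X * (X * X) := by gcongr
                _ = X ^ 3 := by ring
            calc X * (K2 * e * Y * Y) = (K2 * e) * (X * (Y * Y)) := by ring
              _ ≤ (K2 * e) * X ^ 3 := mul_le_mul_of_nonneg_left this (by positivity)
              _ = _ := by ring
          calc (F.card : ℝ) * (|C0| * Y * e + |C0| * Y * e + K2 * e * Y * Y)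
              ≤ X * (|C0| * Y * e + |C0| * Y * e + K2 * e * Y * Y) :=
                mul_le_mul_of_nonneg_right hFc (by positivity)
            _ = X * (|C0| * Y * e) + X * (|C0| * Y * e) + X * (K2 * e * Y * Y) := by ring
            _ ≤ |C0| * (X ^ 3 * e) + |C0| * (X ^ 3 * e) + K2 * (X ^ 3 * e) := by linarith
            _ = _ := by ring
  · intro ω hω E hE y hy1 hy2
    have hyF : y ∈ F := by
      rw [hF, Finset.mem_filter, Em.mem_bx]
      exact ⟨hy2, hy1⟩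
    have hω' : ω ∉ (S1 x0 ∪ S1 y) ∪ W y := by
      intro h
      exact hω (Set.mem_iUnion₂.mpr ⟨y, hyF, h⟩)
    have h1 : ω ∉ S1 x0 := fun h => hω' (Or.inl (Or.inl h))
    have h2 : ω ∉ S1 y := fun h => hω' (Or.inl (Or.inr h))
    have h3 : ω ∉ W y := fun h => hω' (Or.inr h)
    by_cases hN : Near (Hm (AL (bx x0 l)) lam (rs (bx x0 l) ω) E) (Real.exp (-(m * l)))
    · right
      apply hS1g y ω h2 E hE
      intro hN'
      exact h3 ⟨E, hE, hN, hN'⟩
    · left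
      exact hS1g x0 ω h1 E hE hN

theorem summ (K : ℝ) (d : ℕ) (m : ℝ) (hm : 0 < m) :
    Summable fun l : ℕ => K * ((4 * (l : ℝ) + 5) ^ (3 * d) * Real.exp (-(m * l))) := by
  apply Summable.mul_left
  have h1 : Summable fun n : ℕ => ((n : ℝ)) ^ (3 * d) * Real.exp (-m * n) :=
    Real.summable_pow_mul_exp_neg_nat_mul (3 * d) hm
  have h2 : Summable fun n : ℕ => (((n + 1 : ℕ) : ℝ)) ^ (3 * d) * Real.exp (-m * ((n + 1 : ℕ) : ℝ)) :=
    (summable_nat_add_iff 1).mpr h1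
  refine Summable.of_nonneg_of_le (fun n => by positivity) (fun n => ?_)
    (h2.mul_left (5 ^ (3 * d) * Real.exp m))
  have h3 : (4 * (n : ℝ) + 5) ^ (3 * d) ≤ 5 ^ (3 * d) * (((n + 1 : ℕ) : ℝ)) ^ (3 * d) := by
    rw [← mul_pow]
    apply pow_le_pow_left₀ (by positivity)
    push_cast
    have : (0 : ℝ) ≤ n := Nat.cast_nonneg _
    linarith
  have h4 : Real.exp (-(m * n)) = Real.exp m * Real.exp (-m * ((n + 1 : ℕ) : ℝ)) := by
    rw [← Real.exp_add]
    congr 1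
    push_cast
    ring
  rw [h4]
  calc (4 * (n : ℝ) + 5) ^ (3 * d) * (Real.exp m * Real.exp (-m * ((n + 1 : ℕ) : ℝ)))
      ≤ (5 ^ (3 * d) * (((n + 1 : ℕ) : ℝ)) ^ (3 * d)) *
        (Real.exp m * Real.exp (-m * ((n + 1 : ℕ) : ℝ))) :=
        mul_le_mul_of_nonneg_right h3 (by positivity)
    _ = _ := by ring

/-- almost surely, eventually one of the two boxes is good -/
theorem evt (d : ℕ) (μ : Measure ℝ) [IsProbabilityMeasure μ] (B : ℝ) (hμ : Reg B μ)
    (lam : ℝ) (hlam : 0 < lam) (E1 C0 m : ℝ) (hm : 0 < m)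
    (hdec : ∀ (Λ : Finset (Zd d)) (E : ℝ), E ≤ E1 → ∀ x y : Λ,
      ∫⁻ V, ‖Gr (AL Λ) lam V E x y‖ₑ ^ (1 / 4 : ℝ) ∂(Measure.pi fun _ : Λ => μ) ≤
        ENNReal.ofReal (C0 * Real.exp (-(6 * m * dd x.1 y.1))))
    (x0 : Zd d) (a : ℝ) (ha : a + 1 ≤ E1) :
    ∀ᵐ ω ∂(Measure.infinitePi fun _ : Zd d => μ), ∀ᶠ l : ℕ in Filter.atTop,
      ∀ E ∈ Set.Icc a (a + 1), ∀ y, 2 * l + 1 ≤ dd x0 y → dd x0 y ≤ 2 * l + 2 →
        GoodB lam ω E (m * l) x0 l ∨ GoodB lam ω E (m * l) y l := by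
  classical
  have hex : ∀ l : ℕ, ∃ S : Set (Zd d → ℝ), (Measure.infinitePi fun _ : Zd d => μ) S ≤
        ENNReal.ofReal ((2 * |C0| + 3 * (16 * B / lam) ^ 2) * ((4 * l + 5) ^ (3 * d) *
          Real.exp (-(m * l)))) ∧ (2 ≤ m * l → 
      ∀ ω, ω ∉ S → ∀ E ∈ Set.Icc a (a + 1), ∀ y, 2 * l + 1 ≤ dd x0 y → dd x0 y ≤ 2 * l + 2 →
        GoodB lam ω E (m * l) x0 l ∨ GoodB lam ω E (m * l) y l) := by
    intro l
    by_cases hl : 2 ≤ m * l
    · obtain ⟨S, h1, h2⟩ := pair d μ B hμ lam hlam E1 C0 m hdec x0 l a ha hl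
      exact ⟨S, h1, fun _ => h2⟩
    · exact ⟨∅, by simp, fun h => absurd h hl⟩
  choose S hS hSg using hex
  have hsum : (∑' l, (Measure.infinitePi fun _ : Zd d => μ) (S l)) ≠ ⊤ := by
    refine ne_top_of_le_ne_top ?_ (ENNReal.tsum_le_tsum hS)
    exact (summ _ d m hm).tsum_ofReal_ne_top
  filter_upwards [ae_eventually_notMem hsum] with ω hω
  have h2 : ∀ᶠ l : ℕ in Filter.atTop, 2 ≤ m * (l : ℝ) := by
    have : Filter.Tendsto (fun l : ℕ => m * (l : ℝ)) Filter.atTop Filter.atTop :=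
      (tendsto_natCast_atTop_atTop).const_mul_atTop hm
    exact this.eventually_ge_atTop 2
  filter_upwards [hω, h2] with l h3 h4
  exact hSg l h4 ω h3

/-- polynomial times exponential is bounded by a slower exponential -/
theorem polyexp (m : ℝ) (hm : 0 < m) (p q : ℕ) (c A : ℝ) (hc : 0 ≤ c) (hA : 0 ≤ A) :
    ∃ K : ℝ, 0 ≤ K ∧ ∀ l : ℕ,
      (2 * (l : ℝ) + 1) ^ p * A * Real.exp (-(m * l)) * (c + 3 * l) ^ q ≤
        K * Real.exp (-(m / 2 * l)) := by
  have h1 : Summable fun n : ℕ => ((n : ℝ)) ^ (p + q) * Real.exp (-(m / 2) * n) :=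
    Real.summable_pow_mul_exp_neg_nat_mul (p + q) (by positivity)
  have h2 : Summable fun n : ℕ => (((n + 1 : ℕ) : ℝ)) ^ (p + q) *
      Real.exp (-(m / 2) * ((n + 1 : ℕ) : ℝ)) := (summable_nat_add_iff 1).mpr h1
  set T := ∑' n : ℕ, (((n + 1 : ℕ) : ℝ)) ^ (p + q) * Real.exp (-(m / 2) * ((n + 1 : ℕ) : ℝ)) with hT
  have hT0 : 0 ≤ T := tsum_nonneg fun n => by positivity
  refine ⟨2 ^ p * A * (c + 3) ^ q * Real.exp (m / 2) * T, by positivity, fun l => ?_⟩
  have hl : (0 : ℝ) ≤ l := Nat.cast_nonneg _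
  have h3 : (((l + 1 : ℕ) : ℝ)) ^ (p + q) * Real.exp (-(m / 2) * ((l + 1 : ℕ) : ℝ)) ≤ T :=
    h2.le_tsum l fun n _ => by positivity
  have h4 : (2 * (l : ℝ) + 1) ^ p ≤ 2 ^ p * ((l : ℝ) + 1) ^ p := by
    rw [← mul_pow]
    apply pow_le_pow_left₀ (by positivity)
    linarith
  have h5 : (c + 3 * (l : ℝ)) ^ q ≤ (c + 3) ^ q * ((l : ℝ) + 1) ^ q := by
    rw [← mul_pow]
    apply pow_le_pow_left₀ (by positivity)
    nlinarith
  have h6 : Real.exp (-(m * l)) = Real.exp (m / 2) * Real.exp (-(m / 2) * ((l + 1 : ℕ) : ℝ)) *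
      Real.exp (-(m / 2 * l)) := by
    rw [← Real.exp_add, ← Real.exp_add]
    congr 1
    push_cast
    ring
  have h7 : (((l + 1 : ℕ) : ℝ)) ^ (p + q) = ((l : ℝ) + 1) ^ p * ((l : ℝ) + 1) ^ q := by
    rw [pow_add]
    push_cast
    ring
  rw [h7] at h3
  calc (2 * (l : ℝ) + 1) ^ p * A * Real.exp (-(m * l)) * (c + 3 * l) ^ q
      ≤ (2 ^ p * ((l : ℝ) + 1) ^ p) * A * Real.exp (-(m * l)) * ((c + 3) ^ q * ((l : ℝ) + 1) ^ q) := by
        gcongr
    _ = 2 ^ p * A * (c + 3) ^ q * Real.exp (m / 2) *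
        (((l : ℝ) + 1) ^ p * ((l : ℝ) + 1) ^ q * Real.exp (-(m / 2) * ((l + 1 : ℕ) : ℝ))) *
        Real.exp (-(m / 2 * l)) := by
        rw [h6]
        ring
    _ ≤ 2 ^ p * A * (c + 3) ^ q * Real.exp (m / 2) * T * Real.exp (-(m / 2 * l)) := by
        gcongr

theorem norm_tri {d : ℕ} (x y : Zd d) : ‖y‖ ≤ ‖x‖ + dd x y := by
  rw [Em.dd_norm]
  have := norm_sub_norm_le y x
  rw [norm_sub_rev] at this
  linarith

/-- the deterministic part -/
theorem deter (d : ℕ) (lam : ℝ) (m : ℝ) (hm : 0 < m) (ω : Zd d → ℝ) (E : ℝ) (ψ : Zd d → ℂ)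
    (hP : PolyB ψ) (hψ : IsGen (-1) (fun x => lam * ω x) E ψ) (x0 : Zd d) (hx0 : ψ x0 ≠ 0)
    (hev : ∀ᶠ l : ℕ in Filter.atTop,
      ∀ y, 2 * l + 1 ≤ dd x0 y → dd x0 y ≤ 2 * l + 2 →
        GoodB lam ω E (m * l) x0 l ∨ GoodB lam ω E (m * l) y l) :
    ∃ C : ℝ, ∀ x, ‖ψ x‖ ≤ C * Real.exp (-(6 * m / 50 * ‖x‖)) := by
  obtain ⟨C1, k, hC1⟩ := hP
  have hC1' : ∀ x, ‖ψ x‖ ≤ |C1| * (1 + ‖x‖) ^ k := fun x =>
    (hC1 x).trans (mul_le_mul_of_nonneg_right (le_abs_self _) (by positivity))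
  have hbox : ∀ (x : Zd d) (l : ℕ) (N : ℝ), ‖x‖ ≤ N → GoodB lam ω E (m * l) x l →
      ‖ψ x‖ ≤ (2 * l + 1) ^ d * (2 * d) * Real.exp (-(m * l)) * (|C1| * (N + l + 2) ^ k) := by
    intro x l N hN ⟨hx, hnear, hG⟩
    have hN0 : 0 ≤ N := (norm_nonneg x).trans hN
    apply box_formula lam ω E ψ hψ x l hx (isUnit_of_not_near _ _ hnear) (m * l)
      (|C1| * (N + l + 2) ^ k) (by positivity) hG
    intro y hy
    refine (hC1' y).trans ?_
    apply mul_le_mul_of_nonneg_left _ (abs_nonneg _)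
    apply pow_le_pow_left₀ (by positivity)
    have h1 := norm_tri x y
    have h2 : (dd x y : ℝ) ≤ l + 1 := by exact_mod_cast hy
    linarith
  obtain ⟨K1, hK1, hK1'⟩ := polyexp m hm d k (‖x0‖ + 4) (2 * d * |C1|) (by positivity) (by positivity)
  -- the box around x0 is eventually bad
  have hlim : Filter.Tendsto (fun l : ℕ => K1 * Real.exp (-(m / 2 * l))) Filter.atTop (nhds 0) := by
    have h1 : Filter.Tendsto (fun l : ℕ => Real.exp (-(m / 2 * l))) Filter.atTop (nhds 0) := by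
      apply Real.tendsto_exp_neg_atTop_nhds_zero.comp
      exact (tendsto_natCast_atTop_atTop).const_mul_atTop (by positivity)
    simpa using h1.const_mul K1
  have hpos : 0 < ‖ψ x0‖ := norm_pos_iff.mpr hx0
  have hbad : ∀ᶠ l : ℕ in Filter.atTop, ¬ GoodB lam ω E (m * l) x0 l := by
    filter_upwards [hlim.eventually_lt_const hpos] with l hl hgood
    have h1 := hbox x0 l ‖x0‖ le_rfl hgood
    have h2 := hK1' l
    have h3 : (2 * (l : ℝ) + 1) ^ d * (2 * d) * Real.exp (-(m * l)) * (|C1| * (‖x0‖ + l + 2) ^ k) ≤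
        (2 * (l : ℝ) + 1) ^ d * (2 * d * |C1|) * Real.exp (-(m * l)) * (‖x0‖ + 4 + 3 * l) ^ k := by
      have h4 : (‖x0‖ + l + 2) ^ k ≤ (‖x0‖ + 4 + 3 * (l : ℝ)) ^ k := by
        apply pow_le_pow_left₀ (by positivity)
        have : (0 : ℝ) ≤ l := Nat.cast_nonneg _
        linarith
      calc (2 * (l : ℝ) + 1) ^ d * (2 * d) * Real.exp (-(m * l)) * (|C1| * (‖x0‖ + l + 2) ^ k)
          = (2 * (l : ℝ) + 1) ^ d * (2 * d * |C1|) * Real.exp (-(m * l)) * (‖x0‖ + l + 2) ^ k := by ring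
        _ ≤ _ := mul_le_mul_of_nonneg_left h4 (by positivity)
    linarith
  obtain ⟨l0, hl0⟩ := Filter.eventually_atTop.mp (hev.and hbad)
  -- far points
  have hfar : ∀ y : Zd d, 2 * l0 + 1 ≤ dd x0 y →
      ‖ψ y‖ ≤ K1 * Real.exp (m / 4 * (‖x0‖ + 2)) * Real.exp (-(6 * m / 50 * ‖y‖)) := by
    intro y hy
    set l := (dd x0 y - 1) / 2 with hl
    have hl1 : 2 * l + 1 ≤ dd x0 y := by omega
    have hl2 : dd x0 y ≤ 2 * l + 2 := by omega
    have hl3 : l0 ≤ l := by omega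
    obtain ⟨h1, h2⟩ := hl0 l hl3
    have h3 : GoodB lam ω E (m * l) y l := (h1 y hl1 hl2).resolve_left h2
    have hl2' : (dd x0 y : ℝ) ≤ 2 * l + 2 := by exact_mod_cast hl2
    have h5 := norm_tri x0 y
    have h4 := hbox y l (‖x0‖ + 2 * l + 2) (by linarith) h3
    have h6 := hK1' l
    have h7 : (‖x0‖ + 2 * l + 2 + l + 2) = ‖x0‖ + 4 + 3 * (l : ℝ) := by ring
    rw [h7] at h4
    have h8 : ‖ψ y‖ ≤ K1 * Real.exp (-(m / 2 * l)) := by
      refine h4.trans (le_trans (le_of_eq ?_) h6)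
      ring
    refine h8.trans ?_
    rw [mul_assoc, ← Real.exp_add]
    apply mul_le_mul_of_nonneg_left _ hK1
    apply Real.exp_le_exp.mpr
    have h9 : ‖y‖ ≤ ‖x0‖ + 2 * l + 2 := by linarith
    have h10 : 0 ≤ ‖y‖ := norm_nonneg _
    nlinarith
  -- near points
  set R : ℝ := ‖x0‖ + (2 * l0 + 1) with hR
  have hR0 : 0 ≤ R := by positivity
  have hnear : ∀ y : Zd d, dd x0 y < 2 * l0 + 1 →
      ‖ψ y‖ ≤ |C1| * (1 + R) ^ k * Real.exp (6 * m / 50 * R) * Real.exp (-(6 * m / 50 * ‖y‖)) := by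
    intro y hy
    have h5 := norm_tri x0 y
    have hy' : (dd x0 y : ℝ) ≤ 2 * l0 + 1 := by exact_mod_cast hy.le
    have hyR : ‖y‖ ≤ R := by linarith
    have h1 := hC1' y
    have h2 : (1 + ‖y‖) ^ k ≤ (1 + R) ^ k := by
      apply pow_le_pow_left₀ (by positivity)
      linarith
    have h3 : 1 ≤ Real.exp (6 * m / 50 * R) * Real.exp (-(6 * m / 50 * ‖y‖)) := by
      rw [← Real.exp_add]
      apply Real.one_le_exp
      have : 0 ≤ 6 * m / 50 * (R - ‖y‖) := by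
        apply mul_nonneg (by positivity)
        linarith
      linarith
    calc ‖ψ y‖ ≤ |C1| * (1 + ‖y‖) ^ k := h1
      _ ≤ |C1| * (1 + R) ^ k := mul_le_mul_of_nonneg_left h2 (abs_nonneg _)
      _ = |C1| * (1 + R) ^ k * 1 := by ring
      _ ≤ |C1| * (1 + R) ^ k * (Real.exp (6 * m / 50 * R) * Real.exp (-(6 * m / 50 * ‖y‖))) :=
          mul_le_mul_of_nonneg_left h3 (by positivity)
      _ = _ := by ring
  refine ⟨K1 * Real.exp (m / 4 * (‖x0‖ + 2)) + |C1| * (1 + R) ^ k * Real.exp (6 * m / 50 * R),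
    fun y => ?_⟩
  rw [add_mul]
  by_cases hy : 2 * l0 + 1 ≤ dd x0 y
  · have := hfar y hy
    have h2 : 0 ≤ |C1| * (1 + R) ^ k * Real.exp (6 * m / 50 * R) * Real.exp (-(6 * m / 50 * ‖y‖)) := by
      positivity
    linarith
  · have := hnear y (not_le.mp hy)
    have h2 : 0 ≤ K1 * Real.exp (m / 4 * (‖x0‖ + 2)) * Real.exp (-(6 * m / 50 * ‖y‖)) := by
      positivity
    linarith

/-- decay of fractional moments implies exponential decay of all polynomially bounded generalised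
eigenfunctions -/
theorem gef (d : ℕ) (hd : 1 ≤ d) (μ : Measure ℝ) [IsProbabilityMeasure μ] (B : ℝ) (hμ : Reg B μ)
    (lam : ℝ) (hlam : 0 < lam) (E1 C0 m0 : ℝ) (hm0 : 0 < m0)
    (hdec : ∀ (Λ : Finset (Zd d)) (E : ℝ), E ≤ E1 → ∀ x y : Λ,
      ∫⁻ V, ‖Gr (AL Λ) lam V E x y‖ₑ ^ (1 / 4 : ℝ) ∂(Measure.pi fun _ : Λ => μ) ≤
        ENNReal.ofReal (C0 * Real.exp (-(m0 * dd x.1 y.1)))) :
    ∀ᵐ ω ∂(Measure.infinitePi fun _ : Zd d => μ), ∀ E : ℝ, E ≤ E1 → ∀ ψ : Zd d → ℂ, PolyB ψ →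
      IsGen (-1) (fun x => lam * ω x) E ψ → ∃ C : ℝ, ∀ x, ‖ψ x‖ ≤ C * Real.exp (-(m0 / 50 * ‖x‖)) := by
  have _ := hd
  have hm : 0 < m0 / 6 := by positivity
  have h6 : 6 * (m0 / 6) = m0 := by ring
  have hall : ∀ᵐ ω ∂(Measure.infinitePi fun _ : Zd d => μ), ∀ (x0 : Zd d) (n : ℕ),
      ∀ᶠ l : ℕ in Filter.atTop, ∀ E ∈ Set.Icc (E1 - 1 - n) (E1 - 1 - n + 1), ∀ y,
        2 * l + 1 ≤ dd x0 y → dd x0 y ≤ 2 * l + 2 →
        GoodB lam ω E (m0 / 6 * l) x0 l ∨ GoodB lam ω E (m0 / 6 * l) y l := by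
    rw [ae_all_iff]
    intro x0
    rw [ae_all_iff]
    intro n
    exact evt d μ B hμ lam hlam E1 C0 (m0 / 6) hm (by rw [h6]; exact hdec) x0 (E1 - 1 - n) (by
      have : (0 : ℝ) ≤ n := Nat.cast_nonneg _
      linarith)
  filter_upwards [hall] with ω hω E hE ψ hP hψ
  by_cases h0 : ψ = 0
  · exact ⟨0, fun x => by simp [h0]⟩
  obtain ⟨x0, hx0⟩ := Function.ne_iff.mp h0
  set n := ⌊E1 - E⌋₊ with hn
  have hn1 : (n : ℝ) ≤ E1 - E := Nat.floor_le (by linarith)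
  have hn2 : E1 - E < n + 1 := Nat.lt_floor_add_one _
  obtain ⟨C, hC⟩ := deter d lam (m0 / 6) hm ω E ψ hP hψ x0 hx0 (by
    filter_upwards [hω x0 n] with l hl y hy1 hy2
    exact hl E ⟨by linarith, by linarith⟩ y hy1 hy2)
  rw [h6] at hC
  exact ⟨C, hC⟩

end Gef

end Pool.Agent.H4R2.LO
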