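import Pool.Agent.H4R2.LO.Defs

/-! Regular laws (team LO, task LW): bounded densities with compact support and the Gaussian. -/

set_option autoImplicit false

open scoped BigOperators ENNReal
open MeasureTheory

namespace Pool.Agent.H4R2.LO

namespace Lw

theorem prod_le (μ : Measure ℝ) [SFinite μ] (f h : ℝ → ℝ≥0∞) (hf : Measurable f)
    (hh : Measurable h)
    (hμ : μ ≤ volume.withDensity f) (hfh : ∀ t r, f t * f (r + t) ≤ h r) (S : Set (ℝ × ℝ))
    (hS : MeasurableSet S) (ε : ℝ≥0∞)
    (hε : ∀ a b : ℝ, volume {t : ℝ | (a + t, b + t) ∈ S} ≤ ε) :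
    (μ.prod μ) S ≤ (∫⁻ r, h r) * ε := by
  have hind : Measurable (fun p : ℝ × ℝ => S.indicator (fun _ => (1 : ℝ≥0∞)) p) :=
    measurable_const.indicator hS
  have h1 : (μ.prod μ) S = ∫⁻ x, ∫⁻ y, S.indicator (fun _ => (1 : ℝ≥0∞)) (x, y) ∂μ ∂μ := by
    rw [← lintegral_prod _ hind.aemeasurable, lintegral_indicator_const hS, one_mul]
  have h2 : ∀ g : ℝ → ℝ≥0∞, Measurable g → ∫⁻ x, g x ∂μ ≤ ∫⁻ x, f x * g x := by
    intro g hg
    calc ∫⁻ x, g x ∂μ ≤ ∫⁻ x, g x ∂(volume.withDensity f) := lintegral_mono' hμ le_rfl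
      _ = ∫⁻ x, (f * g) x := by
          rw [lintegral_withDensity_eq_lintegral_mul _ hf hg]
      _ = ∫⁻ x, f x * g x := rfl
  rw [h1]
  have h3 : ∀ x, ∫⁻ y, S.indicator (fun _ => (1 : ℝ≥0∞)) (x, y) ∂μ ≤
      ∫⁻ r, f (r + x) * S.indicator (fun _ => (1 : ℝ≥0∞)) (x, r + x) := by
    intro x
    refine (h2 _ (hind.comp measurable_prodMk_left)).trans (le_of_eq ?_)
    exact (lintegral_add_right_eq_self
      (fun y => f y * S.indicator (fun _ => (1 : ℝ≥0∞)) (x, y)) x).symm
  have hm : Measurable (fun p : ℝ × ℝ =>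
      f p.1 * (f (p.2 + p.1) * S.indicator (fun _ => (1 : ℝ≥0∞)) (p.1, p.2 + p.1))) := by
    refine (hf.comp measurable_fst).mul ((hf.comp (measurable_snd.add measurable_fst)).mul ?_)
    exact hind.comp (measurable_fst.prodMk (measurable_snd.add measurable_fst))
  have hm2 : Measurable (fun p : ℝ × ℝ =>
      (f (p.2 + p.1) * S.indicator (fun _ => (1 : ℝ≥0∞)) (p.1, p.2 + p.1))) := by
    refine ((hf.comp (measurable_snd.add measurable_fst)).mul ?_)
    exact hind.comp (measurable_fst.prodMk (measurable_snd.add measurable_fst))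
  calc ∫⁻ x, ∫⁻ y, S.indicator (fun _ => (1 : ℝ≥0∞)) (x, y) ∂μ ∂μ
      ≤ ∫⁻ x, (∫⁻ r, f (r + x) * S.indicator (fun _ => (1 : ℝ≥0∞)) (x, r + x)) ∂μ :=
        lintegral_mono h3
    _ ≤ ∫⁻ x, f x * ∫⁻ r, f (r + x) * S.indicator (fun _ => (1 : ℝ≥0∞)) (x, r + x) :=
        h2 _ hm2.lintegral_prod_right'
    _ = ∫⁻ x, ∫⁻ r, f x * (f (r + x) * S.indicator (fun _ => (1 : ℝ≥0∞)) (x, r + x)) := by
        refine lintegral_congr fun x => ?_
        rw [lintegral_const_mul]
        exact hm2.comp measurable_prodMk_left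
    _ = ∫⁻ r, ∫⁻ x, f x * (f (r + x) * S.indicator (fun _ => (1 : ℝ≥0∞)) (x, r + x)) :=
        lintegral_lintegral_swap hm.aemeasurable
    _ ≤ ∫⁻ r, h r * ε := by
        refine lintegral_mono fun r => ?_
        calc ∫⁻ x, f x * (f (r + x) * S.indicator (fun _ => (1 : ℝ≥0∞)) (x, r + x))
            ≤ ∫⁻ x, h r * {t : ℝ | (0 + t, r + t) ∈ S}.indicator (fun _ => (1 : ℝ≥0∞)) x := by
              refine lintegral_mono fun x => ?_
              rw [← mul_assoc]
              refine mul_le_mul' (hfh x r) (le_of_eq ?_)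
              by_cases hx : (x, r + x) ∈ S
              · rw [Set.indicator_of_mem hx, Set.indicator_of_mem]
                simpa using hx
              · rw [Set.indicator_of_notMem hx, Set.indicator_of_notMem]
                simpa using hx
          _ = h r * volume {t : ℝ | (0 + t, r + t) ∈ S} := by
              have hms : MeasurableSet {t : ℝ | (0 + t, r + t) ∈ S} :=
                ((measurable_const.add measurable_id).prodMk
                  (measurable_const.add measurable_id)) hS
              rw [lintegral_const_mul _ (measurable_const.indicator hms),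
                lintegral_indicator_const hms, one_mul]
          _ ≤ h r * ε := mul_le_mul' le_rfl (hε 0 r)
    _ = (∫⁻ r, h r) * ε := lintegral_mul_const _ hh

theorem reg_bdd (μ : Measure ℝ) [IsProbabilityMeasure μ] (D : ℝ) (hD : 0 < D)
    (h1 : μ (Set.Icc (-1) 1)ᶜ = 0) (h2 : μ ≤ ENNReal.ofReal D • (volume : Measure ℝ)) :
    Reg (D + 4 * D ^ 2) μ := by
  refine ⟨by positivity, ?_, ?_⟩
  · refine h2.trans ?_
    intro s
    simp only [Measure.smul_apply, smul_eq_mul]
    refine mul_le_mul' (ENNReal.ofReal_le_ofReal ?_) le_rfl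
    nlinarith [sq_nonneg D]
  · intro S hS ε hε0 hε
    have hμ : μ ≤ volume.withDensity
        ((Set.Icc (-1 : ℝ) 1).indicator fun _ => ENNReal.ofReal D) := by
      rw [withDensity_indicator measurableSet_Icc, withDensity_const]
      refine Measure.le_iff.2 fun s hs => ?_
      have e1 : μ s = μ (s ∩ Set.Icc (-1) 1) := by
        refine le_antisymm ?_ (measure_mono Set.inter_subset_left)
        calc μ s ≤ μ ((s ∩ Set.Icc (-1) 1) ∪ (Set.Icc (-1) 1)ᶜ) := by
              refine measure_mono fun x hx => ?_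
              by_cases hx' : x ∈ Set.Icc (-1 : ℝ) 1
              · exact Or.inl ⟨hx, hx'⟩
              · exact Or.inr hx'
          _ ≤ μ (s ∩ Set.Icc (-1) 1) + μ (Set.Icc (-1) 1)ᶜ := measure_union_le _ _
          _ = μ (s ∩ Set.Icc (-1) 1) := by rw [h1, add_zero]
      rw [e1, Measure.smul_apply, Measure.restrict_apply hs]
      exact h2 _
    have key := prod_le μ ((Set.Icc (-1 : ℝ) 1).indicator fun _ => ENNReal.ofReal D)
      ((Set.Icc (-2 : ℝ) 2).indicator fun _ => ENNReal.ofReal D * ENNReal.ofReal D)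
      (measurable_const.indicator measurableSet_Icc)
      (measurable_const.indicator measurableSet_Icc) hμ ?_ S hS (ENNReal.ofReal ε) hε
    · refine key.trans ?_
      rw [lintegral_indicator_const measurableSet_Icc, Real.volume_Icc,
        ← ENNReal.ofReal_mul hD.le, ← ENNReal.ofReal_mul (by positivity),
        ← ENNReal.ofReal_mul (by positivity)]
      refine ENNReal.ofReal_le_ofReal ?_
      nlinarith [mul_nonneg hD.le hε0]
    · intro t r
      by_cases ht : t ∈ Set.Icc (-1 : ℝ) 1
      · by_cases hr : r + t ∈ Set.Icc (-1 : ℝ) 1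
        · have hr2 : r ∈ Set.Icc (-2 : ℝ) 2 := by
            rw [Set.mem_Icc] at ht hr ⊢
            constructor <;> linarith [ht.1, ht.2, hr.1, hr.2]
          rw [Set.indicator_of_mem ht, Set.indicator_of_mem hr, Set.indicator_of_mem hr2]
        · rw [Set.indicator_of_notMem hr, mul_zero]
          exact bot_le
      · rw [Set.indicator_of_notMem ht, zero_mul]
        exact bot_le

theorem reg_gauss : Reg 1 (ProbabilityTheory.gaussianReal 0 1) := by
  have hpdf : ∀ x, ProbabilityTheory.gaussianPDF 0 1 x =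
      ENNReal.ofReal ((Real.sqrt (2 * Real.pi))⁻¹ * Real.exp (-x ^ 2 / 2)) := by
    intro x
    rw [ProbabilityTheory.gaussianPDF, ProbabilityTheory.gaussianPDFReal]
    congr 1
    norm_num
  have hpi : (0 : ℝ) < Real.pi := Real.pi_pos
  have hpi3 : (3 : ℝ) < Real.pi := Real.pi_gt_three
  have hs1 : 1 ≤ Real.sqrt (2 * Real.pi) := by
    rw [Real.one_le_sqrt]; linarith
  refine ⟨one_pos, ?_, ?_⟩
  · rw [ProbabilityTheory.gaussianReal_of_var_ne_zero _ one_ne_zero, ENNReal.ofReal_one, one_smul]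
    refine Measure.le_iff.2 fun s hs => ?_
    rw [withDensity_apply _ hs]
    calc ∫⁻ a in s, ProbabilityTheory.gaussianPDF 0 1 a ≤ ∫⁻ a in s, 1 := by
          refine lintegral_mono fun x => ?_
          rw [hpdf x, ENNReal.ofReal_le_one]
          have e1 : (Real.sqrt (2 * Real.pi))⁻¹ ≤ 1 := inv_le_one_of_one_le₀ hs1
          have e2 : Real.exp (-x ^ 2 / 2) ≤ 1 := by
            rw [Real.exp_le_one_iff]
            nlinarith [sq_nonneg x]
          exact mul_le_one₀ e1 (Real.exp_pos _).le e2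
      _ = volume s := by simp
  · intro S hS ε hε0 hε
    have key := prod_le (ProbabilityTheory.gaussianReal 0 1) (ProbabilityTheory.gaussianPDF 0 1)
      (fun r => ENNReal.ofReal ((2 * Real.pi)⁻¹ * Real.exp (-(1 / 4) * r ^ 2)))
      (ProbabilityTheory.measurable_gaussianPDF 0 1) (by fun_prop)
      (by rw [ProbabilityTheory.gaussianReal_of_var_ne_zero _ one_ne_zero]) ?_ S hS
      (ENNReal.ofReal ε) hε
    · refine key.trans ?_
      have hint : Integrable (fun r : ℝ => (2 * Real.pi)⁻¹ * Real.exp (-(1 / 4) * r ^ 2)) :=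
        (integrable_exp_neg_mul_sq (by norm_num)).const_mul _
      rw [← ofReal_integral_eq_lintegral_ofReal hint
        (Filter.Eventually.of_forall fun r => by positivity), integral_const_mul,
        integral_gaussian, ← ENNReal.ofReal_mul (by positivity)]
      refine ENNReal.ofReal_le_ofReal ?_
      refine mul_le_mul_of_nonneg_right ?_ hε0
      have e3 : Real.sqrt (Real.pi / (1 / 4)) ≤ 2 * Real.pi := by
        rw [Real.sqrt_le_left (by positivity)]
        nlinarith
      calc (2 * Real.pi)⁻¹ * Real.sqrt (Real.pi / (1 / 4)) ≤ (2 * Real.pi)⁻¹ * (2 * Real.pi) := by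
            refine mul_le_mul_of_nonneg_left e3 (by positivity)
        _ = 1 := inv_mul_cancel₀ (by positivity)
    · intro t r
      rw [hpdf, hpdf, ← ENNReal.ofReal_mul (by positivity)]
      refine ENNReal.ofReal_le_ofReal ?_
      have e4 : (Real.sqrt (2 * Real.pi))⁻¹ * Real.exp (-t ^ 2 / 2) *
          ((Real.sqrt (2 * Real.pi))⁻¹ * Real.exp (-(r + t) ^ 2 / 2)) =
          (2 * Real.pi)⁻¹ * Real.exp (-t ^ 2 / 2 + -(r + t) ^ 2 / 2) := by
        rw [Real.exp_add]
        have e5 : (Real.sqrt (2 * Real.pi))⁻¹ * (Real.sqrt (2 * Real.pi))⁻¹ =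
            (2 * Real.pi)⁻¹ := by
          rw [← mul_inv, Real.mul_self_sqrt (by positivity)]
        rw [← e5]; ring
      rw [e4]
      refine mul_le_mul_of_nonneg_left ?_ (by positivity)
      rw [Real.exp_le_exp]
      nlinarith [sq_nonneg (t + r / 2)]

end Lw

end Pool.Agent.H4R2.LO
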