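import Pool.Agent.H4R2.LO.Dec
import Pool.Agent.H4R2.LO.Lw
import Pool.Agent.H4R2.LO.Em
import Pool.Agent.H4R2.LO.La
import Pool.Agent.H4R2.LO.Gef
import Pool.Agent.H4R2.LO.Bgk
import Pool.Agent.H4R2.LO.El
import Pool.Agent.H4R2.AE.Gs

/-! Assembly. -/

set_option autoImplicit false

open scoped BigOperators ENNReal
open MeasureTheory

namespace Pool.Agent.H4R2.LO.Main

open Pool.Agent.H4R2

/-! ### form bound from the flat ground state -/

theorem form_of_flat {d L : ℕ} [NeZero L] (lam η κ E : ℝ) (V : AE.T d L → ℝ)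
    (h : AE.Core.FlatE lam η κ E V) (f : AE.T d L → ℝ) :
    (E - κ) * ∑ x, f x ^ 2 ≤ ∑ x, f x * AE.Hop lam V f x := by
  obtain ⟨E0, ψ, hE, hψ, heig, _⟩ := h
  have hpos : ∀ x, 0 < ψ x := fun x => by linarith [(hψ x).1]
  set g : AE.T d L → ℝ := fun x => f x / ψ x with hg
  have hf : ∀ x, f x = ψ x * g x := fun x => by
    simp only [hg]
    field_simp [(hpos x).ne']
  have hfun : f = fun y => ψ y * g y := funext hf
  have h1 : ∑ x, f x * AE.Hop lam V f x = ∑ x, g x * AE.LapW ψ g x + E0 * ∑ x, f x ^ 2 := by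
    rw [Finset.mul_sum, ← Finset.sum_add_distrib]
    refine Finset.sum_congr rfl fun x _ => ?_
    rw [AE.Gs.lapW_hop lam V ψ g x, heig x, ← hfun, hf x]
    ring
  have h2 : 0 ≤ ∑ x, g x * AE.LapW ψ g x := by
    rw [AE.Lin.bilin ψ g g]
    refine Finset.sum_nonneg fun x _ => Finset.sum_nonneg fun i _ => ?_
    have h3 := mul_pos (hpos x) (hpos (x + Pi.single i 1))
    have h4 := mul_self_nonneg (g x - g (x + Pi.single i 1))
    exact mul_nonneg h3.le h4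
  have h4 : 0 ≤ ∑ x, f x ^ 2 := Finset.sum_nonneg fun x _ => sq_nonneg _
  have h5 : E - κ ≤ E0 := by linarith [(abs_le.1 hE).1]
  rw [h1]
  nlinarith [mul_le_mul_of_nonneg_right h5 h4]

theorem torusBound_of {d L : ℕ} [NeZero L] (μ : Measure ℝ) (lam η κ E ε0 : ℝ)
    (G : Set (AE.T d L → ℝ)) (hG : MeasurableSet G)
    (hP : 1 - ε0 ≤ (Measure.pi fun _ : AE.T d L => μ).real G)
    (hflat : ∀ V ∈ G, AE.Core.FlatE lam η κ E V) : TorusBound d L μ lam (E - κ) ε0 :=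
  ⟨G, hG, hP, fun V hV f => form_of_flat lam η κ E V (hflat V hV) f⟩

/-! ### summability -/

theorem summable_exp {d : ℕ} (m : ℝ) (hm : 0 < m) :
    Summable fun x : Zd d => Real.exp (-(m * ‖x‖)) := by
  have hs : Summable fun n : ℕ => ((2 * n + 1 : ℕ) : ℝ) ^ d * Real.exp (-(m * n)) := by
    have h1 := Real.summable_pow_mul_exp_neg_nat_mul d hm
    have h2 : Summable fun n : ℕ => (3 : ℝ) ^ d * ((n : ℝ) ^ d * Real.exp (-m * n)) :=
      h1.mul_left _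
    rw [← summable_nat_add_iff 1] at h2 ⊢
    refine Summable.of_nonneg_of_le (fun n => by positivity) (fun n => ?_) h2
    have h3 : ((2 * (n + 1) + 1 : ℕ) : ℝ) ^ d ≤ 3 ^ d * ((n + 1 : ℕ) : ℝ) ^ d := by
      rw [← mul_pow]
      apply pow_le_pow_left₀ (by positivity)
      push_cast
      linarith [(Nat.cast_nonneg n : (0 : ℝ) ≤ n)]
    calc ((2 * (n + 1) + 1 : ℕ) : ℝ) ^ d * Real.exp (-(m * (n + 1 : ℕ)))
        ≤ (3 ^ d * ((n + 1 : ℕ) : ℝ) ^ d) * Real.exp (-(m * (n + 1 : ℕ))) :=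
          mul_le_mul_of_nonneg_right h3 (Real.exp_pos _).le
      _ = _ := by
          rw [neg_mul, mul_assoc]
  refine summable_of_sum_le (c := ∑' n : ℕ, ((2 * n + 1 : ℕ) : ℝ) ^ d * Real.exp (-(m * n)))
    (fun x => (Real.exp_pos _).le) (fun F => ?_)
  have h1 : ∑ x ∈ F, Real.exp (-(m * ‖x‖)) =
      ∑ n ∈ F.image (fun x => dd x 0), ∑ x ∈ F.filter (fun x => dd x 0 = n),
        Real.exp (-(m * ‖x‖)) := by
    rw [Finset.sum_fiberwise_of_maps_to]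
    intro x hx
    exact Finset.mem_image_of_mem _ hx
  rw [h1]
  have h2 : ∀ n ∈ F.image (fun x => dd x 0), ∑ x ∈ F.filter (fun x => dd x 0 = n),
      Real.exp (-(m * ‖x‖)) ≤ ((2 * n + 1 : ℕ) : ℝ) ^ d * Real.exp (-(m * n)) := by
    intro n _
    have h3 : ∀ x ∈ F.filter (fun x => dd x 0 = n), Real.exp (-(m * ‖x‖)) ≤ Real.exp (-(m * n)) := by
      intro x hx
      have h4 := (Finset.mem_filter.1 hx).2
      have h5 := Em.dd_norm x (0 : Zd d)
      rw [sub_zero, h4] at h5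
      rw [← h5]
    refine (Finset.sum_le_card_nsmul _ _ _ h3).trans ?_
    rw [nsmul_eq_mul]
    refine mul_le_mul_of_nonneg_right ?_ (Real.exp_pos _).le
    have h6 : (F.filter (fun x => dd x 0 = n)).card ≤ (bx (0 : Zd d) n).card := by
      apply Finset.card_le_card
      intro x hx
      have h4 := (Finset.mem_filter.1 hx).2
      rw [Em.mem_bx, Em.dd_comm, h4]
    rw [Em.card_bx] at h6
    exact_mod_cast h6
  exact (Finset.sum_le_sum h2).trans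
    (hs.sum_le_tsum _ (fun n _ => by positivity))

theorem l2_of_decay {d : ℕ} (ψ : Zd d → ℂ) (m C : ℝ) (hm : 0 < m)
    (h : ∀ x, ‖ψ x‖ ≤ C * Real.exp (-(m * ‖x‖))) : L2f ψ := by
  have hs := (summable_exp (d := d) m hm).mul_left (C ^ 2)
  refine Summable.of_nonneg_of_le (fun x => by positivity) (fun x => ?_) hs
  have h1 := h x
  have h0 := norm_nonneg (ψ x)
  have h2 : Real.exp (-(m * ‖x‖)) ≤ 1 := by
    apply Real.exp_le_one_iff.2
    have := norm_nonneg x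
    have := mul_nonneg hm.le this
    linarith
  have h3 := Real.exp_pos (-(m * ‖x‖))
  calc ‖ψ x‖ ^ 2 ≤ (C * Real.exp (-(m * ‖x‖))) ^ 2 := pow_le_pow_left₀ h0 h1 2
    _ = C ^ 2 * (Real.exp (-(m * ‖x‖)) * Real.exp (-(m * ‖x‖))) := by ring
    _ ≤ C ^ 2 * (1 * Real.exp (-(m * ‖x‖))) := by gcongr
    _ = _ := by ring

/-- exponential decay of the polynomially bounded generalised eigenfunctions with energies in `S` -/
def Dec (d : ℕ) (τ : ℝ) (W : Zd d → ℝ) (S : Set ℝ) (m : ℝ) : Prop :=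
  ∀ E ∈ S, ∀ ψ : Zd d → ℂ, PolyB ψ → IsGen τ W E ψ → ∃ C : ℝ, ∀ x, ‖ψ x‖ ≤ C * Real.exp (-(m * ‖x‖))

/-- pure point spectrum in `S` -/
theorem pure_point {d : ℕ} (τ : ℝ) (W : Zd d → ℝ) (S : Set ℝ) (m : ℝ) (hm : 0 < m)
    (h : Dec d τ W S m) : ∃ N : Set ℝ, N.Countable ∧
      ∀ (g : Zd d → ℂ) (μ : Measure ℝ), L2f g → IsSpec τ W g μ → μ (S \ N) = 0 := by
  refine ⟨_, Bgk.cnt d τ W, fun g μ hg hμ => ?_⟩
  have h1 := Bgk.bgk d τ W g hg μ hμ
  rw [ae_iff] at h1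
  refine measure_mono_null (fun E hE => ?_) h1
  intro h2
  obtain ⟨φ, h3, h4, h5⟩ := h2
  obtain ⟨C, hC⟩ := h E hE.1 φ h4 h5
  exact hE.2 ⟨φ, h3, l2_of_decay φ m C hm hC, h5⟩

/-! ### the staggered transformation -/

/-- the sign `(-1)^{x_1 + ... + x_d}` -/
noncomputable def sgn {d : ℕ} (x : Zd d) : ℂ := ((-1 : ℂ) ^ (∑ i, x i))

theorem sgn_add {d : ℕ} (x : Zd d) (i : Fin d) : sgn (x + Pi.single i 1) = -sgn x := by
  unfold sgn
  have h : ∑ j, (x + Pi.single i 1 : Zd d) j = (∑ j, x j) + 1 := by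
    simp [Finset.sum_add_distrib]
  rw [h, zpow_add_one₀ (by norm_num)]
  ring

theorem sgn_sub {d : ℕ} (x : Zd d) (i : Fin d) : sgn (x - Pi.single i 1) = -sgn x := by
  have h := sgn_add (x - Pi.single i 1) i
  rw [sub_add_cancel] at h
  rw [h, neg_neg]

theorem sgn_norm {d : ℕ} (x : Zd d) : ‖sgn x‖ = 1 := by
  unfold sgn
  rw [norm_zpow]
  simp

theorem stag {d : ℕ} (τ : ℝ) (W : Zd d → ℝ) (E : ℝ) (ψ : Zd d → ℂ) (h : IsGen τ W E ψ) :
    IsGen (-τ) W E (fun x => sgn x * ψ x) := by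
  intro x
  have h1 := h x
  unfold Hg at h1 ⊢
  have h2 : ∑ i : Fin d, (sgn (x + Pi.single i 1) * ψ (x + Pi.single i 1) +
      sgn (x - Pi.single i 1) * ψ (x - Pi.single i 1)) =
      -(sgn x * ∑ i : Fin d, (ψ (x + Pi.single i 1) + ψ (x - Pi.single i 1))) := by
    rw [Finset.mul_sum, ← Finset.sum_neg_distrib]
    refine Finset.sum_congr rfl fun i _ => ?_
    rw [sgn_add, sgn_sub]
    ring
  rw [h2]
  push_cast
  linear_combination (sgn x) * h1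

theorem neg_gen {d : ℕ} (τ : ℝ) (W : Zd d → ℝ) (E : ℝ) (ψ : Zd d → ℂ) (h : IsGen τ W E ψ) :
    IsGen (-τ) (fun x => -W x) (-E) ψ := by
  intro x
  have h1 := h x
  unfold Hg at h1 ⊢
  push_cast
  linear_combination -h1

theorem shift_gen {d : ℕ} (τ a : ℝ) (W : Zd d → ℝ) (E : ℝ) (ψ : Zd d → ℂ) (h : IsGen τ W E ψ) :
    IsGen τ (fun x => W x + a) (E + a) ψ := by
  intro x
  have h1 := h x
  unfold Hg at h1 ⊢
  push_cast
  linear_combination h1

theorem polyB_sgn {d : ℕ} (ψ : Zd d → ℂ) (h : PolyB ψ) : PolyB (fun x => sgn x * ψ x) := by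
  obtain ⟨C, k, h⟩ := h
  exact ⟨C, k, fun x => by rw [norm_mul, sgn_norm, one_mul]; exact h x⟩

theorem dec_stag {d : ℕ} (τ : ℝ) (W : Zd d → ℝ) (S : Set ℝ) (m : ℝ) (h : Dec d τ W S m) :
    Dec d (-τ) W S m := by
  intro E hE ψ hψ hg
  have h1 := stag (-τ) W E ψ hg
  rw [neg_neg] at h1
  obtain ⟨C, hC⟩ := h E hE _ (polyB_sgn ψ hψ) h1
  refine ⟨C, fun x => ?_⟩
  have := hC x
  rwa [norm_mul, sgn_norm, one_mul] at this

theorem dec_neg {d : ℕ} (τ : ℝ) (W : Zd d → ℝ) (S : Set ℝ) (m : ℝ) (h : Dec d τ W S m) :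
    Dec d (-τ) (fun x => -W x) {E | -E ∈ S} m := by
  intro E hE ψ hψ hg
  have h1 := neg_gen (-τ) (fun x => -W x) E ψ hg
  simp only [neg_neg] at h1
  exact h (-E) hE ψ hψ h1

theorem dec_shift {d : ℕ} (τ a : ℝ) (W : Zd d → ℝ) (S : Set ℝ) (m : ℝ) (h : Dec d τ W S m) :
    Dec d τ (fun x => W x + a) {E | E - a ∈ S} m := by
  intro E hE ψ hψ hg
  have h1 := shift_gen τ (-a) (fun x => W x + a) E ψ hg
  simp only [add_neg_cancel_right] at h1
  exact h (E + -a) hE ψ hψ h1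

theorem dec_union {d : ℕ} (τ : ℝ) (W : Zd d → ℝ) (S S' : Set ℝ) (m : ℝ) (h : Dec d τ W S m)
    (h' : Dec d τ W S' m) : Dec d τ W (S ∪ S') m := by
  intro E hE
  rcases hE with hE | hE
  · exact h E hE
  · exact h' E hE

theorem dec_mono {d : ℕ} (τ : ℝ) (W : Zd d → ℝ) (S S' : Set ℝ) (m m' : ℝ) (h : Dec d τ W S m)
    (hS : S' ⊆ S) (hm : m' ≤ m) : Dec d τ W S' m' := by
  intro E hE ψ hψ hg
  obtain ⟨C, hC⟩ := h E (hS hE) ψ hψ hg
  have hC0 : 0 ≤ C := by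
    have h1 := (norm_nonneg _).trans (hC 0)
    simpa using h1
  refine ⟨C, fun x => (hC x).trans (mul_le_mul_of_nonneg_left (Real.exp_le_exp.2 ?_) hC0)⟩
  have := mul_le_mul_of_nonneg_right hm (norm_nonneg x)
  linarith

/-! ### localization below the edge -/

/-- main localization statement below the edge -/
theorem below (d : ℕ) (hd : 1 ≤ d) (B : ℝ) (hB : 0 < B) : ∃ C : ℝ, 1 ≤ C ∧
    ∀ (μ : Measure ℝ) [IsProbabilityMeasure μ], Reg B μ → ∀ lam : ℝ, 0 < lam → lam ≤ 1 →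
    ∀ (L0 : ℕ) [NeZero L0] (E1 ε0 : ℝ), 0 ≤ ε0 → TorusBound d L0 μ lam E1 ε0 →
    ∀ κ : ℝ, 0 < κ → κ ≤ 1 → (2 / (κ * lam)) ^ C ≤ L0 → (2 / (κ * lam)) ^ C * ε0 ≤ 1 →
    ∀ᵐ ω ∂(Measure.infinitePi fun _ : Zd d => μ),
      Dec d (-1) (fun x => lam * ω x) (Set.Iic (E1 - 2 * d - κ))
        (Real.sqrt κ / (C * Real.log (2 / (κ * lam)))) := by
  obtain ⟨C, hC, H⟩ := Dec.dec d hd B hB
  refine ⟨50 * C, by linarith, ?_⟩
  intro μ _ hμ lam hlam hlam1 L0 _ E1 ε0 hε0 hT κ hκ hκ1 h1 h2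
  have hb : 1 ≤ 2 / (κ * lam) := by
    rw [le_div_iff₀ (by positivity)]
    nlinarith
  have hb2 : 2 ≤ 2 / (κ * lam) := by
    rw [le_div_iff₀ (by positivity)]
    have : κ * lam ≤ 1 := by nlinarith
    linarith
  have hX : 0 < Real.log (2 / (κ * lam)) := Real.log_pos (by linarith)
  have hC0 : 0 < C := by linarith
  have hmono : (2 / (κ * lam)) ^ C ≤ (2 / (κ * lam)) ^ (50 * C) :=
    Real.rpow_le_rpow_of_exponent_le hb (by linarith)
  have h1' := hmono.trans h1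
  have h2' : (2 / (κ * lam)) ^ C * ε0 ≤ 1 := (mul_le_mul_of_nonneg_right hmono hε0).trans h2
  have h3 := H μ hμ lam hlam hlam1 L0 E1 ε0 hε0 hT κ hκ hκ1 h1' h2'
  set m0 : ℝ := Real.sqrt κ / (C * Real.log (2 / (κ * lam))) with hm0
  have hm0pos : 0 < m0 := by positivity
  have h4 := Gef.gef d hd μ B hμ lam hlam (E1 - 2 * d - κ) (C / lam) m0 hm0pos (by
    intro Λ E hE x y
    refine (h3 Λ E hE x y).trans (le_of_eq ?_)
    rw [hm0]
    congr 4
    ring)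
  filter_upwards [h4] with ω hω E hE ψ hψ hg
  obtain ⟨K, hK⟩ := hω E hE ψ hψ hg
  refine ⟨K, fun x => ?_⟩
  have h5 : Real.sqrt κ / (50 * C * Real.log (2 / (κ * lam))) = m0 / 50 := by
    rw [hm0]
    field_simp
  rw [h5]
  exact hK x

end Pool.Agent.H4R2.LO.Main
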